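import Pool.Agent.Q204.RF.Codes

set_option autoImplicit false
set_option synthInstance.maxSize 4000

/-!
The set of Goedel numbers of the axioms of `Sigma^1_1-AC_0` and the set of Goedel numbers of
`Pi^1_1` sentences are arithmetical.
-/

namespace Q204.RF

open Pool.Agent.H986R3.SOA Function

def varC (i : ℕ) : ℕ := pr 0 i
def addC (s t : ℕ) : ℕ := pr 3 (pr s t)
def mulC (s t : ℕ) : ℕ := pr 4 (pr s t)
def pairC (s t : ℕ) : ℕ := addC (mulC (addC s t) (addC s t)) s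
def memC (s i : ℕ) : ℕ := pr 2 (pr s i)
def negC (a : ℕ) : ℕ := pr 3 a
def andC (a b : ℕ) : ℕ := pr 4 (pr a b)
def allC (i a : ℕ) : ℕ := pr 5 (pr i a)
def allSC (i a : ℕ) : ℕ := pr 6 (pr i a)
def impC (a b : ℕ) : ℕ := negC (andC a (negC b))
def iffC (a b : ℕ) : ℕ := andC (impC a b) (impC b a)
def orC (a b : ℕ) : ℕ := negC (andC (negC a) (negC b))
def exSC (i a : ℕ) : ℕ := negC (allSC i (negC a))

section
variable (f g : (ℕ → ℕ) → ℕ) [DTm f] [DTm g]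
instance : DTm (fun v => varC (f v)) := by unfold varC; infer_instance
instance : DTm (fun v => addC (f v) (g v)) := by unfold addC; infer_instance
instance : DTm (fun v => mulC (f v) (g v)) := by unfold mulC; infer_instance
instance : DTm (fun v => pairC (f v) (g v)) := by unfold pairC; infer_instance
instance : DTm (fun v => memC (f v) (g v)) := by unfold memC; infer_instance
instance : DTm (fun v => negC (f v)) := by unfold negC; infer_instance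
instance : DTm (fun v => andC (f v) (g v)) := by unfold andC; infer_instance
instance : DTm (fun v => allC (f v) (g v)) := by unfold allC; infer_instance
instance : DTm (fun v => allSC (f v) (g v)) := by unfold allSC; infer_instance
instance : DTm (fun v => impC (f v) (g v)) := by unfold impC; infer_instance
instance : DTm (fun v => iffC (f v) (g v)) := by unfold iffC; infer_instance
instance : DTm (fun v => orC (f v) (g v)) := by unfold orC; infer_instance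
instance : DTm (fun v => exSC (f v) (g v)) := by unfold exSC; infer_instance
end

/-! ### Sigma formulas -/

def IsSg (n : ℕ) : Prop := ∃ φ : Fm, φ.IsSigma11 ∧ φ.code = n

theorem IsSg_iff (n : ℕ) : IsSg n ↔ ∃ i a, IsAr a ∧ n = exSC i a := by
  constructor
  · rintro ⟨_, ⟨i, θ, rfl, h⟩, rfl⟩
    exact ⟨i, θ.code, ⟨θ, h, rfl⟩, rfl⟩
  · rintro ⟨i, _, ⟨θ, h, rfl⟩, rfl⟩
    exact ⟨.exS i θ, ⟨i, θ, rfl, h⟩, rfl⟩

instance Def.IsSg (f : (ℕ → ℕ) → ℕ) [DTm f] : Def (fun v _ => Q204.RF.IsSg (f v)) := by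
  refine Def.comp1 (P := Q204.RF.IsSg) ?_ f
  have : Def (fun v _ => ∃ i a, Q204.RF.IsAr a ∧ v 0 = exSC i a) := inferInstance
  exact this.congr fun v _ => IsSg_iff _

/-! ### Sentences -/

def IsSe (n : ℕ) : Prop := ∃ φ : Fm, φ.IsSentence ∧ φ.code = n

theorem IsSe_iff (n : ℕ) : IsSe n ↔ IsFm n ∧ ∀ i, ¬ FvN n i ∧ ¬ FvS n i := by
  constructor
  · rintro ⟨φ, h, rfl⟩
    refine ⟨⟨φ, rfl⟩, fun i => ⟨?_, ?_⟩⟩
    · rintro ⟨ψ, hψ, h'⟩
      rw [Fm.code_inj _ _ hψ, h.1] at h'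
      exact h'
    · rintro ⟨ψ, hψ, h'⟩
      rw [Fm.code_inj _ _ hψ, h.2] at h'
      exact h'
  · rintro ⟨⟨φ, rfl⟩, h⟩
    refine ⟨φ, ⟨?_, ?_⟩, rfl⟩
    · exact Set.eq_empty_of_forall_notMem fun i hi => (h i).1 ⟨φ, rfl, hi⟩
    · exact Set.eq_empty_of_forall_notMem fun i hi => (h i).2 ⟨φ, rfl, hi⟩

instance Def.IsSe (f : (ℕ → ℕ) → ℕ) [DTm f] : Def (fun v _ => Q204.RF.IsSe (f v)) := by
  refine Def.comp1 (P := Q204.RF.IsSe) ?_ f
  have : Def (fun v _ => Q204.RF.IsFm (v 0) ∧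
    ∀ i, ¬ Q204.RF.FvN (v 0) i ∧ ¬ Q204.RF.FvS (v 0) i) := inferInstance
  exact this.congr fun v _ => IsSe_iff _

/-! ### `Pi^1_1` sentences -/

def IsPi (n : ℕ) : Prop := ∃ φ : Fm, φ.IsPi11Sentence ∧ φ.code = n

theorem IsPi_iff (n : ℕ) : IsPi n ↔ (∃ i a, IsAr a ∧ n = allSC i a) ∧ IsSe n := by
  constructor
  · rintro ⟨_, ⟨⟨i, θ, rfl, h⟩, h'⟩, rfl⟩
    exact ⟨⟨i, θ.code, ⟨θ, h, rfl⟩, rfl⟩, ⟨_, h', rfl⟩⟩
  · rintro ⟨⟨i, _, ⟨θ, h, rfl⟩, rfl⟩, ⟨φ, h1, h2⟩⟩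
    have : φ = .allS i θ := Fm.code_inj _ _ h2
    subst this
    exact ⟨.allS i θ, ⟨⟨i, θ, rfl, h⟩, h1⟩, rfl⟩

instance Def.IsPi (f : (ℕ → ℕ) → ℕ) [DTm f] : Def (fun v _ => Q204.RF.IsPi (f v)) := by
  refine Def.comp1 (P := Q204.RF.IsPi) ?_ f
  have : Def (fun v _ => (∃ i a, Q204.RF.IsAr a ∧ v 0 = allSC i a) ∧ Q204.RF.IsSe (v 0)) :=
    inferInstance
  exact this.congr fun v _ => IsPi_iff _

/-! ### axioms -/

def compC (i j a : ℕ) : ℕ := exSC j (allC i (iffC (memC (varC i) j) a))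

def choiceC (a n m X Z : ℕ) : ℕ :=
  impC (allC n (exSC X a)) (exSC Z (allC n (exSC X
    (andC (allC m (iffC (memC (varC m) X) (memC (pairC (varC n) (varC m)) Z))) a))))

theorem code_comp (i j : ℕ) (φ : Fm) :
    (Fm.exS j (.all i (.iff (.mem (.var i) j) φ))).code = compC i j φ.code := rfl

theorem code_choice (φ : Fm) (n m X Z : ℕ) :
    (Fm.imp (.all n (.exS X φ)) (.exS Z (.all n (.exS X
        (.and (.all m (.iff (.mem (.var m) X) (.mem (pairTm (.var n) (.var m)) Z))) φ))))).code =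
      choiceC φ.code n m X Z := rfl

/-- the codes of the finitely many single axioms of `ACA_0` -/
def singles : List Fm :=
  [(.neg (.eq (.add (.var 0) .one) .zero)),
   (.imp (.eq (.add (.var 0) .one) (.add (.var 1) .one)) (.eq (.var 0) (.var 1))),
   (.eq (.add (.var 0) .zero) (.var 0)),
   (.eq (.add (.var 0) (.add (.var 1) .one)) (.add (.add (.var 0) (.var 1)) .one)),
   (.eq (.mul (.var 0) .zero) .zero),
   (.eq (.mul (.var 0) (.add (.var 1) .one)) (.add (.mul (.var 0) (.var 1)) (.var 0))),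
   (.neg (.lt (.var 0) .zero)),
   (.iff (.lt (.var 0) (.add (.var 1) .one)) (.or (.lt (.var 0) (.var 1)) (.eq (.var 0) (.var 1)))),
   (.imp (.and (.mem .zero 0)
      (.all 0 (.imp (.mem (.var 0) 0) (.mem (.add (.var 0) .one) 0)))) (.all 0 (.mem (.var 0) 0)))]

theorem aca_iff (φ : Fm) : ACA0 φ ↔ φ ∈ singles ∨
    ∃ ψ i j, ψ.Arithmetical ∧ j ∉ ψ.fvS ∧ φ = .exS j (.all i (.iff (.mem (.var i) j) ψ)) := by
  constructor
  · intro h
    cases h with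
    | comprehension ψ i j h1 h2 => exact Or.inr ⟨ψ, i, j, h1, h2, rfl⟩
    | _ => left; simp [singles]
  · rintro (h | ⟨ψ, i, j, h1, h2, rfl⟩)
    · simp only [singles, List.mem_cons, List.not_mem_nil, or_false] at h
      rcases h with rfl | rfl | rfl | rfl | rfl | rfl | rfl | rfl | rfl
      · exact .succ_ne_zero
      · exact .succ_inj
      · exact .add_zero
      · exact .add_succ
      · exact .mul_zero
      · exact .mul_succ
      · exact .not_lt_zero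
      · exact .lt_succ
      · exact .induction
    · exact .comprehension ψ i j h1 h2

/-- the set of the codes of a list of formulas is definable -/
theorem Def.list (l : List Fm) : Def (fun v _ => ∃ φ ∈ l, φ.code = v 0) := by
  induction l with
  | nil =>
    have : Def (fun _ _ => False) := inferInstance
    exact this.congr fun v _ => by simp
  | cons a l ih =>
    have : Def (fun v _ => v 0 = a.code ∨ ∃ φ ∈ l, φ.code = v 0) := inferInstance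
    exact this.congr fun v _ => by simp [eq_comm]

def IsAxm (n : ℕ) : Prop := ∃ φ, SigmaAC φ ∧ φ.code = n

theorem fvS_code (φ : Fm) (i : ℕ) : FvS φ.code i ↔ i ∈ φ.fvS := by
  constructor
  · rintro ⟨ψ, h, h'⟩
    rwa [Fm.code_inj _ _ h] at h'
  · exact fun h => ⟨φ, rfl, h⟩

theorem IsAxm_iff (n : ℕ) : IsAxm n ↔ (∃ φ ∈ singles, φ.code = n) ∨
    (∃ a i j, IsAr a ∧ ¬ FvS a j ∧ n = compC i j a) ∨
    ∃ a k m X Z, IsSg a ∧ m ≠ k ∧ Z ≠ X ∧ ¬ FvS a Z ∧ n = choiceC a k m X Z := by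
  constructor
  · rintro ⟨φ, h, rfl⟩
    cases h with
    | aca φ h =>
      rcases (aca_iff φ).1 h with h | ⟨ψ, i, j, h1, h2, rfl⟩
      · exact Or.inl ⟨φ, h, rfl⟩
      · exact Or.inr (Or.inl ⟨ψ.code, i, j, ⟨ψ, h1, rfl⟩, by rwa [fvS_code], rfl⟩)
    | choice φ k m X Z h1 h2 h3 h4 =>
      exact Or.inr (Or.inr ⟨φ.code, k, m, X, Z, ⟨φ, h1, rfl⟩, h2, h3, by rwa [fvS_code], rfl⟩)
  · rintro (⟨φ, h, rfl⟩ | ⟨_, i, j, ⟨φ, h1, rfl⟩, h2, rfl⟩ |
      ⟨_, k, m, X, Z, ⟨φ, h1, rfl⟩, h2, h3, h4, rfl⟩)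
    · exact ⟨φ, .aca _ ((aca_iff φ).2 (Or.inl h)), rfl⟩
    · rw [fvS_code] at h2
      exact ⟨_, .aca _ (.comprehension φ i j h1 h2), code_comp i j φ⟩
    · rw [fvS_code] at h4
      exact ⟨_, .choice φ k m X Z h1 h2 h3 h4, code_choice φ k m X Z⟩

instance Def.IsAxm (f : (ℕ → ℕ) → ℕ) [DTm f] : Def (fun v _ => Q204.RF.IsAxm (f v)) := by
  refine Def.comp1 (P := Q204.RF.IsAxm) ?_ f
  haveI := Def.list singles
  have : Def (fun v _ => (∃ φ ∈ singles, φ.code = v 0) ∨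
    (∃ a i j, Q204.RF.IsAr a ∧ ¬ Q204.RF.FvS a j ∧
      v 0 = exSC j (allC i (iffC (memC (varC i) j) a))) ∨
    ∃ a k m X Z, Q204.RF.IsSg a ∧ m ≠ k ∧ Z ≠ X ∧ ¬ Q204.RF.FvS a Z ∧ v 0 =
      impC (allC k (exSC X a)) (exSC Z (allC k (exSC X
    (andC (allC m (iffC (memC (varC m) X) (memC (pairC (varC k) (varC m)) Z))) a))))) :=
    inferInstance
  exact this.congr fun v _ => IsAxm_iff _

/-! ### generalizations of axioms -/

def IsGx (n : ℕ) : Prop := ∃ φ ψ, SigmaAC φ ∧ Gen φ ψ ∧ ψ.code = n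

def GGx (Q : ℕ → Prop) (n : ℕ) : Prop :=
  IsAxm n ∨ (∃ i a, n = allC i a ∧ Q a) ∨ ∃ i a, n = allSC i a ∧ Q a

theorem GGx_iff (n : ℕ) : IsGx n ↔ GGx IsGx n := by
  constructor
  · rintro ⟨φ, ψ, h, hg, rfl⟩
    cases hg with
    | refl => exact Or.inl ⟨φ, h, rfl⟩
    | all i ψ hg => exact Or.inr (Or.inl ⟨i, _, rfl, ⟨φ, ψ, h, hg, rfl⟩⟩)
    | allS i ψ hg => exact Or.inr (Or.inr ⟨i, _, rfl, ⟨φ, ψ, h, hg, rfl⟩⟩)
  · rintro (⟨φ, h, rfl⟩ | ⟨i, _, rfl, ⟨φ, ψ, h, hg, rfl⟩⟩ | ⟨i, _, rfl, ⟨φ, ψ, h, hg, rfl⟩⟩)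
    · exact ⟨φ, φ, h, .refl, rfl⟩
    · exact ⟨φ, _, h, .all i ψ hg, rfl⟩
    · exact ⟨φ, _, h, .allS i ψ hg, rfl⟩

theorem GGx_loc (Q Q' : ℕ → Prop) (n : ℕ) (h : ∀ m < n, (Q m ↔ Q' m)) : GGx Q n ↔ GGx Q' n := by
  unfold GGx
  refine or_congr Iff.rfl (or_congr ?_ ?_)
  all_goals
    refine exists_congr fun a => exists_congr fun b => and_congr_right fun hs => ?_
    subst hs
    exact h _ (lt_pr_pr_right (by norm_num) a b)

instance Def.IsGx (f : (ℕ → ℕ) → ℕ) [DTm f] : Def (fun v _ => Q204.RF.IsGx (f v)) := by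
  refine Def.comp1 (P := Q204.RF.IsGx) ?_ f
  refine Def.recursion GGx GGx_loc GGx_iff ?_
  unfold GGx
  infer_instance

theorem sigmaAC0_iff (n : ℕ) : (∃ φ ∈ SigmaAC0, φ.code = n) ↔ IsSe n ∧ IsGx n := by
  constructor
  · rintro ⟨ψ, ⟨h, φ, h1, h2⟩, rfl⟩
    exact ⟨⟨ψ, h, rfl⟩, ⟨φ, ψ, h1, h2, rfl⟩⟩
  · rintro ⟨⟨ψ, h, rfl⟩, ⟨φ, ψ', h1, h2, h3⟩⟩
    have : ψ' = ψ := Fm.code_inj _ _ h3
    subst this
    exact ⟨ψ', ⟨h, φ, h1, h2⟩, rfl⟩

/-- an arithmetical definition of the axioms of `Sigma^1_1-AC_0` -/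
theorem exists_ax : ∃ ax : Fm, ax.Arithmetical ∧ ax.FreeIn {0} ∧
    ∀ (v : ℕ → ℕ) (V : ℕ → Set ℕ), evF v V ax ↔ ∃ φ ∈ SigmaAC0, φ.code = v 0 := by
  have hd : Def (fun v _ => ∃ φ ∈ SigmaAC0, φ.code = v 0) := by
    have : Def (fun v _ => Q204.RF.IsSe (v 0) ∧ Q204.RF.IsGx (v 0)) := inferInstance
    exact this.congr fun v _ => sigmaAC0_iff _
  obtain ⟨φ, h1, h2, h3, h4⟩ := hd.formula false {0} (by
    intro v v' Z h
    rw [h 0 (by simp)])
  refine ⟨φ, h1, ⟨by simpa using h2, ?_⟩, fun v V => ?_⟩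
  · simpa using h3
  · rw [h4]

/-- an arithmetical definition of the set of `Pi^1_1` sentences -/
theorem exists_isPi : ∃ p : Fm, p.Arithmetical ∧ p.FreeIn {2} ∧
    ∀ (v : ℕ → ℕ) (V : ℕ → Set ℕ), evF v V p ↔ ∃ φ : Fm, φ.IsPi11Sentence ∧ φ.code = v 2 := by
  have hd : Def (fun v _ => Q204.RF.IsPi (v 2)) := inferInstance
  obtain ⟨φ, h1, h2, h3, h4⟩ := hd.formula false {2} (by
    intro v v' Z h
    rw [h 2 (by simp)])
  refine ⟨φ, h1, ⟨by simpa using h2, ?_⟩, fun v V => ?_⟩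
  · simpa using h3
  · rw [h4]; rfl

end Q204.RF
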