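import Pool.Agent.Q204.RF.Final

set_option autoImplicit false

/-!
The sentences of `SigmaAC0` prove the axioms with free variables.
-/

namespace Q204.RF

open Pool.Agent.H986R3.SOA Function

theorem fvS_finite (φ : Fm) : φ.fvS.Finite := by
  induction φ with
  | eq s t => exact Set.finite_empty
  | lt s t => exact Set.finite_empty
  | mem t i => exact Set.finite_singleton i
  | neg φ ih => exact ih
  | and φ ψ ih1 ih2 => exact ih1.union ih2
  | all i φ ih => exact ih
  | allS i φ ih => exact ih.subset Set.sdiff_subset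

/-- quantify the set variables of a list -/
def clS' : List ℕ → Fm → Fm
  | [], φ => φ
  | i :: l, φ => .allS i (clS' l φ)

theorem clS'_fvS (l : List ℕ) (φ : Fm) (x : ℕ) (hx : x ∈ (clS' l φ).fvS) : x ∈ φ.fvS ∧ x ∉ l := by
  induction l with
  | nil => exact ⟨hx, by simp⟩
  | cons i l ih =>
    have h1 : x ∈ (clS' l φ).fvS \ {i} := hx
    obtain ⟨h2, h3⟩ := ih h1.1
    exact ⟨h2, by simp only [List.mem_cons, not_or]; exact ⟨h1.2, h3⟩⟩

theorem clS'_fvN (l : List ℕ) (φ : Fm) : (clS' l φ).fvN = φ.fvN := by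
  induction l with
  | nil => rfl
  | cons i l ih => exact ih

theorem gen_clN {φ ψ : Fm} (h : Gen φ ψ) (l : List ℕ) : Gen φ (clN l ψ) := by
  induction l with
  | nil => exact h
  | cons i l ih => exact .all i _ ih

theorem gen_clS' {φ ψ : Fm} (h : Gen φ ψ) (l : List ℕ) : Gen φ (clS' l ψ) := by
  induction l with
  | nil => exact h
  | cons i l ih => exact .allS i _ ih

theorem exists_closure (φ : Fm) : ∃ ψ, Gen φ ψ ∧ ψ.IsSentence := by
  refine ⟨clS' (fvS_finite φ).toFinset.toList (clN (List.range φ.bd) φ),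
    gen_clS' (gen_clN .refl _) _, ?_, ?_⟩
  · rw [clS'_fvN]
    refine Set.eq_empty_of_forall_notMem fun x hx => ?_
    obtain ⟨h1, h2⟩ := clN_fvN _ _ _ hx
    exact h2 (List.mem_range.2 (fvN_lt_bd φ x h1))
  · refine Set.eq_empty_of_forall_notMem fun x hx => ?_
    obtain ⟨h1, h2⟩ := clS'_fvS _ _ _ hx
    rw [clN_fvS] at h1
    exact h2 (by simpa using h1)

theorem holds_of_gen (M : Model) {φ ψ : Fm} (h : Gen φ ψ) (hψ : M.Holds ψ) : M.Holds φ := by
  induction h with
  | refl => exact hψ
  | all i ψ _ ih =>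
    refine ih fun v V hV => ?_
    have := hψ v V hV (v i)
    rwa [update_eq_self] at this
  | allS i ψ _ ih =>
    refine ih fun v V hV => ?_
    have := hψ v V hV (V i) (hV i)
    rwa [update_eq_self] at this

/-- A theory that contains `SigmaAC0` proves all axioms of `Sigma^1_1-AC_0`. -/
theorem proves_axioms {T : Set Fm} (hT : SigmaAC0 ⊆ T) (φ : Fm) (h : SigmaAC φ) : Proves T φ := by
  obtain ⟨ψ, h1, h2⟩ := exists_closure φ
  exact fun M hM => holds_of_gen M h1 (hM ψ (hT ⟨h2, φ, h, h1⟩))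

end Q204.RF
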