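import Pool.Agent.H986R3.SOADefs

set_option autoImplicit false

/-!
The theory `Sigma^1_1-AC_0`, arithmetizations of the metamathematics of second-order arithmetic that
are correct in the standard model, and `Pi^1_1`-definable theories.  The language `L_2`, its
structures, satisfaction, provability, `ACA_0`, Goedel numbers and the classes `Pi^1_1` and
`Sigma^1_1` are in `Pool/Agent/H986R3/SOADefs.lean`.
-/

namespace Q204.RF

open Pool.Agent.H986R3.SOA

/-- The term for the pair `(s + t)^2 + s`. -/
def pairTm (s t : Tm) : Tm := .add (.mul (.add s t) (.add s t)) s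

/-- The axioms of `Sigma^1_1-AC_0`, free variables being universally quantified: the axioms of
`ACA_0` and the `Sigma^1_1` axiom of choice, for `Sigma^1_1` formulas `φ`, possibly with parameters:
`∀ n ∃ X φ(n, X) → ∃ Z ∀ n ∃ X (∀ m (m ∈ X ↔ (n, m) ∈ Z) ∧ φ(n, X))`. -/
inductive SigmaAC : Fm → Prop
  | aca (φ : Fm) : ACA0 φ → SigmaAC φ
  | choice (φ : Fm) (n m X Z : ℕ) : φ.IsSigma11 → m ≠ n → Z ≠ X → Z ∉ φ.fvS →
      SigmaAC (.imp (.all n (.exS X φ)) (.exS Z (.all n (.exS X
        (.and (.all m (.iff (.mem (.var m) X) (.mem (pairTm (.var n) (.var m)) Z))) φ)))))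

/-- `Gen φ ψ`: the formula `ψ` arises from `φ` by prefixing universal quantifiers. -/
inductive Gen (φ : Fm) : Fm → Prop
  | refl : Gen φ φ
  | all (i : ℕ) (ψ : Fm) : Gen φ ψ → Gen φ (.all i ψ)
  | allS (i : ℕ) (ψ : Fm) : Gen φ ψ → Gen φ (.allS i ψ)

/-- The theory `Sigma^1_1-AC_0` as a set of sentences: the universal closures of its axioms. -/
def SigmaAC0 : Set Fm := {ψ | ψ.IsSentence ∧ ∃ φ, SigmaAC φ ∧ Gen φ ψ}

/-- An arithmetization of the metamathematics of `L_2` that is correct in the standard model.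
* `prf` and `axIn` are arithmetical formulas; `prf(p, x)` (with `p` the number variable `1` and
  `x` the number variable `2`) says that `p` is a proof of `x`, and `axIn(a, p)` (with `a` the
  number variable `0`) that the non-logical axiom `a` is used in `p`. In the standard model they
  define a sound and complete notion of proof: a sentence is provable from a set `T` of sentences
  iff it has a proof all of whose non-logical axioms are in `T`.
* `isPi(x)` is an arithmetical formula that defines in the standard model the set of the Goedel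
  numbers of `Pi^1_1` sentences.
* `tr(x)` is a partial truth predicate for `Pi^1_1` sentences: a `Pi^1_1` formula such that, in the
  standard model, `tr(φ)` holds iff `φ` is true, for each `Pi^1_1` sentence `φ`. -/
structure StdArithmetization where
  prf : Fm
  axIn : Fm
  isPi : Fm
  tr : Fm
  prf_arith : prf.Arithmetical
  prf_free : prf.FreeIn {1, 2}
  axIn_arith : axIn.Arithmetical
  axIn_free : axIn.FreeIn {0, 1}
  prf_correct : ∀ (T : Set Fm), (∀ ψ ∈ T, ψ.IsSentence) → ∀ φ : Fm, φ.IsSentence →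
    (Proves T φ ↔ ∃ p : ℕ, SatN 0 p φ.code prf ∧ ∀ a : ℕ, SatN a p 0 axIn → ∃ ψ ∈ T, ψ.code = a)
  isPi_arith : isPi.Arithmetical
  isPi_free : isPi.FreeIn {2}
  isPi_correct : ∀ n : ℕ, SatN 0 0 n isPi ↔ ∃ φ : Fm, φ.IsPi11Sentence ∧ φ.code = n
  tr_pi : tr.IsPi11
  tr_free : tr.FreeIn {2}
  tr_correct : ∀ φ : Fm, φ.IsPi11Sentence → (SatN 0 0 φ.code tr ↔ std.Holds φ)

/-- The provability predicate `Pr_τ(x)` (with `x` the number variable `2`) built from `τ(a)`
(with `a` the number variable `0`): there is a proof of `x` all of whose axioms satisfy `τ`. -/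
def StdArithmetization.Pr (𝒜 : StdArithmetization) (τ : Fm) : Fm :=
  .ex 1 (.and 𝒜.prf (.all 0 (.imp 𝒜.axIn τ)))

/-- The `Pi^1_1`-reflection sentence `∀ φ ∈ Pi^1_1 (Pr_τ(φ) → True(φ))`. -/
def StdArithmetization.reflection (𝒜 : StdArithmetization) (τ : Fm) : Fm :=
  .all 2 (.imp (.and 𝒜.isPi (𝒜.Pr τ)) 𝒜.tr)

/-- The `Pi^1_1` formula `τ(a)` defines (the set of Goedel numbers of the members of) `T` in the
standard model. -/
def Pi11Defines (τ : Fm) (T : Set Fm) : Prop :=
  τ.IsPi11 ∧ τ.FreeIn {0} ∧ ∀ n : ℕ, SatN n 0 0 τ ↔ ∃ φ ∈ T, φ.code = n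

end Q204.RF
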