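import Pool.Agent.Q204.RF.Rec
import Pool.Agent.Q204.RF.Defs

set_option autoImplicit false
set_option synthInstance.maxSize 4000

/-!
The sets of Goedel numbers used in the arithmetization are arithmetical.
-/

namespace Q204.RF

open Pool.Agent.H986R3.SOA Function

theorem le_pr_left (a b : ℕ) : a ≤ pr a b := by unfold pr; omega

theorem le_pr_right (a b : ℕ) : b ≤ pr a b := by
  unfold pr
  have : b ≤ (a + b) * (a + b) := by nlinarith [Nat.le_mul_self (a + b)]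
  omega

theorem lt_pr_right {a : ℕ} (h : 0 < a) (b : ℕ) : b < pr a b := by
  unfold pr
  have : b ≤ (a + b) * (a + b) := by nlinarith [Nat.le_mul_self (a + b)]
  omega

theorem pr_lt_pr_left {a a' : ℕ} (h : a < a') (i : ℕ) : pr a i < pr a' i := by
  unfold pr
  nlinarith

theorem lt_pr_pr_left {k : ℕ} (h : 0 < k) (a b : ℕ) : a < pr k (pr a b) :=
  lt_of_le_of_lt (le_pr_left a b) (lt_pr_right h _)

theorem lt_pr_pr_right {k : ℕ} (h : 0 < k) (a b : ℕ) : b < pr k (pr a b) :=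
  lt_of_le_of_lt (le_pr_right a b) (lt_pr_right h _)

/-! ### terms -/

def IsTm (n : ℕ) : Prop := ∃ t : Tm, t.code = n

def GTm (Q : ℕ → Prop) (n : ℕ) : Prop :=
  (∃ i, n = pr 0 i) ∨ n = pr 1 0 ∨ n = pr 2 0 ∨ (∃ a b, n = pr 3 (pr a b) ∧ Q a ∧ Q b) ∨
    ∃ a b, n = pr 4 (pr a b) ∧ Q a ∧ Q b

theorem GTm_iff (n : ℕ) : IsTm n ↔ GTm IsTm n := by
  constructor
  · rintro ⟨t, rfl⟩
    cases t with
    | var i => exact Or.inl ⟨i, rfl⟩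
    | zero => exact Or.inr (Or.inl rfl)
    | one => exact Or.inr (Or.inr (Or.inl rfl))
    | add s t => exact Or.inr (Or.inr (Or.inr (Or.inl ⟨_, _, rfl, ⟨s, rfl⟩, ⟨t, rfl⟩⟩)))
    | mul s t => exact Or.inr (Or.inr (Or.inr (Or.inr ⟨_, _, rfl, ⟨s, rfl⟩, ⟨t, rfl⟩⟩)))
  · rintro (⟨i, rfl⟩ | rfl | rfl | ⟨_, _, rfl, ⟨s, rfl⟩, ⟨t, rfl⟩⟩ | ⟨_, _, rfl, ⟨s, rfl⟩, ⟨t, rfl⟩⟩)
    · exact ⟨.var i, rfl⟩
    · exact ⟨.zero, rfl⟩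
    · exact ⟨.one, rfl⟩
    · exact ⟨.add s t, rfl⟩
    · exact ⟨.mul s t, rfl⟩

theorem GTm_loc (Q Q' : ℕ → Prop) (n : ℕ) (h : ∀ m < n, (Q m ↔ Q' m)) : GTm Q n ↔ GTm Q' n := by
  unfold GTm
  refine or_congr Iff.rfl (or_congr Iff.rfl (or_congr Iff.rfl (or_congr ?_ ?_)))
  all_goals
    refine exists_congr fun a => exists_congr fun b => ?_
    refine and_congr_right fun hn => ?_
    subst hn
    rw [h a (lt_pr_pr_left (by norm_num) _ _), h b (lt_pr_pr_right (by norm_num) _ _)]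

theorem Def.IsTm0 : Def (fun v _ => Q204.RF.IsTm (v 0)) := by
  refine Def.recursion GTm GTm_loc GTm_iff ?_
  unfold GTm
  infer_instance

instance Def.IsTm (f : (ℕ → ℕ) → ℕ) [DTm f] : Def (fun v _ => Q204.RF.IsTm (f v)) :=
  Def.comp1 (P := Q204.RF.IsTm) Def.IsTm0 f

/-! ### formulas -/

def IsFm (n : ℕ) : Prop := ∃ φ : Fm, φ.code = n

def GFm (Q : ℕ → Prop) (n : ℕ) : Prop :=
  (∃ s t, n = pr 0 (pr s t) ∧ IsTm s ∧ IsTm t) ∨ (∃ s t, n = pr 1 (pr s t) ∧ IsTm s ∧ IsTm t) ∨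
    (∃ s i, n = pr 2 (pr s i) ∧ IsTm s) ∨ (∃ a, n = pr 3 a ∧ Q a) ∨
    (∃ a b, n = pr 4 (pr a b) ∧ Q a ∧ Q b) ∨ (∃ i a, n = pr 5 (pr i a) ∧ Q a) ∨
    ∃ i a, n = pr 6 (pr i a) ∧ Q a

theorem GFm_iff (n : ℕ) : IsFm n ↔ GFm IsFm n := by
  constructor
  · rintro ⟨φ, rfl⟩
    unfold GFm
    cases φ with
    | eq s t => exact Or.inl ⟨_, _, rfl, ⟨s, rfl⟩, ⟨t, rfl⟩⟩
    | lt s t => exact Or.inr (Or.inl ⟨_, _, rfl, ⟨s, rfl⟩, ⟨t, rfl⟩⟩)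
    | mem s i => exact Or.inr (Or.inr (Or.inl ⟨_, _, rfl, ⟨s, rfl⟩⟩))
    | neg φ => exact Or.inr (Or.inr (Or.inr (Or.inl ⟨_, rfl, ⟨φ, rfl⟩⟩)))
    | and φ ψ => exact Or.inr (Or.inr (Or.inr (Or.inr (Or.inl ⟨_, _, rfl, ⟨φ, rfl⟩, ⟨ψ, rfl⟩⟩))))
    | all i φ => exact Or.inr (Or.inr (Or.inr (Or.inr (Or.inr (Or.inl ⟨i, _, rfl, ⟨φ, rfl⟩⟩)))))
    | allS i φ => exact Or.inr (Or.inr (Or.inr (Or.inr (Or.inr (Or.inr ⟨i, _, rfl, ⟨φ, rfl⟩⟩)))))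
  · rintro (⟨_, _, rfl, ⟨s, rfl⟩, ⟨t, rfl⟩⟩ | ⟨_, _, rfl, ⟨s, rfl⟩, ⟨t, rfl⟩⟩ | ⟨_, i, rfl, ⟨s, rfl⟩⟩ |
      ⟨_, rfl, ⟨φ, rfl⟩⟩ | ⟨_, _, rfl, ⟨φ, rfl⟩, ⟨ψ, rfl⟩⟩ | ⟨i, _, rfl, ⟨φ, rfl⟩⟩ |
      ⟨i, _, rfl, ⟨φ, rfl⟩⟩)
    · exact ⟨.eq s t, rfl⟩
    · exact ⟨.lt s t, rfl⟩
    · exact ⟨.mem s i, rfl⟩
    · exact ⟨.neg φ, rfl⟩
    · exact ⟨.and φ ψ, rfl⟩
    · exact ⟨.all i φ, rfl⟩
    · exact ⟨.allS i φ, rfl⟩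

theorem GFm_loc (Q Q' : ℕ → Prop) (n : ℕ) (h : ∀ m < n, (Q m ↔ Q' m)) : GFm Q n ↔ GFm Q' n := by
  unfold GFm
  refine or_congr Iff.rfl (or_congr Iff.rfl (or_congr Iff.rfl (or_congr ?_ (or_congr ?_
    (or_congr ?_ ?_)))))
  · refine exists_congr fun a => and_congr_right fun hn => ?_
    subst hn
    exact h a (lt_pr_right (by norm_num) _)
  · refine exists_congr fun a => exists_congr fun b => and_congr_right fun hn => ?_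
    subst hn
    rw [h a (lt_pr_pr_left (by norm_num) _ _), h b (lt_pr_pr_right (by norm_num) _ _)]
  all_goals
    refine exists_congr fun a => exists_congr fun b => and_congr_right fun hn => ?_
    subst hn
    exact h b (lt_pr_pr_right (by norm_num) _ _)

theorem Def.IsFm0 : Def (fun v _ => Q204.RF.IsFm (v 0)) := by
  refine Def.recursion GFm GFm_loc GFm_iff ?_
  unfold GFm
  infer_instance

instance Def.IsFm (f : (ℕ → ℕ) → ℕ) [DTm f] : Def (fun v _ => Q204.RF.IsFm (f v)) :=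
  Def.comp1 (P := Q204.RF.IsFm) Def.IsFm0 f

/-! ### arithmetical formulas -/

def IsAr (n : ℕ) : Prop := ∃ φ : Fm, φ.Arithmetical ∧ φ.code = n

def GAr (Q : ℕ → Prop) (n : ℕ) : Prop :=
  (∃ s t, n = pr 0 (pr s t) ∧ IsTm s ∧ IsTm t) ∨ (∃ s t, n = pr 1 (pr s t) ∧ IsTm s ∧ IsTm t) ∨
    (∃ s i, n = pr 2 (pr s i) ∧ IsTm s) ∨ (∃ a, n = pr 3 a ∧ Q a) ∨
    (∃ a b, n = pr 4 (pr a b) ∧ Q a ∧ Q b) ∨ (∃ i a, n = pr 5 (pr i a) ∧ Q a)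

theorem GAr_iff (n : ℕ) : IsAr n ↔ GAr IsAr n := by
  constructor
  · rintro ⟨φ, h, rfl⟩
    unfold GAr
    cases φ with
    | eq s t => exact Or.inl ⟨_, _, rfl, ⟨s, rfl⟩, ⟨t, rfl⟩⟩
    | lt s t => exact Or.inr (Or.inl ⟨_, _, rfl, ⟨s, rfl⟩, ⟨t, rfl⟩⟩)
    | mem s i => exact Or.inr (Or.inr (Or.inl ⟨_, _, rfl, ⟨s, rfl⟩⟩))
    | neg φ => exact Or.inr (Or.inr (Or.inr (Or.inl ⟨_, rfl, ⟨φ, h, rfl⟩⟩)))
    | and φ ψ =>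
      exact Or.inr (Or.inr (Or.inr (Or.inr (Or.inl ⟨_, _, rfl, ⟨φ, h.1, rfl⟩, ⟨ψ, h.2, rfl⟩⟩))))
    | all i φ => exact Or.inr (Or.inr (Or.inr (Or.inr (Or.inr ⟨i, _, rfl, ⟨φ, h, rfl⟩⟩))))
    | allS i φ => exact h.elim
  · rintro (⟨_, _, rfl, ⟨s, rfl⟩, ⟨t, rfl⟩⟩ | ⟨_, _, rfl, ⟨s, rfl⟩, ⟨t, rfl⟩⟩ | ⟨_, i, rfl, ⟨s, rfl⟩⟩ |
      ⟨_, rfl, ⟨φ, h, rfl⟩⟩ | ⟨_, _, rfl, ⟨φ, h, rfl⟩, ⟨ψ, h', rfl⟩⟩ | ⟨i, _, rfl, ⟨φ, h, rfl⟩⟩)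
    · exact ⟨.eq s t, trivial, rfl⟩
    · exact ⟨.lt s t, trivial, rfl⟩
    · exact ⟨.mem s i, trivial, rfl⟩
    · exact ⟨.neg φ, h, rfl⟩
    · exact ⟨.and φ ψ, ⟨h, h'⟩, rfl⟩
    · exact ⟨.all i φ, h, rfl⟩

theorem GAr_loc (Q Q' : ℕ → Prop) (n : ℕ) (h : ∀ m < n, (Q m ↔ Q' m)) : GAr Q n ↔ GAr Q' n := by
  unfold GAr
  refine or_congr Iff.rfl (or_congr Iff.rfl (or_congr Iff.rfl (or_congr ?_ (or_congr ?_ ?_))))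
  · refine exists_congr fun a => and_congr_right fun hn => ?_
    subst hn
    exact h a (lt_pr_right (by norm_num) _)
  · refine exists_congr fun a => exists_congr fun b => and_congr_right fun hn => ?_
    subst hn
    rw [h a (lt_pr_pr_left (by norm_num) _ _), h b (lt_pr_pr_right (by norm_num) _ _)]
  all_goals
    refine exists_congr fun a => exists_congr fun b => and_congr_right fun hn => ?_
    subst hn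
    exact h b (lt_pr_pr_right (by norm_num) _ _)

theorem Def.IsAr0 : Def (fun v _ => Q204.RF.IsAr (v 0)) := by
  refine Def.recursion GAr GAr_loc GAr_iff ?_
  unfold GAr
  infer_instance

instance Def.IsAr (f : (ℕ → ℕ) → ℕ) [DTm f] : Def (fun v _ => Q204.RF.IsAr (f v)) :=
  Def.comp1 (P := Q204.RF.IsAr) Def.IsAr0 f

/-! ### free variables of terms -/

def FvT (s i : ℕ) : Prop := ∃ t : Tm, t.code = s ∧ i ∈ t.fv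

def PFvT (n : ℕ) : Prop := ∃ s i, n = pr s i ∧ FvT s i

def GFvT (Q : ℕ → Prop) (n : ℕ) : Prop :=
  ∃ s i, n = pr s i ∧ (s = pr 0 i ∨
    (∃ a b, s = pr 3 (pr a b) ∧ ((Q (pr a i) ∧ IsTm b) ∨ (Q (pr b i) ∧ IsTm a))) ∨
    ∃ a b, s = pr 4 (pr a b) ∧ ((Q (pr a i) ∧ IsTm b) ∨ (Q (pr b i) ∧ IsTm a)))

theorem PFvT_pr (s i : ℕ) : PFvT (pr s i) ↔ FvT s i := by
  constructor
  · rintro ⟨s', i', h, h'⟩
    obtain ⟨rfl, rfl⟩ := pr_inj h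
    exact h'
  · intro h
    exact ⟨s, i, rfl, h⟩

theorem GFvT_iff (n : ℕ) : PFvT n ↔ GFvT PFvT n := by
  unfold GFvT
  simp only [PFvT_pr]
  constructor
  · rintro ⟨s, i, rfl, t, rfl, h⟩
    refine ⟨_, i, rfl, ?_⟩
    cases t with
    | var j => have : i = j := h; subst this; exact Or.inl rfl
    | zero => exact h.elim
    | one => exact h.elim
    | add s t =>
      refine Or.inr (Or.inl ⟨_, _, rfl, ?_⟩)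
      rcases h with h | h
      · exact Or.inl ⟨⟨s, rfl, h⟩, ⟨t, rfl⟩⟩
      · exact Or.inr ⟨⟨t, rfl, h⟩, ⟨s, rfl⟩⟩
    | mul s t =>
      refine Or.inr (Or.inr ⟨_, _, rfl, ?_⟩)
      rcases h with h | h
      · exact Or.inl ⟨⟨s, rfl, h⟩, ⟨t, rfl⟩⟩
      · exact Or.inr ⟨⟨t, rfl, h⟩, ⟨s, rfl⟩⟩
  · rintro ⟨s, i, rfl, h⟩
    refine ⟨s, i, rfl, ?_⟩
    rcases h with rfl | ⟨_, _, rfl, ⟨⟨s, rfl, h⟩, ⟨t, rfl⟩⟩ | ⟨⟨t, rfl, h⟩, ⟨s, rfl⟩⟩⟩ |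
      ⟨_, _, rfl, ⟨⟨s, rfl, h⟩, ⟨t, rfl⟩⟩ | ⟨⟨t, rfl, h⟩, ⟨s, rfl⟩⟩⟩
    · exact ⟨.var i, rfl, rfl⟩
    · exact ⟨.add s t, rfl, Or.inl h⟩
    · exact ⟨.add s t, rfl, Or.inr h⟩
    · exact ⟨.mul s t, rfl, Or.inl h⟩
    · exact ⟨.mul s t, rfl, Or.inr h⟩

theorem GFvT_loc (Q Q' : ℕ → Prop) (n : ℕ) (h : ∀ m < n, (Q m ↔ Q' m)) : GFvT Q n ↔ GFvT Q' n := by
  unfold GFvT
  refine exists_congr fun s => exists_congr fun i => and_congr_right fun hn => ?_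
  subst hn
  refine or_congr Iff.rfl (or_congr ?_ ?_)
  all_goals
    refine exists_congr fun a => exists_congr fun b => and_congr_right fun hs => ?_
    subst hs
    rw [h _ (pr_lt_pr_left (lt_pr_pr_left (by norm_num) a b) i),
      h _ (pr_lt_pr_left (lt_pr_pr_right (by norm_num) a b) i)]

theorem Def.PFvT0 : Def (fun v _ => Q204.RF.PFvT (v 0)) := by
  refine Def.recursion GFvT GFvT_loc GFvT_iff ?_
  unfold GFvT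
  infer_instance

instance Def.FvT (f g : (ℕ → ℕ) → ℕ) [DTm f] [DTm g] :
    Def (fun v _ => Q204.RF.FvT (f v) (g v)) :=
  (Def.comp1 (P := Q204.RF.PFvT) Def.PFvT0 (fun v => pr (f v) (g v))).congr
    fun _ _ => (PFvT_pr _ _).symm

/-! ### free number variables of formulas -/

def FvN (s i : ℕ) : Prop := ∃ φ : Fm, φ.code = s ∧ i ∈ φ.fvN

def PFvN (n : ℕ) : Prop := ∃ s i, n = pr s i ∧ FvN s i

def GFvN (Q : ℕ → Prop) (n : ℕ) : Prop :=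
  ∃ s i, n = pr s i ∧
    ((∃ a b, s = pr 0 (pr a b) ∧ ((FvT a i ∧ IsTm b) ∨ (FvT b i ∧ IsTm a))) ∨
    (∃ a b, s = pr 1 (pr a b) ∧ ((FvT a i ∧ IsTm b) ∨ (FvT b i ∧ IsTm a))) ∨
    (∃ a j, s = pr 2 (pr a j) ∧ FvT a i) ∨
    (∃ a, s = pr 3 a ∧ Q (pr a i)) ∨
    (∃ a b, s = pr 4 (pr a b) ∧ ((Q (pr a i) ∧ IsFm b) ∨ (Q (pr b i) ∧ IsFm a))) ∨
    (∃ j a, s = pr 5 (pr j a) ∧ Q (pr a i) ∧ i ≠ j) ∨
    ∃ j a, s = pr 6 (pr j a) ∧ Q (pr a i))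

theorem PFvN_pr (s i : ℕ) : PFvN (pr s i) ↔ FvN s i := by
  constructor
  · rintro ⟨s', i', h, h'⟩
    obtain ⟨rfl, rfl⟩ := pr_inj h
    exact h'
  · intro h
    exact ⟨s, i, rfl, h⟩

theorem GFvN_iff (n : ℕ) : PFvN n ↔ GFvN PFvN n := by
  unfold GFvN
  simp only [PFvN_pr]
  constructor
  · rintro ⟨s, i, rfl, φ, rfl, h⟩
    refine ⟨_, i, rfl, ?_⟩
    cases φ with
    | eq s t =>
      refine Or.inl ⟨_, _, rfl, ?_⟩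
      rcases h with h | h
      · exact Or.inl ⟨⟨s, rfl, h⟩, ⟨t, rfl⟩⟩
      · exact Or.inr ⟨⟨t, rfl, h⟩, ⟨s, rfl⟩⟩
    | lt s t =>
      refine Or.inr (Or.inl ⟨_, _, rfl, ?_⟩)
      rcases h with h | h
      · exact Or.inl ⟨⟨s, rfl, h⟩, ⟨t, rfl⟩⟩
      · exact Or.inr ⟨⟨t, rfl, h⟩, ⟨s, rfl⟩⟩
    | mem t j => exact Or.inr (Or.inr (Or.inl ⟨_, _, rfl, ⟨t, rfl, h⟩⟩))
    | neg φ => exact Or.inr (Or.inr (Or.inr (Or.inl ⟨_, rfl, ⟨φ, rfl, h⟩⟩)))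
    | and φ ψ =>
      refine Or.inr (Or.inr (Or.inr (Or.inr (Or.inl ⟨_, _, rfl, ?_⟩))))
      rcases h with h | h
      · exact Or.inl ⟨⟨φ, rfl, h⟩, ⟨ψ, rfl⟩⟩
      · exact Or.inr ⟨⟨ψ, rfl, h⟩, ⟨φ, rfl⟩⟩
    | all j φ =>
      exact Or.inr (Or.inr (Or.inr (Or.inr (Or.inr (Or.inl ⟨j, _, rfl, ⟨φ, rfl, h.1⟩, h.2⟩)))))
    | allS j φ => exact Or.inr (Or.inr (Or.inr (Or.inr (Or.inr (Or.inr ⟨j, _, rfl, ⟨φ, rfl, h⟩⟩)))))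
  · rintro ⟨s, i, rfl, h⟩
    refine ⟨s, i, rfl, ?_⟩
    rcases h with ⟨_, _, rfl, ⟨⟨s, rfl, h⟩, ⟨t, rfl⟩⟩ | ⟨⟨t, rfl, h⟩, ⟨s, rfl⟩⟩⟩ |
      ⟨_, _, rfl, ⟨⟨s, rfl, h⟩, ⟨t, rfl⟩⟩ | ⟨⟨t, rfl, h⟩, ⟨s, rfl⟩⟩⟩ | ⟨_, j, rfl, ⟨t, rfl, h⟩⟩ |
      ⟨_, rfl, ⟨φ, rfl, h⟩⟩ |
      ⟨_, _, rfl, ⟨⟨φ, rfl, h⟩, ⟨ψ, rfl⟩⟩ | ⟨⟨ψ, rfl, h⟩, ⟨φ, rfl⟩⟩⟩ |
      ⟨j, _, rfl, ⟨φ, rfl, h⟩, h'⟩ | ⟨j, _, rfl, ⟨φ, rfl, h⟩⟩
    · exact ⟨.eq s t, rfl, Or.inl h⟩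
    · exact ⟨.eq s t, rfl, Or.inr h⟩
    · exact ⟨.lt s t, rfl, Or.inl h⟩
    · exact ⟨.lt s t, rfl, Or.inr h⟩
    · exact ⟨.mem t j, rfl, h⟩
    · exact ⟨.neg φ, rfl, h⟩
    · exact ⟨.and φ ψ, rfl, Or.inl h⟩
    · exact ⟨.and φ ψ, rfl, Or.inr h⟩
    · exact ⟨.all j φ, rfl, h, h'⟩
    · exact ⟨.allS j φ, rfl, h⟩

theorem GFvN_loc (Q Q' : ℕ → Prop) (n : ℕ) (h : ∀ m < n, (Q m ↔ Q' m)) : GFvN Q n ↔ GFvN Q' n := by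
  unfold GFvN
  refine exists_congr fun s => exists_congr fun i => and_congr_right fun hn => ?_
  subst hn
  refine or_congr Iff.rfl (or_congr Iff.rfl (or_congr Iff.rfl (or_congr ?_ (or_congr ?_
    (or_congr ?_ ?_)))))
  · refine exists_congr fun a => and_congr_right fun hs => ?_
    subst hs
    exact h _ (pr_lt_pr_left (lt_pr_right (by norm_num) a) i)
  · refine exists_congr fun a => exists_congr fun b => and_congr_right fun hs => ?_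
    subst hs
    rw [h _ (pr_lt_pr_left (lt_pr_pr_left (by norm_num) a b) i),
      h _ (pr_lt_pr_left (lt_pr_pr_right (by norm_num) a b) i)]
  all_goals
    refine exists_congr fun a => exists_congr fun b => and_congr_right fun hs => ?_
    subst hs
    rw [h _ (pr_lt_pr_left (lt_pr_pr_right (by norm_num) a b) i)]

theorem Def.PFvN0 : Def (fun v _ => Q204.RF.PFvN (v 0)) := by
  refine Def.recursion GFvN GFvN_loc GFvN_iff ?_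
  unfold GFvN
  infer_instance

instance Def.FvN (f g : (ℕ → ℕ) → ℕ) [DTm f] [DTm g] :
    Def (fun v _ => Q204.RF.FvN (f v) (g v)) :=
  (Def.comp1 (P := Q204.RF.PFvN) Def.PFvN0 (fun v => pr (f v) (g v))).congr
    fun _ _ => (PFvN_pr _ _).symm

/-! ### free set variables of formulas -/

def FvS (s i : ℕ) : Prop := ∃ φ : Fm, φ.code = s ∧ i ∈ φ.fvS

def PFvS (n : ℕ) : Prop := ∃ s i, n = pr s i ∧ FvS s i

def GFvS (Q : ℕ → Prop) (n : ℕ) : Prop :=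
  ∃ s i, n = pr s i ∧
    ((∃ a, s = pr 2 (pr a i) ∧ IsTm a) ∨
    (∃ a, s = pr 3 a ∧ Q (pr a i)) ∨
    (∃ a b, s = pr 4 (pr a b) ∧ ((Q (pr a i) ∧ IsFm b) ∨ (Q (pr b i) ∧ IsFm a))) ∨
    (∃ j a, s = pr 5 (pr j a) ∧ Q (pr a i)) ∨
    ∃ j a, s = pr 6 (pr j a) ∧ Q (pr a i) ∧ i ≠ j)

theorem PFvS_pr (s i : ℕ) : PFvS (pr s i) ↔ FvS s i := by
  constructor
  · rintro ⟨s', i', h, h'⟩
    obtain ⟨rfl, rfl⟩ := pr_inj h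
    exact h'
  · intro h
    exact ⟨s, i, rfl, h⟩

theorem GFvS_iff (n : ℕ) : PFvS n ↔ GFvS PFvS n := by
  unfold GFvS
  simp only [PFvS_pr]
  constructor
  · rintro ⟨s, i, rfl, φ, rfl, h⟩
    refine ⟨_, i, rfl, ?_⟩
    cases φ with
    | eq s t => exact h.elim
    | lt s t => exact h.elim
    | mem t j => have : i = j := h; subst this; exact Or.inl ⟨_, rfl, ⟨t, rfl⟩⟩
    | neg φ => exact Or.inr (Or.inl ⟨_, rfl, ⟨φ, rfl, h⟩⟩)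
    | and φ ψ =>
      refine Or.inr (Or.inr (Or.inl ⟨_, _, rfl, ?_⟩))
      rcases h with h | h
      · exact Or.inl ⟨⟨φ, rfl, h⟩, ⟨ψ, rfl⟩⟩
      · exact Or.inr ⟨⟨ψ, rfl, h⟩, ⟨φ, rfl⟩⟩
    | all j φ => exact Or.inr (Or.inr (Or.inr (Or.inl ⟨j, _, rfl, ⟨φ, rfl, h⟩⟩)))
    | allS j φ => exact Or.inr (Or.inr (Or.inr (Or.inr ⟨j, _, rfl, ⟨φ, rfl, h.1⟩, h.2⟩)))
  · rintro ⟨s, i, rfl, h⟩
    refine ⟨s, i, rfl, ?_⟩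
    rcases h with ⟨_, rfl, ⟨t, rfl⟩⟩ |
      ⟨_, rfl, ⟨φ, rfl, h⟩⟩ |
      ⟨_, _, rfl, ⟨⟨φ, rfl, h⟩, ⟨ψ, rfl⟩⟩ | ⟨⟨ψ, rfl, h⟩, ⟨φ, rfl⟩⟩⟩ |
      ⟨j, _, rfl, ⟨φ, rfl, h⟩⟩ | ⟨j, _, rfl, ⟨φ, rfl, h⟩, h'⟩
    · exact ⟨.mem t i, rfl, rfl⟩
    · exact ⟨.neg φ, rfl, h⟩
    · exact ⟨.and φ ψ, rfl, Or.inl h⟩
    · exact ⟨.and φ ψ, rfl, Or.inr h⟩
    · exact ⟨.all j φ, rfl, h⟩
    · exact ⟨.allS j φ, rfl, h, h'⟩

theorem GFvS_loc (Q Q' : ℕ → Prop) (n : ℕ) (h : ∀ m < n, (Q m ↔ Q' m)) : GFvS Q n ↔ GFvS Q' n := by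
  unfold GFvS
  refine exists_congr fun s => exists_congr fun i => and_congr_right fun hn => ?_
  subst hn
  refine or_congr Iff.rfl (or_congr ?_ (or_congr ?_ (or_congr ?_ ?_)))
  · refine exists_congr fun a => and_congr_right fun hs => ?_
    subst hs
    exact h _ (pr_lt_pr_left (lt_pr_right (by norm_num) a) i)
  · refine exists_congr fun a => exists_congr fun b => and_congr_right fun hs => ?_
    subst hs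
    rw [h _ (pr_lt_pr_left (lt_pr_pr_left (by norm_num) a b) i),
      h _ (pr_lt_pr_left (lt_pr_pr_right (by norm_num) a b) i)]
  all_goals
    refine exists_congr fun a => exists_congr fun b => and_congr_right fun hs => ?_
    subst hs
    rw [h _ (pr_lt_pr_left (lt_pr_pr_right (by norm_num) a b) i)]

theorem Def.PFvS0 : Def (fun v _ => Q204.RF.PFvS (v 0)) := by
  refine Def.recursion GFvS GFvS_loc GFvS_iff ?_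
  unfold GFvS
  infer_instance

instance Def.FvS (f g : (ℕ → ℕ) → ℕ) [DTm f] [DTm g] :
    Def (fun v _ => Q204.RF.FvS (f v) (g v)) :=
  (Def.comp1 (P := Q204.RF.PFvS) Def.PFvS0 (fun v => pr (f v) (g v))).congr
    fun _ _ => (PFvS_pr _ _).symm

end Q204.RF
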