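import Pool.Agent.H986R3.SOABasic

set_option autoImplicit false

/-!
Definability in the standard model by arithmetical formulas, with a calculus of instances.
The number variables are used in de Bruijn style.
-/

namespace Q204.RF

open Pool.Agent.H986R3.SOA Function

/-- value of a term in the natural numbers -/
def evT (v : ℕ → ℕ) : Tm → ℕ
  | .var i => v i
  | .zero => 0
  | .one => 1
  | .add s t => evT v s + evT v t
  | .mul s t => evT v s * evT v t

/-- satisfaction in the standard model -/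
def evF : (ℕ → ℕ) → (ℕ → Set ℕ) → Fm → Prop
  | v, _, .eq s t => evT v s = evT v t
  | v, _, .lt s t => evT v s < evT v t
  | v, V, .mem t i => evT v t ∈ V i
  | v, V, .neg φ => ¬ evF v V φ
  | v, V, .and φ ψ => evF v V φ ∧ evF v V ψ
  | v, V, .all i φ => ∀ a : ℕ, evF (update v i a) V φ
  | v, V, .allS i φ => ∀ A : Set ℕ, evF v (update V i A) φ

theorem evT_std (v : ℕ → ℕ) (t : Tm) : @Eq ℕ (t.val std v) (evT v t) := by
  induction t with
  | var i => rfl
  | zero => rfl
  | one => rfl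
  | add s t hs ht => exact congrArg₂ (fun a b : ℕ => a + b) hs ht
  | mul s t hs ht => exact congrArg₂ (fun a b : ℕ => a * b) hs ht

theorem evF_std (φ : Fm) : ∀ (v : ℕ → ℕ) (V : ℕ → Set ℕ), Sat std v V φ ↔ evF v V φ := by
  induction φ with
  | eq s t =>
    intro v V
    have h1 := evT_std v s
    have h2 := evT_std v t
    show (@Eq ℕ (s.val std v) (t.val std v)) ↔ evT v s = evT v t
    exact Iff.of_eq (congrArg₂ (fun a b : ℕ => a = b) h1 h2)
  | lt s t =>
    intro v V
    exact Iff.of_eq (congrArg₂ (fun a b : ℕ => a < b) (evT_std v s) (evT_std v t))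
  | mem t i =>
    intro v V
    exact Iff.of_eq (congrArg (fun a : ℕ => a ∈ V i) (evT_std v t))
  | neg φ ih => intro v V; exact not_congr (ih v V)
  | and φ ψ ih1 ih2 => intro v V; exact and_congr (ih1 v V) (ih2 v V)
  | all i φ ih => intro v V; exact forall_congr' fun a => ih _ _
  | allS i φ ih =>
    intro v V
    exact ⟨fun h A => (ih _ _).1 (h A trivial), fun h A _ => (ih _ _).2 (h A)⟩

/-- `f` is given by a term. -/
class DTm (f : (ℕ → ℕ) → ℕ) : Prop where
  out : ∃ t : Tm, ∀ v : ℕ → ℕ, evT v t = f v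

/-- `R` is given by an arithmetical formula in the standard model. -/
class Def (R : (ℕ → ℕ) → Set ℕ → Prop) : Prop where
  out : ∃ φ : Fm, φ.Arithmetical ∧ ∀ (v : ℕ → ℕ) (V : ℕ → Set ℕ), evF v V φ ↔ R v (V 0)

/-! ### terms -/

theorem evT_numeral (v : ℕ → ℕ) (n : ℕ) : evT v (numeral n) = n := by
  induction n with
  | zero => rfl
  | succ n ih => simp only [numeral, evT, ih]

instance DTm.var (n : ℕ) : DTm (fun v => v n) := ⟨⟨.var n, fun _ => rfl⟩⟩

instance DTm.const (n : ℕ) : DTm (fun _ => n) :=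
  ⟨⟨numeral n, fun v => evT_numeral v n⟩⟩

instance DTm.add (f g : (ℕ → ℕ) → ℕ) [hf : DTm f] [hg : DTm g] : DTm (fun v => f v + g v) := by
  obtain ⟨s, hs⟩ := hf.out
  obtain ⟨t, ht⟩ := hg.out
  exact ⟨⟨.add s t, fun v => by simp only [evT, hs, ht]⟩⟩

instance DTm.mul (f g : (ℕ → ℕ) → ℕ) [hf : DTm f] [hg : DTm g] : DTm (fun v => f v * g v) := by
  obtain ⟨s, hs⟩ := hf.out
  obtain ⟨t, ht⟩ := hg.out
  exact ⟨⟨.mul s t, fun v => by simp only [evT, hs, ht]⟩⟩

instance DTm.pr (f g : (ℕ → ℕ) → ℕ) [hf : DTm f] [hg : DTm g] :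
    DTm (fun v => Pool.Agent.H986R3.SOA.pr (f v) (g v)) := by
  unfold Pool.Agent.H986R3.SOA.pr
  infer_instance

/-- renaming of the variables of a term -/
def renT (ρ : ℕ → ℕ) : Tm → Tm
  | .var i => .var (ρ i)
  | .zero => .zero
  | .one => .one
  | .add s t => .add (renT ρ s) (renT ρ t)
  | .mul s t => .mul (renT ρ s) (renT ρ t)

theorem evT_renT (ρ : ℕ → ℕ) (t : Tm) (v : ℕ → ℕ) :
    evT v (renT ρ t) = evT (fun i => v (ρ i)) t := by
  induction t with
  | var i => rfl
  | zero => rfl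
  | one => rfl
  | add s t hs ht => simp only [renT, evT, hs, ht]
  | mul s t hs ht => simp only [renT, evT, hs, ht]

instance DTm.shift (f : (ℕ → ℕ) → ℕ) [hf : DTm f] : DTm (fun w => f (fun i => w (i + 1))) := by
  obtain ⟨t, ht⟩ := hf.out
  exact ⟨⟨renT (· + 1) t, fun v => by rw [evT_renT]; exact ht _⟩⟩

/-! ### formulas -/

/-- renaming of all number variables of a formula -/
def ren (ρ : ℕ → ℕ) : Fm → Fm
  | .eq s t => .eq (renT ρ s) (renT ρ t)
  | .lt s t => .lt (renT ρ s) (renT ρ t)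
  | .mem t j => .mem (renT ρ t) j
  | .neg φ => .neg (ren ρ φ)
  | .and φ ψ => .and (ren ρ φ) (ren ρ ψ)
  | .all i φ => .all (ρ i) (ren ρ φ)
  | .allS i φ => .allS i (ren ρ φ)

theorem ren_arith (ρ : ℕ → ℕ) : ∀ φ : Fm, φ.Arithmetical → (ren ρ φ).Arithmetical
  | .eq _ _, _ => trivial
  | .lt _ _, _ => trivial
  | .mem _ _, _ => trivial
  | .neg φ, h => ren_arith ρ φ h
  | .and φ ψ, h => ⟨ren_arith ρ φ h.1, ren_arith ρ ψ h.2⟩
  | .all _ φ, h => ren_arith ρ φ h
  | .allS _ _, h => h.elim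

theorem evT_congr_bd (t : Tm) (v v' : ℕ → ℕ) (h : ∀ i < t.bd, v i = v' i) :
    evT v t = evT v' t := by
  induction t with
  | var i => exact h i (Nat.lt_succ_self i)
  | zero => rfl
  | one => rfl
  | add s t hs ht =>
    simp only [evT, Tm.bd] at *
    rw [hs (fun i hi => h i (lt_of_lt_of_le hi (le_max_left _ _))),
      ht (fun i hi => h i (lt_of_lt_of_le hi (le_max_right _ _)))]
  | mul s t hs ht =>
    simp only [evT, Tm.bd] at *
    rw [hs (fun i hi => h i (lt_of_lt_of_le hi (le_max_left _ _))),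
      ht (fun i hi => h i (lt_of_lt_of_le hi (le_max_right _ _)))]

theorem evF_congr_bd (φ : Fm) : ∀ (v v' : ℕ → ℕ) (V : ℕ → Set ℕ),
    (∀ i < φ.bd, v i = v' i) → (evF v V φ ↔ evF v' V φ) := by
  induction φ with
  | eq s t =>
    intro v v' V h
    simp only [evF]
    rw [evT_congr_bd s v v' (fun i hi => h i (lt_of_lt_of_le hi (le_max_left _ _))),
      evT_congr_bd t v v' (fun i hi => h i (lt_of_lt_of_le hi (le_max_right _ _)))]
  | lt s t =>
    intro v v' V h
    simp only [evF]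
    rw [evT_congr_bd s v v' (fun i hi => h i (lt_of_lt_of_le hi (le_max_left _ _))),
      evT_congr_bd t v v' (fun i hi => h i (lt_of_lt_of_le hi (le_max_right _ _)))]
  | mem t i =>
    intro v v' V h
    simp only [evF]
    rw [evT_congr_bd t v v' (fun i hi => h i hi)]
  | neg φ ih =>
    intro v v' V h
    simp only [evF]
    rw [ih v v' V h]
  | and φ ψ ih1 ih2 =>
    intro v v' V h
    simp only [evF]
    rw [ih1 v v' V (fun i hi => h i (lt_of_lt_of_le hi (le_max_left _ _))),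
      ih2 v v' V (fun i hi => h i (lt_of_lt_of_le hi (le_max_right _ _)))]
  | all i φ ih =>
    intro v v' V h
    simp only [evF]
    refine forall_congr' fun a => ih _ _ _ (fun j hj => ?_)
    by_cases hji : j = i
    · subst hji; simp
    · rw [update_of_ne hji, update_of_ne hji]
      exact h j (lt_of_lt_of_le hj (le_max_right _ _))
  | allS i φ ih =>
    intro v v' V h
    simp only [evF]
    exact forall_congr' fun A => ih _ _ _ h

/-- Renaming by a map that is injective on the variables that occur. -/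
theorem evF_ren (ρ : ℕ → ℕ) (N : ℕ) (hρ : ∀ i < N, ∀ j < N, ρ i = ρ j → i = j)
    (φ : Fm) : φ.bd ≤ N → ∀ (v : ℕ → ℕ) (V : ℕ → Set ℕ),
      evF v V (ren ρ φ) ↔ evF (fun i => v (ρ i)) V φ := by
  induction φ with
  | eq s t => intro _ v V; simp only [ren, evF, evT_renT]
  | lt s t => intro _ v V; simp only [ren, evF, evT_renT]
  | mem t i => intro _ v V; simp only [ren, evF, evT_renT]
  | neg φ ih => intro h v V; simp only [ren, evF]; rw [ih h]
  | and φ ψ ih1 ih2 =>
    intro h v V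
    simp only [ren, evF]
    rw [ih1 ((le_max_left _ _).trans h), ih2 ((le_max_right _ _).trans h)]
  | all i φ ih =>
    intro h v V
    simp only [ren, evF]
    refine forall_congr' fun a => ?_
    have hi : i < N := lt_of_lt_of_le (Nat.lt_succ_self i) ((le_max_left _ _).trans h)
    have hφ : φ.bd ≤ N := (le_max_right _ _).trans h
    rw [ih hφ]
    refine evF_congr_bd φ _ _ V fun j hj => ?_
    by_cases hji : j = i
    · subst hji; simp
    · rw [update_of_ne hji, update_of_ne]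
      intro he
      exact hji (hρ j (lt_of_lt_of_le hj hφ) i hi he)
  | allS i φ ih =>
    intro h v V
    simp only [ren, evF]
    exact forall_congr' fun A => ih h _ _

instance Def.eq (f g : (ℕ → ℕ) → ℕ) [hf : DTm f] [hg : DTm g] : Def (fun v _ => f v = g v) := by
  obtain ⟨s, hs⟩ := hf.out
  obtain ⟨t, ht⟩ := hg.out
  exact ⟨⟨.eq s t, trivial, fun v V => by simp only [evF, hs, ht]⟩⟩

instance Def.lt (f g : (ℕ → ℕ) → ℕ) [hf : DTm f] [hg : DTm g] : Def (fun v _ => f v < g v) := by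
  obtain ⟨s, hs⟩ := hf.out
  obtain ⟨t, ht⟩ := hg.out
  exact ⟨⟨.lt s t, trivial, fun v V => by simp only [evF, hs, ht]⟩⟩

instance Def.mem (f : (ℕ → ℕ) → ℕ) [hf : DTm f] : Def (fun v Z => f v ∈ Z) := by
  obtain ⟨s, hs⟩ := hf.out
  exact ⟨⟨.mem s 0, trivial, fun v V => by simp only [evF, hs]⟩⟩

instance Def.not (R : (ℕ → ℕ) → Set ℕ → Prop) [h : Def R] : Def (fun v Z => ¬ R v Z) := by
  obtain ⟨φ, h1, h2⟩ := h.out
  exact ⟨⟨.neg φ, h1, fun v V => by simp only [evF, h2]⟩⟩

instance Def.and (R S : (ℕ → ℕ) → Set ℕ → Prop) [h : Def R] [h' : Def S] :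
    Def (fun v Z => R v Z ∧ S v Z) := by
  obtain ⟨φ, h1, h2⟩ := h.out
  obtain ⟨ψ, h3, h4⟩ := h'.out
  exact ⟨⟨.and φ ψ, ⟨h1, h3⟩, fun v V => by simp only [evF, h2, h4]⟩⟩

theorem Def.congr {R S : (ℕ → ℕ) → Set ℕ → Prop} (h : Def R) (hRS : ∀ v Z, S v Z ↔ R v Z) :
    Def S := by
  obtain ⟨φ, h1, h2⟩ := h.out
  exact ⟨⟨φ, h1, fun v V => (h2 v V).trans (hRS v (V 0)).symm⟩⟩

instance Def.or (R S : (ℕ → ℕ) → Set ℕ → Prop) [h : Def R] [h' : Def S] :
    Def (fun v Z => R v Z ∨ S v Z) := by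
  have : Def (fun v Z => ¬ (¬ R v Z ∧ ¬ S v Z)) := inferInstance
  exact this.congr fun v Z => by tauto

instance Def.imp (R S : (ℕ → ℕ) → Set ℕ → Prop) [h : Def R] [h' : Def S] :
    Def (fun v Z => R v Z → S v Z) := by
  have : Def (fun v Z => ¬ (R v Z ∧ ¬ S v Z)) := inferInstance
  exact this.congr fun v Z => by tauto

instance Def.iff (R S : (ℕ → ℕ) → Set ℕ → Prop) [h : Def R] [h' : Def S] :
    Def (fun v Z => (R v Z ↔ S v Z)) := by
  have : Def (fun v Z => (R v Z → S v Z) ∧ (S v Z → R v Z)) := inferInstance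
  exact this.congr fun v Z => by tauto

instance Def.all (R : (ℕ → ℕ) → Set ℕ → ℕ → Prop)
    [h : Def (fun w Z => R (fun i => w (i + 1)) Z (w 0))] : Def (fun v Z => ∀ a, R v Z a) := by
  obtain ⟨φ, h1, h2⟩ := h.out
  let x := φ.bd + 1
  let ρ : ℕ → ℕ := fun i => if i = 0 then x else i - 1
  refine ⟨⟨.all x (ren ρ φ), ren_arith ρ φ h1, fun v V => ?_⟩⟩
  simp only [evF]
  refine forall_congr' fun a => ?_
  rw [evF_ren ρ φ.bd (fun i hi j hj hij => ?_) φ le_rfl]
  · have h3 : evF (fun i => update v x a (ρ i)) V φ ↔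
        evF (fun i => if i = 0 then a else v (i - 1)) V φ := by
      refine evF_congr_bd φ _ _ V fun i hi => ?_
      by_cases h0 : i = 0
      · subst h0; simp [ρ]
      · simp only [ρ, if_neg h0]
        rw [update_of_ne]
        omega
    rw [h3, h2]
    simp
  · simp only [ρ, x] at hij
    split_ifs at hij <;> omega

instance Def.ex (R : (ℕ → ℕ) → Set ℕ → ℕ → Prop)
    [h : Def (fun w Z => R (fun i => w (i + 1)) Z (w 0))] : Def (fun v Z => ∃ a, R v Z a) := by
  have h' : Def (fun w Z => ¬ R (fun i => w (i + 1)) Z (w 0)) := Def.not _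
  have : Def (fun v Z => ¬ ∀ a, ¬ R v Z a) := @Def.not _ (@Def.all (fun v Z a => ¬ R v Z a) h')
  exact this.congr fun v Z => by push Not; rfl

instance Def.le (f g : (ℕ → ℕ) → ℕ) [hf : DTm f] [hg : DTm g] : Def (fun v _ => f v ≤ g v) := by
  have : Def (fun v _ => ¬ (g v < f v)) := inferInstance
  exact this.congr fun v Z => by omega

instance Def.ne (f g : (ℕ → ℕ) → ℕ) [hf : DTm f] [hg : DTm g] : Def (fun v _ => f v ≠ g v) :=
  Def.not _

instance Def.tt : Def (fun _ _ => True) := by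
  have : Def (fun _ _ => (0 : ℕ) = 0) := inferInstance
  exact this.congr fun v Z => by simp

instance Def.ff : Def (fun _ _ => False) := by
  have : Def (fun _ _ => (0 : ℕ) = 1) := inferInstance
  exact this.congr fun v Z => by simp

/-- substitution of a term for the variable of a unary relation -/
theorem Def.comp1 {P : ℕ → Prop} (h : Def (fun v _ => P (v 0))) (f : (ℕ → ℕ) → ℕ) [DTm f] :
    Def (fun v _ => P (f v)) := by
  have : Def (fun v _ => ∃ a, a = f v ∧ P a) := inferInstance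
  exact this.congr fun v Z => by simp

theorem DTm.rename (f : (ℕ → ℕ) → ℕ) [hf : DTm f] (ρ : ℕ → ℕ) :
    DTm (fun w => f (fun i => w (ρ i))) := by
  obtain ⟨t, ht⟩ := hf.out
  exact ⟨⟨renT ρ t, fun v => by rw [evT_renT]; exact ht _⟩⟩

theorem Def.comp2 {P : ℕ → ℕ → Prop} (h : Def (fun v _ => P (v 1) (v 0))) (f g : (ℕ → ℕ) → ℕ)
    [DTm f] [DTm g] : Def (fun v _ => P (f v) (g v)) := by
  have hg : DTm (fun w => g (fun i => w (i + 2))) := DTm.rename g _
  have h1 : Def (fun v _ => v 0 = g (fun i => v (i + 2)) ∧ P (v 1) (v 0)) := inferInstance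
  have h2 : Def (fun v _ => ∃ b, b = g (fun i => v (i + 1)) ∧ P (v 0) b) :=
    @Def.ex (fun v _ b => b = g (fun i => v (i + 1)) ∧ P (v 0) b) h1
  have h3 : Def (fun v _ => v 0 = f (fun i => v (i + 1)) ∧
      ∃ b, b = g (fun i => v (i + 1)) ∧ P (v 0) b) := Def.and _ _
  have h4 : Def (fun v _ => ∃ a, a = f v ∧ ∃ b, b = g v ∧ P a b) :=
    @Def.ex (fun v _ a => a = f v ∧ ∃ b, b = g v ∧ P a b) h3
  exact h4.congr fun v Z => by simp

theorem Def.comp3 {P : ℕ → ℕ → ℕ → Prop} (h : Def (fun v _ => P (v 2) (v 1) (v 0)))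
    (f g k : (ℕ → ℕ) → ℕ) [DTm f] [DTm g] [DTm k] : Def (fun v _ => P (f v) (g v) (k v)) := by
  have hg : DTm (fun w => g (fun i => w (i + 2))) := DTm.rename g _
  have hk : DTm (fun w => k (fun i => w (i + 3))) := DTm.rename k _
  have h0 : Def (fun v _ => v 0 = k (fun i => v (i + 3)) ∧ P (v 2) (v 1) (v 0)) := inferInstance
  have h1 : Def (fun v _ => ∃ c, c = k (fun i => v (i + 2)) ∧ P (v 1) (v 0) c) :=
    @Def.ex (fun v _ c => c = k (fun i => v (i + 2)) ∧ P (v 1) (v 0) c) h0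
  have h2 : Def (fun v _ => v 0 = g (fun i => v (i + 2)) ∧
      ∃ c, c = k (fun i => v (i + 2)) ∧ P (v 1) (v 0) c) := Def.and _ _
  have h3 : Def (fun v _ => ∃ b, b = g (fun i => v (i + 1)) ∧
      ∃ c, c = k (fun i => v (i + 1)) ∧ P (v 0) b c) :=
    @Def.ex (fun v _ b => b = g (fun i => v (i + 1)) ∧
      ∃ c, c = k (fun i => v (i + 1)) ∧ P (v 0) b c) h2
  have h4 : Def (fun v _ => v 0 = f (fun i => v (i + 1)) ∧
      ∃ b, b = g (fun i => v (i + 1)) ∧ ∃ c, c = k (fun i => v (i + 1)) ∧ P (v 0) b c) :=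
    Def.and _ _
  have h5 : Def (fun v _ => ∃ a, a = f v ∧ ∃ b, b = g v ∧ ∃ c, c = k v ∧ P a b c) :=
    @Def.ex (fun v _ a => a = f v ∧ ∃ b, b = g v ∧ ∃ c, c = k v ∧ P a b c) h4
  exact h5.congr fun v Z => by simp

/-! ### closed formulas -/

/-- replace the atoms about set variables other than `0` by a false formula -/
def clS (b : Bool) : Fm → Fm
  | .eq s t => .eq s t
  | .lt s t => .lt s t
  | .mem t j => if j = 0 ∧ b = true then .mem t j else .eq .zero .one
  | .neg φ => .neg (clS b φ)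
  | .and φ ψ => .and (clS b φ) (clS b ψ)
  | .all i φ => .all i (clS b φ)
  | .allS i φ => .allS i φ

theorem clS_arith (b : Bool) : ∀ φ : Fm, φ.Arithmetical → (clS b φ).Arithmetical
  | .eq _ _, _ => trivial
  | .lt _ _, _ => trivial
  | .mem t j, _ => by
      unfold clS
      split_ifs <;> trivial
  | .neg φ, h => clS_arith b φ h
  | .and φ ψ, h => ⟨clS_arith b φ h.1, clS_arith b ψ h.2⟩
  | .all _ φ, h => clS_arith b φ h
  | .allS _ _, h => h.elim

theorem clS_fvS (b : Bool) : ∀ φ : Fm, φ.Arithmetical →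
    (clS b φ).fvS ⊆ if b = true then {0} else ∅
  | .eq _ _, _ => Set.empty_subset _
  | .lt _ _, _ => Set.empty_subset _
  | .mem t j, _ => by
      unfold clS
      split_ifs with h1 h2 h2
      · rw [h1.1]; exact subset_rfl
      · exact absurd h1.2 h2
      · exact Set.empty_subset _
      · exact Set.empty_subset _
  | .neg φ, h => clS_fvS b φ h
  | .and φ ψ, h => Set.union_subset (clS_fvS b φ h.1) (clS_fvS b ψ h.2)
  | .all _ φ, h => clS_fvS b φ h
  | .allS _ _, h => h.elim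

theorem evF_clS (b : Bool) (φ : Fm) : φ.Arithmetical → ∀ (v : ℕ → ℕ) (V : ℕ → Set ℕ),
    evF v V (clS b φ) ↔ evF v (fun i => if i = 0 ∧ b = true then V i else ∅) φ := by
  induction φ with
  | eq s t => intro _ v V; exact Iff.rfl
  | lt s t => intro _ v V; exact Iff.rfl
  | mem t j =>
    intro _ v V
    unfold clS
    by_cases h : j = 0 ∧ b = true
    · simp [h, evF]
    · simp [h, evF, evT]
  | neg φ ih => intro h v V; simp only [clS, evF]; rw [ih h]
  | and φ ψ ih1 ih2 => intro h v V; simp only [clS, evF]; rw [ih1 h.1, ih2 h.2]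
  | all i φ ih => intro h v V; simp only [clS, evF]; exact forall_congr' fun a => ih h _ _
  | allS i φ ih => intro h; exact h.elim

/-- quantify the variables of a list -/
def clN : List ℕ → Fm → Fm
  | [], φ => φ
  | i :: l, φ => .all i (clN l φ)

theorem clN_arith (l : List ℕ) (φ : Fm) (h : φ.Arithmetical) : (clN l φ).Arithmetical := by
  induction l with
  | nil => exact h
  | cons i l ih => exact ih

theorem clN_fvS (l : List ℕ) (φ : Fm) : (clN l φ).fvS = φ.fvS := by
  induction l with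
  | nil => rfl
  | cons i l ih => exact ih

theorem clN_fvN (l : List ℕ) (φ : Fm) (x : ℕ) (hx : x ∈ (clN l φ).fvN) : x ∈ φ.fvN ∧ x ∉ l := by
  induction l with
  | nil => exact ⟨hx, by simp⟩
  | cons i l ih =>
    have h1 : x ∈ (clN l φ).fvN \ {i} := hx
    obtain ⟨h2, h3⟩ := ih h1.1
    exact ⟨h2, by simp only [List.mem_cons, not_or]; exact ⟨h1.2, h3⟩⟩

theorem evF_clN (R : (ℕ → ℕ) → (ℕ → Set ℕ) → Prop) (l : List ℕ) (φ : Fm)
    (hR : ∀ i ∈ l, ∀ v V (a : ℕ), R (update v i a) V ↔ R v V)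
    (hφ : ∀ v V, evF v V φ ↔ R v V) (v : ℕ → ℕ) (V : ℕ → Set ℕ) : evF v V (clN l φ) ↔ R v V := by
  induction l generalizing v with
  | nil => exact hφ v V
  | cons i l ih =>
    simp only [clN, evF]
    constructor
    · intro h
      have h1 := h 0
      rw [ih (fun j hj => hR j (List.mem_cons_of_mem _ hj))] at h1
      exact (hR i List.mem_cons_self v V 0).1 h1
    · intro h a
      rw [ih (fun j hj => hR j (List.mem_cons_of_mem _ hj))]
      exact (hR i List.mem_cons_self v V a).2 h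

theorem fvN_sub_bd : ∀ (t : Tm) (x : ℕ), x ∈ t.fv → x < t.bd := by
  intro t x hx
  induction t with
  | var i => have : x = i := hx; simp only [Tm.bd]; omega
  | zero => exact hx.elim
  | one => exact hx.elim
  | add s t hs ht => rcases hx with h | h <;> simp only [Tm.bd, lt_max_iff] <;> tauto
  | mul s t hs ht => rcases hx with h | h <;> simp only [Tm.bd, lt_max_iff] <;> tauto

theorem fvN_lt_bd (φ : Fm) (x : ℕ) (hx : x ∈ φ.fvN) : x < φ.bd := by
  induction φ with
  | eq s t =>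
    simp only [Fm.bd, lt_max_iff]
    exact hx.imp (fvN_sub_bd s x) (fvN_sub_bd t x)
  | lt s t =>
    simp only [Fm.bd, lt_max_iff]
    exact hx.imp (fvN_sub_bd s x) (fvN_sub_bd t x)
  | mem t j => exact fvN_sub_bd t x hx
  | neg φ ih => exact ih hx
  | and φ ψ ih1 ih2 => simp only [Fm.bd, lt_max_iff]; exact hx.imp ih1 ih2
  | all i φ ih => simp only [Fm.bd, lt_max_iff]; exact Or.inr (ih hx.1)
  | allS i φ ih => exact ih hx

/-- A formula with the expected free variables, for a relation that depends only on the number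
variables in `s` (and possibly on the set). -/
theorem Def.formula {R : (ℕ → ℕ) → Set ℕ → Prop} [h : Def R] (b : Bool) (s : Finset ℕ)
    (hs : ∀ v v' Z, (∀ i ∈ s, v i = v' i) → (R v Z ↔ R v' Z)) :
    ∃ φ : Fm, φ.Arithmetical ∧ φ.fvN ⊆ s ∧ (φ.fvS ⊆ if b = true then {0} else ∅) ∧
      ∀ (v : ℕ → ℕ) (V : ℕ → Set ℕ), evF v V φ ↔ R v (if b = true then V 0 else ∅) := by
  obtain ⟨φ, h1, h2⟩ := h.out
  let ψ := clS b φ
  let l := (List.range ψ.bd).filter (· ∉ s)
  refine ⟨clN l ψ, clN_arith _ _ (clS_arith b φ h1), ?_, ?_, ?_⟩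
  · intro x hx
    obtain ⟨h3, h4⟩ := clN_fvN l ψ x hx
    by_contra hxs
    apply h4
    rw [List.mem_filter]
    exact ⟨List.mem_range.2 (fvN_lt_bd _ _ h3), by simpa using hxs⟩
  · rw [clN_fvS]
    exact clS_fvS b φ h1
  · refine evF_clN (fun v V => R v (if b = true then V 0 else ∅)) l ψ ?_ ?_
    · intro i hi v V a
      refine hs _ _ _ fun j hj => ?_
      rw [update_of_ne]
      rintro rfl
      have := (List.mem_filter.1 hi).2
      simp at this
      exact this hj
    · intro v V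
      rw [evF_clS b φ h1, h2]
      simp

end Q204.RF
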