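import Pool.Agent.Q204.RF.Axioms

set_option autoImplicit false
set_option synthInstance.maxSize 4000

/-!
Codes of environments (association lists).
-/

namespace Q204.RF

open Pool.Agent.H986R3.SOA Function

/-- adding a pair to the code of an environment -/
def consC (i k e : ℕ) : ℕ := pr (pr i k) e + 1

instance (f g h : (ℕ → ℕ) → ℕ) [DTm f] [DTm g] [DTm h] :
    DTm (fun v => consC (f v) (g v) (h v)) := by unfold consC; infer_instance

/-- the code of an environment -/
def ce : List (ℕ × ℕ) → ℕ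
  | [] => 0
  | q :: l => consC q.1 q.2 (ce l)

/-- the value of a variable in an environment -/
def lk : List (ℕ × ℕ) → ℕ → ℕ
  | [], _ => 0
  | q :: l, j => if j = q.1 then q.2 else lk l j

theorem lk_cons (i k : ℕ) (l : List (ℕ × ℕ)) : lk ((i, k) :: l) = update (lk l) i k := by
  funext j
  by_cases h : j = i
  · subst h; simp [lk]
  · rw [update_of_ne h]; simp [lk, h]

theorem consC_inj {i k e i' k' e' : ℕ} (h : consC i k e = consC i' k' e') :
    i = i' ∧ k = k' ∧ e = e' := by
  unfold consC at h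
  have h1 := pr_inj (Nat.succ_injective h)
  have h2 := pr_inj h1.1
  exact ⟨h2.1, h2.2, h1.2⟩

theorem consC_ne_zero (i k e : ℕ) : consC i k e ≠ 0 := Nat.succ_ne_zero _

theorem ce_inj : ∀ l l' : List (ℕ × ℕ), ce l = ce l' → l = l'
  | [], [], _ => rfl
  | [], _ :: _, h => absurd h.symm (consC_ne_zero _ _ _)
  | _ :: _, [], h => absurd h (consC_ne_zero _ _ _)
  | (i, k) :: l, (i', k') :: l', h => by
      obtain ⟨h1, h2, h3⟩ := consC_inj h
      subst h1; subst h2
      rw [ce_inj l l' h3]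

theorem lt_consC (i k e : ℕ) : e < consC i k e := by
  unfold consC
  exact Nat.lt_succ_of_le (le_pr_right _ _)

theorem lt_consC' (i k e : ℕ) : k < consC i k e := by
  unfold consC
  exact Nat.lt_succ_of_le ((le_pr_right _ _).trans (le_pr_left _ _))

theorem lk_le_ce (l : List (ℕ × ℕ)) (j : ℕ) : lk l j ≤ ce l := by
  induction l with
  | nil => exact le_rfl
  | cons q l ih =>
    simp only [lk, ce]
    split_ifs
    · exact (lt_consC' _ _ _).le
    · exact ih.trans (lt_consC _ _ _).le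

/-- codes of environments -/
def IsEnv (n : ℕ) : Prop := ∃ l, ce l = n

def GEnv (Q : ℕ → Prop) (n : ℕ) : Prop := n = 0 ∨ ∃ i k e, n = consC i k e ∧ Q e

theorem GEnv_iff (n : ℕ) : IsEnv n ↔ GEnv IsEnv n := by
  constructor
  · rintro ⟨l, rfl⟩
    cases l with
    | nil => exact Or.inl rfl
    | cons q l => exact Or.inr ⟨q.1, q.2, _, rfl, ⟨l, rfl⟩⟩
  · rintro (rfl | ⟨i, k, _, rfl, ⟨l, rfl⟩⟩)
    · exact ⟨[], rfl⟩
    · exact ⟨(i, k) :: l, rfl⟩

theorem GEnv_loc (Q Q' : ℕ → Prop) (n : ℕ) (h : ∀ m < n, (Q m ↔ Q' m)) : GEnv Q n ↔ GEnv Q' n := by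
  unfold GEnv
  refine or_congr Iff.rfl ?_
  refine exists_congr fun a => exists_congr fun b => exists_congr fun e =>
    and_congr_right fun hs => ?_
  subst hs
  exact h _ (lt_consC _ _ _)

instance Def.IsEnv (f : (ℕ → ℕ) → ℕ) [DTm f] : Def (fun v _ => Q204.RF.IsEnv (f v)) := by
  refine Def.comp1 (P := Q204.RF.IsEnv) ?_ f
  refine Def.recursion GEnv GEnv_loc GEnv_iff ?_
  unfold GEnv
  infer_instance

end Q204.RF
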