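import Pool.Agent.Q204.RF.Main

set_option autoImplicit false
set_option synthInstance.maxSize 8000

/-!
The main theorem.
-/

namespace Q204.RF

open Pool.Agent.H986R3.SOA Function

theorem Def.comp1S {R : ℕ → Set ℕ → Prop} (h : Def (fun v Z => R (v 0) Z))
    (f : (ℕ → ℕ) → ℕ) [DTm f] : Def (fun v Z => R (f v) Z) := by
  have : Def (fun v Z => ∃ a, a = f v ∧ R a Z) := inferInstance
  exact this.congr fun v Z => by simp

/-- map all set variables to the variable `0` -/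
def mapS : Fm → Fm
  | .eq s t => .eq s t
  | .lt s t => .lt s t
  | .mem t _ => .mem t 0
  | .neg φ => .neg (mapS φ)
  | .and φ ψ => .and (mapS φ) (mapS ψ)
  | .all i φ => .all i (mapS φ)
  | .allS i φ => .allS i φ

theorem mapS_arith : ∀ φ : Fm, φ.Arithmetical → (mapS φ).Arithmetical
  | .eq _ _, _ => trivial
  | .lt _ _, _ => trivial
  | .mem _ _, _ => trivial
  | .neg φ, h => mapS_arith φ h
  | .and φ ψ, h => ⟨mapS_arith φ h.1, mapS_arith ψ h.2⟩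
  | .all _ φ, h => mapS_arith φ h
  | .allS _ _, h => h.elim

theorem evF_mapS (φ : Fm) : φ.Arithmetical → ∀ (v : ℕ → ℕ) (V : ℕ → Set ℕ),
    evF v V (mapS φ) ↔ evF v (fun _ => V 0) φ := by
  induction φ with
  | eq s t => intro _ v V; exact Iff.rfl
  | lt s t => intro _ v V; exact Iff.rfl
  | mem t j => intro _ v V; exact Iff.rfl
  | neg φ ih => intro h v V; simp only [mapS, evF]; rw [ih h]
  | and φ ψ ih1 ih2 => intro h v V; simp only [mapS, evF]; rw [ih1 h.1, ih2 h.2]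
  | all i φ ih => intro h v V; simp only [mapS, evF]; exact forall_congr' fun a => ih h _ _
  | allS i φ ih => intro h; exact h.elim

theorem satN_iff (a p x : ℕ) (φ : Fm) :
    SatN a p x φ ↔ evF (asg (A := ℕ) a p x) (fun _ => (∅ : Set ℕ)) φ := evF_std φ _ _

theorem Def.drop {R : ℕ → Set ℕ → Prop} (k : ℕ) (h : Def (fun v Z => R (v k) Z)) :
    Def (fun v Z => R (v 0) Z) := by
  induction k with
  | zero => exact h
  | succ k ih =>
    apply ih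
    have : Def (fun v Z => ∃ _ : ℕ, R (v k) Z) := @Def.ex (fun v Z _ => R (v k) Z) h
    exact this.congr fun v Z => by simp

variable (𝒜 : StdArithmetization)

def PP (p x : ℕ) : Prop := SatN 0 p x 𝒜.prf
def AA (a p : ℕ) : Prop := SatN a p 0 𝒜.axIn
def BB (a : ℕ) : Prop := ∃ φ ∈ SigmaAC0, φ.code = a

theorem evF_prf (v : ℕ → ℕ) (V : ℕ → Set ℕ) : evF v V 𝒜.prf ↔ PP 𝒜 (v 1) (v 2) := by
  unfold PP
  rw [satN_iff]
  refine evF_congr _ _ _ _ _ (fun i hi => ?_) (fun i hi => ?_)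
  · rcases 𝒜.prf_free.1 hi with h | h
    · subst h; rfl
    · have h' : i = 2 := h
      subst h'; rfl
  · rw [𝒜.prf_free.2] at hi; exact hi.elim

theorem evF_axIn (v : ℕ → ℕ) (V : ℕ → Set ℕ) : evF v V 𝒜.axIn ↔ AA 𝒜 (v 0) (v 1) := by
  unfold AA
  rw [satN_iff]
  refine evF_congr _ _ _ _ _ (fun i hi => ?_) (fun i hi => ?_)
  · rcases 𝒜.axIn_free.1 hi with h | h
    · subst h; rfl
    · have h' : i = 1 := h
      subst h'; rfl
  · rw [𝒜.axIn_free.2] at hi; exact hi.elim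

theorem def_PP : Def (fun v _ => PP 𝒜 (v 0) (v 1)) := by
  have h : Def (fun v _ => PP 𝒜 (v 1) (v 2)) := ⟨⟨𝒜.prf, 𝒜.prf_arith, evF_prf 𝒜⟩⟩
  have : Def (fun v _ => ∃ _ : ℕ, PP 𝒜 (v 0) (v 1)) := @Def.ex (fun v _ _ => PP 𝒜 (v 0) (v 1)) h
  exact this.congr fun v Z => by simp

instance def_PP' (f g : (ℕ → ℕ) → ℕ) [DTm f] [DTm g] : Def (fun v _ => PP 𝒜 (f v) (g v)) :=
  Def.comp2 (P := fun a b => PP 𝒜 b a) (def_PP 𝒜) g f

instance def_AA' (f g : (ℕ → ℕ) → ℕ) [DTm f] [DTm g] : Def (fun v _ => AA 𝒜 (f v) (g v)) := by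
  have h : Def (fun v _ => AA 𝒜 (v 0) (v 1)) := ⟨⟨𝒜.axIn, 𝒜.axIn_arith, evF_axIn 𝒜⟩⟩
  exact Def.comp2 (P := fun a b => AA 𝒜 b a) h g f

instance def_BB (f : (ℕ → ℕ) → ℕ) [DTm f] : Def (fun v _ => BB (f v)) := by
  have : Def (fun v _ => IsSe (f v) ∧ IsGx (f v)) := inferInstance
  exact this.congr fun v _ => sigmaAC0_iff _

/-- the kernel of the truth predicate -/
theorem tr_kernel : ∃ K : ℕ → Set ℕ → Prop, Def (fun v Z => K (v 0) Z) ∧
    ∀ n, SatN 0 0 n 𝒜.tr ↔ ∀ Z, K n Z := by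
  obtain ⟨j, t, ht, har⟩ := 𝒜.tr_pi
  have hf := 𝒜.tr_free
  rw [ht] at hf
  have hN : ∀ i ∈ t.fvN, i = 2 := fun i hi => hf.1 hi
  have hS : ∀ i ∈ t.fvS, i = j := by
    intro i hi
    by_contra hne
    have : i ∈ t.fvS \ {j} := ⟨hi, hne⟩
    have h2 : t.fvS \ {j} = ∅ := hf.2
    rw [h2] at this
    exact this
  refine ⟨fun n Z => evF (fun _ => n) (fun _ => Z) t, ?_, ?_⟩
  · have h1 : Def (fun v Z => evF (fun _ => v 2) (fun _ => Z) t) := by
      refine ⟨⟨mapS t, mapS_arith t har, fun v V => ?_⟩⟩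
      rw [evF_mapS t har]
      exact evF_congr _ _ _ _ _ (fun i hi => by rw [hN i hi]) (fun _ _ => rfl)
    exact Def.drop (R := fun n Z => evF (fun _ => n) (fun _ => Z) t) 2 h1
  · intro n
    rw [satN_iff, ht]
    show (∀ A : Set ℕ, evF _ (update _ j A) t) ↔ _
    refine forall_congr' fun Z => ?_
    refine evF_congr _ _ _ _ _ (fun i hi => ?_) (fun i hi => ?_)
    · rw [hN i hi]; rfl
    · rw [hS i hi, update_self]

theorem orC_code (φ ψ : Fm) : (φ.or ψ).code = orC φ.code ψ.code := rfl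

theorem reflection_sentence {τ : Fm} (hτ : τ.FreeIn {0}) : (𝒜.reflection τ).IsSentence := by
  refine ⟨?_, ?_⟩
  · show ((𝒜.isPi.fvN ∪ (𝒜.prf.fvN ∪ (𝒜.axIn.fvN ∪ τ.fvN) \ {0}) \ {1}) ∪ 𝒜.tr.fvN) \ {2} = ∅
    refine Set.sdiff_eq_empty.2 ?_
    intro i hi
    rcases hi with (h | ⟨h | ⟨h | h, h'⟩, h''⟩) | h
    · exact 𝒜.isPi_free.1 h
    · rcases 𝒜.prf_free.1 h with h3 | h3
      · exact absurd h3 h''
      · exact h3
    · rcases 𝒜.axIn_free.1 h with h3 | h3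
      · exact absurd h3 h'
      · exact absurd h3 h''
    · exact absurd (hτ.1 h) h'
    · exact 𝒜.tr_free.1 h
  · show (𝒜.isPi.fvS ∪ (𝒜.prf.fvS ∪ (𝒜.axIn.fvS ∪ τ.fvS))) ∪ 𝒜.tr.fvS = ∅
    rw [𝒜.isPi_free.2, 𝒜.prf_free.2, 𝒜.axIn_free.2, hτ.2, 𝒜.tr_free.2]
    simp

theorem sentence_or {φ ψ : Fm} (h : φ.IsSentence) (h' : ψ.IsSentence) : (φ.or ψ).IsSentence := by
  refine ⟨?_, ?_⟩
  · show φ.fvN ∪ ψ.fvN = ∅
    rw [h.1, h'.1, Set.union_empty]
  · show φ.fvS ∪ ψ.fvS = ∅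
    rw [h.2, h'.2, Set.union_empty]

theorem holds_iff_evF {φ : Fm} (hφ : φ.IsSentence) (v : ℕ → ℕ) (V : ℕ → Set ℕ) :
    std.Holds φ ↔ evF v V φ := by
  refine ⟨fun h => evF_of_holds h v V, fun h => holds_of_evF fun v' V' => ?_⟩
  refine (evF_congr φ _ _ _ _ (fun i hi => ?_) (fun i hi => ?_)).1 h
  · rw [hφ.1] at hi; exact hi.elim
  · rw [hφ.2] at hi; exact hi.elim

theorem holds_or {φ ψ : Fm} (h : φ.IsSentence) (h' : ψ.IsSentence) :
    std.Holds (φ.or ψ) ↔ std.Holds φ ∨ std.Holds ψ := by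
  rw [holds_iff_evF (sentence_or h h') (fun _ => 0) (fun _ => ∅),
    holds_iff_evF h (fun _ => 0) (fun _ => ∅), holds_iff_evF h' (fun _ => 0) (fun _ => ∅)]
  show (¬ (¬ _ ∧ ¬ _)) ↔ _
  tauto

theorem Sat_sentence (M : Model) {φ : Fm} (h : φ.IsSentence) (v v' : ℕ → M.Num)
    (V V' : ℕ → Set M.Num) : Sat M v V φ ↔ Sat M v' V' φ := by
  refine Sat_congr M φ _ _ _ _ (fun i hi => ?_) (fun i hi => ?_)
  · rw [h.1] at hi; exact hi.elim
  · rw [h.2] at hi; exact hi.elim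

/-- the reflection sentence for a correct definition of a true theory is true -/
theorem reflection_true {τ : Fm} {T : Set Fm} (hT : ∀ ψ ∈ T, ψ.IsSentence)
    (hτ : ∀ (v : ℕ → ℕ) (V : ℕ → Set ℕ), evF v V τ ↔ ∃ φ ∈ T, φ.code = v 0)
    (htrue : ∀ ψ ∈ T, std.Holds ψ) : std.Holds (𝒜.reflection τ) := by
  apply holds_of_evF
  intro v V n
  rw [evF_imp]
  rintro ⟨h1, h2⟩
  have h3 : ∃ φ : Fm, φ.IsPi11Sentence ∧ φ.code = n := by
    rw [← 𝒜.isPi_correct, satN_iff]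
    refine (evF_congr _ _ _ _ _ (fun i hi => ?_) (fun i hi => ?_)).1 h1
    · have : i = 2 := 𝒜.isPi_free.1 hi
      subst this
      rw [update_self]; rfl
    · rw [𝒜.isPi_free.2] at hi; exact hi.elim
  obtain ⟨φ, hφ, rfl⟩ := h3
  have h4 : ∃ p : ℕ, evF (update (update v 2 φ.code) 1 p) V 𝒜.prf ∧
      ∀ a : ℕ, evF (update (update (update v 2 φ.code) 1 p) 0 a) V (.imp 𝒜.axIn τ) := by
    have h5 : ¬ ∀ p : ℕ, ¬ (evF (update (update v 2 φ.code) 1 p) V 𝒜.prf ∧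
      ∀ a : ℕ, evF (update (update (update v 2 φ.code) 1 p) 0 a) V (.imp 𝒜.axIn τ)) := h2
    push Not at h5
    exact h5
  obtain ⟨p, h5, h6⟩ := h4
  have h7 : Proves T φ := by
    rw [𝒜.prf_correct T hT φ hφ.2]
    refine ⟨p, ?_, fun a ha => ?_⟩
    · rw [evF_prf] at h5
      simpa [PP] using h5
    · have h8 := h6 a
      rw [evF_imp, evF_axIn, hτ] at h8
      simp at h8
      exact h8 ha
  have h8 : std.Holds φ := h7 std htrue
  rw [← 𝒜.tr_correct φ hφ, satN_iff] at h8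
  refine (evF_congr _ _ _ _ _ (fun i hi => ?_) (fun i hi => ?_)).1 h8
  · have : i = 2 := 𝒜.tr_free.1 hi
    subst this
    rw [update_self]; rfl
  · rw [𝒜.tr_free.2] at hi; exact hi.elim

theorem main : ∃ (T : Set Fm) (τ : Fm), SigmaAC0 ⊆ T ∧ (∀ ψ ∈ T, ψ.IsSentence) ∧ Pi11Sound T ∧
    Pi11Defines τ T ∧ Proves T (𝒜.reflection τ) := by
  obtain ⟨ax, hax1, hax2, hax3⟩ := exists_ax
  obtain ⟨K, hK1, hK2⟩ := tr_kernel 𝒜
  set rf := 𝒜.reflection ax with hrf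
  have hrfs : rf.IsSentence := reflection_sentence 𝒜 hax2
  have hS : ∀ ψ ∈ SigmaAC0, ψ.IsSentence := fun ψ h => h.1
  have hrft : std.Holds rf := reflection_true 𝒜 hS hax3 std_sigmaAC0
  -- the `Sigma^1_1` property to be diagonalized
  let R : ℕ → Set ℕ → Prop := fun x Z => ∃ q, IsPi q ∧ ¬ K q Z ∧ ∃ p, PP 𝒜 p (orC x q) ∧
    ∀ a, AA 𝒜 a p → (BB a ∨ a = rf.code)
  have hKq : Def (fun v Z => K (v 0) Z) := hK1
  have hR : Def (fun v Z => R (v 0) Z) := by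
    have i1 : Def (fun v Z => K (v 0) Z) := hK1
    have i2 : Def (fun v Z => IsPi (v 0) ∧ ¬ K (v 0) Z ∧ ∃ p, PP 𝒜 p (orC (v 1) (v 0)) ∧
      ∀ a, AA 𝒜 a p → (BB a ∨ a = rf.code)) := inferInstance
    exact @Def.ex (fun v Z q => IsPi q ∧ ¬ K q Z ∧ ∃ p, PP 𝒜 p (orC (v 0) q) ∧
      ∀ a, AA 𝒜 a p → (BB a ∨ a = rf.code)) i2
  obtain ⟨θ, hθ1, hθ2, hθ3⟩ := diagonal R hR
  set γ := Fm.allS 0 θ with hγ
  -- disjunctions provable from the base theory
  have hbase : ∀ ψ ∈ SigmaAC0 ∪ {rf}, ψ.IsSentence := by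
    rintro ψ (h | h)
    · exact hS ψ h
    · rw [Set.mem_singleton_iff.1 h]; exact hrfs
  have hprov : ∀ q : Fm, q.IsSentence → (Proves (SigmaAC0 ∪ {rf}) (γ.or q) ↔
      ∃ p, PP 𝒜 p (orC γ.code q.code) ∧ ∀ a, AA 𝒜 a p → (BB a ∨ a = rf.code)) := by
    intro q hq
    rw [𝒜.prf_correct _ hbase _ (sentence_or hθ2 hq), orC_code]
    refine exists_congr fun p => and_congr Iff.rfl (forall_congr' fun a => imp_congr Iff.rfl ?_)
    constructor
    · rintro ⟨ψ, h | h, rfl⟩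
      · exact Or.inl ⟨ψ, h, rfl⟩
      · rw [Set.mem_singleton_iff.1 h]; exact Or.inr rfl
    · rintro (⟨ψ, h, rfl⟩ | rfl)
      · exact ⟨ψ, Or.inl h, rfl⟩
      · exact ⟨rf, Or.inr rfl, rfl⟩
  -- `γ` is true
  have hγt : std.Holds γ := by
    by_contra hn
    rw [hθ3] at hn
    push Not at hn
    obtain ⟨Z, q, ⟨q, hq, rfl⟩, hqK, hp⟩ := hn
    have h1 : ¬ std.Holds q := by
      rw [← 𝒜.tr_correct q hq, hK2]
      exact fun h => hqK (h Z)
    have h2 : Proves (SigmaAC0 ∪ {rf}) (γ.or q) := (hprov q hq.2).2 hp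
    have h3 := h2 std (by
      rintro ψ (h | h)
      · exact std_sigmaAC0 ψ h
      · rw [Set.mem_singleton_iff.1 h]; exact hrft)
    rw [holds_or hθ2 hq.2] at h3
    rcases h3 with h3 | h3
    · rw [hθ3] at h3
      exact h3 Z ⟨_, ⟨q, hq, rfl⟩, hqK, hp⟩
    · exact h1 h3
  have hnR := hθ3.1 hγt
  let χ : Fm := .and rf (.neg γ)
  have hχs : χ.IsSentence := by
    refine ⟨?_, ?_⟩
    · show rf.fvN ∪ γ.fvN = ∅
      rw [hrfs.1, hθ2.1, Set.union_empty]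
    · show rf.fvS ∪ γ.fvS = ∅
      rw [hrfs.2, hθ2.2, Set.union_empty]
  have hθN : θ.fvN = ∅ := hθ2.1
  have hθS : θ.fvS ⊆ {0} := Set.sdiff_eq_empty.1 hθ2.2
  let τ : Fm := .allS 0 (.or ax (.and (.eq (.var 0) (numeral χ.code)) θ))
  refine ⟨SigmaAC0 ∪ {χ}, τ, Set.subset_union_left, ?_, ?_, ?_, ?_⟩
  · rintro ψ (h | h)
    · exact hS ψ h
    · rw [Set.mem_singleton_iff.1 h]; exact hχs
  · -- soundness
    intro q hq hT
    by_contra hqf
    have h1 : Proves (SigmaAC0 ∪ {rf}) (γ.or q) := by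
      intro M hM v V hV
      rw [Sat_or]
      by_contra hn
      push Not at hn
      have h2 := hT M (by
        rintro ψ (h | h)
        · exact hM ψ (Or.inl h)
        · rw [Set.mem_singleton_iff.1 h]
          intro v' V' hV'
          refine ⟨hM rf (Or.inr rfl) v' V' hV', ?_⟩
          intro h3
          exact hn.1 ((Sat_sentence M hθ2 _ _ _ _).1 h3)) v V hV
      exact hn.2 h2
    obtain ⟨p, hp⟩ := (hprov q hq.2).1 h1
    rw [← 𝒜.tr_correct q hq, hK2] at hqf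
    push Not at hqf
    obtain ⟨Z, hZ⟩ := hqf
    exact hnR Z ⟨_, ⟨q, hq, rfl⟩, hZ, p, hp⟩
  · -- definability
    refine ⟨⟨0, _, rfl, ?_⟩, ⟨?_, ?_⟩, fun n => ?_⟩
    · exact ⟨hax1, trivial, hθ1⟩
    · show ax.fvN ∪ ((({0} : Set ℕ) ∪ (numeral χ.code).fv) ∪ θ.fvN) ⊆ {0}
      rw [numeral_fv', hθN, Set.union_empty, Set.union_empty]
      exact Set.union_subset hax2.1 subset_rfl
    · show (ax.fvS ∪ ((∅ : Set ℕ) ∪ θ.fvS)) \ {0} = ∅
      rw [hax2.2, Set.empty_union, Set.empty_union]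
      exact Set.sdiff_eq_empty.2 hθS
    · rw [satN_iff]
      have e1 : evF (asg (A := ℕ) n 0 0) (fun _ => (∅ : Set ℕ)) τ ↔
          ∀ A : Set ℕ, (∃ φ ∈ SigmaAC0, φ.code = n) ∨ (n = χ.code ∧
            evF (asg (A := ℕ) n 0 0) (update (fun _ => (∅ : Set ℕ)) 0 A) θ) := by
        show (∀ A : Set ℕ, ¬ (¬ evF _ (update _ 0 A) ax ∧
          ¬ (evT _ (.var 0) = evT _ (numeral χ.code) ∧ evF _ (update _ 0 A) θ))) ↔ _
        refine forall_congr' fun A => ?_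
        rw [hax3, evT_numeral]
        exact not_and_or.trans (or_congr not_not not_not)
      have e2 : ∀ A : Set ℕ, evF (asg (A := ℕ) n 0 0) (update (fun _ => (∅ : Set ℕ)) 0 A) θ :=
        evF_of_holds hγt (asg (A := ℕ) n 0 0) (fun _ => (∅ : Set ℕ))
      rw [e1]
      constructor
      · intro h
        rcases h ∅ with ⟨φ, h1, h2⟩ | ⟨h1, _⟩
        · exact ⟨φ, Or.inl h1, h2⟩
        · exact ⟨χ, Or.inr rfl, h1.symm⟩
      · rintro ⟨φ, h | h, rfl⟩ A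
        · exact Or.inl ⟨φ, h, rfl⟩
        · rw [Set.mem_singleton_iff.1 h]
          exact Or.inr ⟨rfl, by rw [Set.mem_singleton_iff.1 h] at e2; exact e2 A⟩
  · -- the theory proves the reflection sentence
    intro M hM v V hV a
    have hχM := hM χ (Or.inr rfl)
    have h1 : Sat M (update v 2 a) V (.imp (.and 𝒜.isPi (𝒜.Pr ax)) 𝒜.tr) := (hχM v V hV).1 a
    have hng : ∀ (v' : ℕ → M.Num), ¬ Sat M v' V γ := fun v' => (hχM v' V hV).2
    rw [Sat_imp] at h1 ⊢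
    rintro ⟨h2, h3⟩
    refine h1 ⟨h2, ?_⟩
    have h3' : Sat M (update v 2 a) V (.ex 1 (.and 𝒜.prf (.all 0 (.imp 𝒜.axIn τ)))) := h3
    show Sat M (update v 2 a) V (.ex 1 (.and 𝒜.prf (.all 0 (.imp 𝒜.axIn ax))))
    rw [Sat_ex] at h3' ⊢
    obtain ⟨p, h4, h5⟩ := h3'
    refine ⟨p, h4, fun b => ?_⟩
    have h6 := h5 b
    rw [Sat_imp] at h6 ⊢
    intro h7
    have h8 : Sat M (update (update (update v 2 a) 1 p) 0 b) V τ := h6 h7
    by_contra hnax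
    apply hng (update (update (update v 2 a) 1 p) 0 b)
    intro A hA
    have h9 := h8 A hA
    rw [Sat_or] at h9
    rcases h9 with h9 | ⟨_, h9⟩
    · exfalso
      apply hnax
      refine (Sat_congr M ax _ _ _ _ (fun _ _ => rfl) (fun i hi => ?_)).1 h9
      rw [hax2.2] at hi; exact hi.elim
    · exact h9

end Q204.RF
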