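import Pool.Agent.Q204.RF.Henkin

set_option autoImplicit false

/-!
The structure given by a Henkin set, and the Henkin set given by a structure.
-/

namespace Q204.RF

open Pool.Agent.H986R3.SOA Function

/-! ### from Henkin sets to structures -/

section
variable {Ax : ℕ → Prop} {x0 : ℕ} {H : ℕ → Prop}

/-- equality of constants -/
def stoid (hG : Good (fun _ => True) Ax x0 H) : Setoid ℕ where
  r a b := H (hE a b)
  iseqv := ⟨fun a => hG.refl a trivial, fun {a b} h => hG.symm a b trivial trivial h,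
    fun {a b c} h h' => hG.trans a b c trivial trivial trivial h h'⟩

/-- the structure -/
def mdl (hG : Good (fun _ => True) Ax x0 H) : Model where
  Num := Quotient (stoid hG)
  zero := Quotient.mk (stoid hG) (pr 1 0)
  one := Quotient.mk (stoid hG) (pr 2 0)
  add := Quotient.map₂ addC (fun a a' h b b' h' => hG.cadd a a' b b' trivial trivial trivial h h')
  mul := Quotient.map₂ mulC (fun a a' h b b' h' => hG.cmul a a' b b' trivial trivial trivial h h')
  lt := Quotient.lift₂ (fun a b => H (hL a b)) (fun a b a' b' h h' => propext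
    ⟨hG.clt a a' b b' trivial trivial trivial trivial h h',
     hG.clt a' a b' b trivial trivial trivial trivial (hG.symm _ _ trivial trivial h)
      (hG.symm _ _ trivial trivial h')⟩)
  sets := Set.range fun k : ℕ => {q : Quotient (stoid hG) | ∃ a, q = Quotient.mk _ a ∧ H (hM a k)}
  sets_nonempty := Set.range_nonempty _

/-- the class of a constant -/
def cl (hG : Good (fun _ => True) Ax x0 H) (a : ℕ) : (mdl hG).Num := Quotient.mk (stoid hG) a

/-- the set given by a set constant -/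
def st (hG : Good (fun _ => True) Ax x0 H) (k : ℕ) : Set (mdl hG).Num :=
  {q | ∃ a, q = cl hG a ∧ H (hM a k)}

theorem cl_eq (hG : Good (fun _ => True) Ax x0 H) (a b : ℕ) :
    cl hG a = cl hG b ↔ H (hE a b) := by
  constructor
  · intro h; exact Quotient.exact h
  · intro h; exact Quotient.sound h

theorem mem_st (hG : Good (fun _ => True) Ax x0 H) (a k : ℕ) :
    cl hG a ∈ st hG k ↔ H (hM a k) := by
  constructor
  · rintro ⟨b, h, h'⟩
    rw [cl_eq] at h
    exact hG.cmem b a k trivial trivial trivial (hG.symm _ _ trivial trivial h) h'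
  · intro h; exact ⟨a, rfl, h⟩

theorem mdl_val (hG : Good (fun _ => True) Ax x0 H) (ρ : ℕ → ℕ) (t : Tm) :
    t.val (mdl hG) (fun i => cl hG (ρ i)) = cl hG (evC ρ t) := by
  induction t with
  | var i => rfl
  | zero => rfl
  | one => rfl
  | add s t hs ht =>
    simp only [Tm.val, hs, ht, evC]
    rfl
  | mul s t hs ht =>
    simp only [Tm.val, hs, ht, evC]
    rfl

theorem truth (hG : Good (fun _ => True) Ax x0 H) (φ : Fm) : ∀ l m : List (ℕ × ℕ),
    Sat (mdl hG) (fun i => cl hG (lk l i)) (fun i => st hG (lk m i)) φ ↔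
      H (hF φ.code (ce l) (ce m)) := by
  induction φ with
  | eq s t =>
    intro l m
    simp only [Sat, mdl_val, cl_eq]
    exact (hG.feq s.code t.code (ce l) (ce m) _ _ ⟨s, l, rfl, rfl, rfl⟩ ⟨t, l, rfl, rfl, rfl⟩
      ⟨m, rfl⟩ trivial trivial).symm
  | lt s t =>
    intro l m
    simp only [Sat, mdl_val]
    exact (hG.flt s.code t.code (ce l) (ce m) _ _ ⟨s, l, rfl, rfl, rfl⟩ ⟨t, l, rfl, rfl, rfl⟩
      ⟨m, rfl⟩ trivial trivial).symm
  | mem t i =>
    intro l m
    simp only [Sat, mdl_val, mem_st]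
    exact (hG.fmem t.code i (ce l) (ce m) _ _ ⟨t, l, rfl, rfl, rfl⟩ ⟨m, rfl, rfl⟩
      trivial trivial).symm
  | neg φ ih =>
    intro l m
    simp only [Sat, ih l m]
    exact (hG.fneg φ.code (ce l) (ce m) ⟨φ, rfl⟩ ⟨l, rfl⟩ ⟨m, rfl⟩ trivial trivial).symm
  | and φ ψ ih1 ih2 =>
    intro l m
    simp only [Sat, ih1 l m, ih2 l m]
    exact (hG.fand φ.code ψ.code (ce l) (ce m) ⟨φ, rfl⟩ ⟨ψ, rfl⟩ ⟨l, rfl⟩ ⟨m, rfl⟩ trivial trivial
      trivial).symm
  | all i φ ih =>
    intro l m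
    have key : ∀ k, Sat (mdl hG) (update (fun i => cl hG (lk l i)) i (cl hG k))
        (fun i => st hG (lk m i)) φ ↔ H (hF φ.code (consC i k (ce l)) (ce m)) := by
      intro k
      have h1 : update (fun i => cl hG (lk l i)) i (cl hG k) =
          fun j => cl hG (lk ((i, k) :: l) j) := by
        rw [lk_cons]
        funext j
        by_cases hj : j = i
        · subst hj; simp
        · simp [hj]
      rw [h1]
      exact ih ((i, k) :: l) m
    simp only [Sat]
    constructor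
    · intro h
      refine hG.fallw i φ.code (ce l) (ce m) ⟨φ, rfl⟩ ⟨l, rfl⟩ ⟨m, rfl⟩ trivial trivial ?_
      exact (key _).1 (h _)
    · intro h q
      induction q using Quotient.inductionOn with
      | h k =>
        refine (key k).2 ?_
        exact hG.fall i φ.code k (ce l) (ce m) ⟨φ, rfl⟩ ⟨l, rfl⟩ ⟨m, rfl⟩ trivial trivial h
  | allS i φ ih =>
    intro l m
    have key : ∀ k, Sat (mdl hG) (fun i => cl hG (lk l i))
        (update (fun i => st hG (lk m i)) i (st hG k)) φ ↔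
          H (hF φ.code (ce l) (consC i k (ce m))) := by
      intro k
      have h1 : update (fun i => st hG (lk m i)) i (st hG k) =
          fun j => st hG (lk ((i, k) :: m) j) := by
        rw [lk_cons]
        funext j
        by_cases hj : j = i
        · subst hj; simp
        · simp [hj]
      rw [h1]
      exact ih l ((i, k) :: m)
    simp only [Sat]
    constructor
    · intro h
      refine hG.fallSw i φ.code (ce l) (ce m) ⟨φ, rfl⟩ ⟨l, rfl⟩ ⟨m, rfl⟩ trivial trivial ?_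
      exact (key _).1 (h _ ⟨_, rfl⟩)
    · rintro h _ ⟨k, rfl⟩
      refine (key k).2 ?_
      exact hG.fallS i φ.code k (ce l) (ce m) ⟨φ, rfl⟩ ⟨l, rfl⟩ ⟨m, rfl⟩ trivial trivial h

/-- Soundness of Henkin sets. -/
theorem Good.not_proves {T : Set Fm} (hT : ∀ ψ ∈ T, ψ.IsSentence) {φ : Fm} (hφ : φ.IsSentence)
    (hG : Good (fun _ => True) (fun y => ∃ ψ ∈ T, ψ.code = y) φ.code H) : ¬ Proves T φ := by
  intro h
  have hs : ∀ ψ : Fm, ψ.IsSentence → ∀ (v : ℕ → (mdl hG).Num) (V : ℕ → Set (mdl hG).Num),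
      Sat (mdl hG) v V ψ ↔ H (hF ψ.code 0 0) := by
    intro ψ hψ v V
    refine (Sat_congr (mdl hG) ψ v (fun i => cl hG (lk [] i)) V (fun i => st hG (lk [] i))
      (fun i hi => ?_) (fun i hi => ?_)).trans (truth hG ψ [] [])
    · rw [hψ.1] at hi; exact hi.elim
    · rw [hψ.2] at hi; exact hi.elim
  have h1 := h (mdl hG) (fun ψ hψ v V _ => by
    rw [hs ψ (hT ψ hψ)]
    exact hG.ax _ ⟨ψ, hψ, rfl⟩ trivial)
  obtain ⟨V, hV⟩ := (mdl hG).exists_setAsg
  have h2 := h1 (fun _ => (mdl hG).zero) V hV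
  rw [hs φ hφ] at h2
  exact hG.goal trivial h2

end

/-! ### from structures to Henkin sets -/

section
variable (N : Model)

/-- a pair of interpretations of the constants -/
structure Interp where
  I : ℕ → N.Num
  J : ℕ → Set N.Num
  zero : I (pr 1 0) = N.zero
  one : I (pr 2 0) = N.one
  add : ∀ a b, I (addC a b) = N.add (I a) (I b)
  mul : ∀ a b, I (mulC a b) = N.mul (I a) (I b)
  sets : ∀ k, J k ∈ N.sets
  witN : ∀ (i : ℕ) (φ : Fm) (l m : List (ℕ × ℕ)),
    Sat N (update (fun j => I (lk l j)) i (I (wN i φ.code (ce l) (ce m)))) (fun j => J (lk m j)) φ →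
      Sat N (fun j => I (lk l j)) (fun j => J (lk m j)) (.all i φ)
  witS : ∀ (i : ℕ) (φ : Fm) (l m : List (ℕ × ℕ)),
    Sat N (fun j => I (lk l j)) (update (fun j => J (lk m j)) i (J (wS i φ.code (ce l) (ce m)))) φ →
      Sat N (fun j => I (lk l j)) (fun j => J (lk m j)) (.allS i φ)

open Classical in
/-- one step of the recursion -/
noncomputable def stepI (g : ℕ → N.Num × Set N.Num) (n : ℕ) : N.Num :=
  if n = pr 1 0 then N.zero else if n = pr 2 0 then N.one
  else if h : ∃ c : N.Num, (∃ a b, n = addC a b ∧ c = N.add (g a).1 (g b).1) ∨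
      (∃ a b, n = mulC a b ∧ c = N.mul (g a).1 (g b).1) ∨
      (∃ (i : ℕ) (φ : Fm) (l m : List (ℕ × ℕ)), n = wN i φ.code (ce l) (ce m) ∧
        ¬ Sat N (update (fun j => (g (lk l j)).1) i c) (fun j => (g (lk m j)).2) φ)
  then h.choose else N.zero

open Classical in
/-- one step of the recursion -/
noncomputable def stepJ (g : ℕ → N.Num × Set N.Num) (n : ℕ) : Set N.Num :=
  if h : ∃ C ∈ N.sets, ∃ (i : ℕ) (φ : Fm) (l m : List (ℕ × ℕ)), n = wS i φ.code (ce l) (ce m) ∧
        ¬ Sat N (fun j => (g (lk l j)).1) (update (fun j => (g (lk m j)).2) i C) φ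
  then h.choose else N.sets_nonempty.some

/-- restriction of a function to the numbers below `n` -/
noncomputable def restr (g : ℕ → N.Num × Set N.Num) (n : ℕ) : ℕ → N.Num × Set N.Num :=
  open Classical in fun m => if m < n then g m else (N.zero, ∅)

theorem exists_fix (F : (ℕ → N.Num × Set N.Num) → ℕ → N.Num × Set N.Num) :
    ∃ g : ℕ → N.Num × Set N.Num, ∀ n, g n = F (restr N g n) n := by
  classical
  refine ⟨WellFounded.fix (C := fun _ => N.Num × Set N.Num) Nat.lt_wfRel.wf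
    (fun n ih => F (fun m => if h : m < n then ih m h else (N.zero, ∅)) n), fun n => ?_⟩
  rw [WellFounded.fix_eq]
  rfl

theorem varC_inj {a b : ℕ} (h : varC a = varC b) : a = b := (pr_inj h).2

theorem wN_inj {i i' : ℕ} {φ φ' : Fm} {l l' m m' : List (ℕ × ℕ)}
    (h : wN i φ.code (ce l) (ce m) = wN i' φ'.code (ce l') (ce m')) :
    i = i' ∧ φ = φ' ∧ l = l' ∧ m = m' := by
  have h1 := pr_inj (varC_inj h)
  have h2 := pr_inj (pr_inj h1.1).2
  have h3 := pr_inj h1.2
  exact ⟨h2.1, Fm.code_inj _ _ h2.2, ce_inj _ _ h3.1, ce_inj _ _ h3.2⟩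

theorem wS_inj {i i' : ℕ} {φ φ' : Fm} {l l' m m' : List (ℕ × ℕ)}
    (h : wS i φ.code (ce l) (ce m) = wS i' φ'.code (ce l') (ce m')) :
    i = i' ∧ φ = φ' ∧ l = l' ∧ m = m' := by
  have h1 := pr_inj h
  have h2 := pr_inj (pr_inj h1.1).2
  have h3 := pr_inj h1.2
  exact ⟨h2.1, Fm.code_inj _ _ h2.2, ce_inj _ _ h3.1, ce_inj _ _ h3.2⟩

theorem lt_wS (i x e f : ℕ) : e < wS i x e f ∧ f < wS i x e f := by
  have h0 : 0 < allSC i x := by
    unfold allSC pr
    positivity
  refine ⟨?_, ?_⟩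
  · exact lt_of_le_of_lt (le_pr_left _ _) (lt_pr_right h0 _)
  · exact lt_of_le_of_lt (le_pr_right _ _) (lt_pr_right h0 _)

theorem lt_wN (i x e f : ℕ) : e < wN i x e f ∧ f < wN i x e f := by
  have h0 : 0 < allC i x := by
    unfold allC pr
    positivity
  refine ⟨?_, ?_⟩
  · exact lt_of_lt_of_le (lt_of_le_of_lt (le_pr_left _ _) (lt_pr_right h0 _)) (le_pr_right _ _)
  · exact lt_of_lt_of_le (lt_of_le_of_lt (le_pr_right _ _) (lt_pr_right h0 _)) (le_pr_right _ _)

theorem exists_interp : Nonempty (Interp N) := by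
  classical
  obtain ⟨g, hg⟩ := exists_fix N (fun g n => (stepI N g n, stepJ N g n))
  have hI : ∀ n, (g n).1 = stepI N (restr N g n) n := fun n => by rw [hg n]
  have hJ : ∀ n, (g n).2 = stepJ N (restr N g n) n := fun n => by rw [hg n]
  have hr : ∀ {m n : ℕ}, m < n → restr N g n m = g m := fun h => if_pos h
  have e1 : ∀ a b : ℕ, addC a b ≠ pr 1 0 := fun a b h => absurd (pr_inj h).1 (by norm_num)
  have e2 : ∀ a b : ℕ, addC a b ≠ pr 2 0 := fun a b h => absurd (pr_inj h).1 (by norm_num)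
  have e3 : ∀ a b : ℕ, mulC a b ≠ pr 1 0 := fun a b h => absurd (pr_inj h).1 (by norm_num)
  have e4 : ∀ a b : ℕ, mulC a b ≠ pr 2 0 := fun a b h => absurd (pr_inj h).1 (by norm_num)
  have e5 : ∀ a b c d : ℕ, addC a b ≠ mulC c d := fun a b c d h => absurd (pr_inj h).1 (by norm_num)
  have e6 : ∀ a b i x e f : ℕ, addC a b ≠ wN i x e f :=
    fun a b i x e f h => absurd (pr_inj h).1 (by norm_num)
  have e7 : ∀ a b i x e f : ℕ, mulC a b ≠ wN i x e f :=
    fun a b i x e f h => absurd (pr_inj h).1 (by norm_num)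
  have e8 : ∀ i x e f : ℕ, wN i x e f ≠ pr 1 0 := fun i x e f h => by
    have h1 : (0 : ℕ) = 1 := (pr_inj h).1
    omega
  have e9 : ∀ i x e f : ℕ, wN i x e f ≠ pr 2 0 := fun i x e f h => by
    have h1 : (0 : ℕ) = 2 := (pr_inj h).1
    omega
  -- values of environments are unchanged by restriction
  have hl : ∀ (l : List (ℕ × ℕ)) (n : ℕ), ce l < n → ∀ j, restr N g n (lk l j) = g (lk l j) :=
    fun l n h j => hr (lt_of_le_of_lt (lk_le_ce l j) h)
  refine ⟨⟨fun n => (g n).1, fun n => (g n).2, ?_, ?_, ?_, ?_, ?_, ?_, ?_⟩⟩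
  · show (g (pr 1 0)).1 = _
    rw [hI]; unfold stepI; rw [if_pos rfl]
  · show (g (pr 2 0)).1 = _
    rw [hI]; unfold stepI; rw [if_neg (by intro h; exact absurd (pr_inj h).1 (by norm_num)),
      if_pos rfl]
  · intro a b
    show (g (addC a b)).1 = _
    rw [hI]
    unfold stepI
    rw [if_neg (e1 a b), if_neg (e2 a b)]
    have ha : a < addC a b := lt_pr_pr_left (by norm_num) _ _
    have hb : b < addC a b := lt_pr_pr_right (by norm_num) _ _
    have hex : ∃ c : N.Num, (∃ a' b', addC a b = addC a' b' ∧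
        c = N.add (restr N g (addC a b) a').1 (restr N g (addC a b) b').1) ∨
      (∃ a' b', addC a b = mulC a' b' ∧
        c = N.mul (restr N g (addC a b) a').1 (restr N g (addC a b) b').1) ∨
      (∃ (i : ℕ) (φ : Fm) (l m : List (ℕ × ℕ)), addC a b = wN i φ.code (ce l) (ce m) ∧
        ¬ Sat N (update (fun j => (restr N g (addC a b) (lk l j)).1) i c)
          (fun j => (restr N g (addC a b) (lk m j)).2) φ) :=
      ⟨_, Or.inl ⟨a, b, rfl, rfl⟩⟩
    rw [dif_pos hex]
    rcases hex.choose_spec with ⟨a', b', h, h'⟩ | ⟨a', b', h, _⟩ | ⟨i, φ, l, m, h, _⟩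
    · rw [h']
      obtain ⟨rfl, rfl⟩ := pr_inj (pr_inj h).2
      rw [hr ha, hr hb]
    · exact absurd h (e5 _ _ _ _)
    · exact absurd h (e6 _ _ _ _ _ _)
  · intro a b
    show (g (mulC a b)).1 = _
    rw [hI]
    unfold stepI
    rw [if_neg (e3 a b), if_neg (e4 a b)]
    have ha : a < mulC a b := lt_pr_pr_left (by norm_num) _ _
    have hb : b < mulC a b := lt_pr_pr_right (by norm_num) _ _
    have hex : ∃ c : N.Num, (∃ a' b', mulC a b = addC a' b' ∧
        c = N.add (restr N g (mulC a b) a').1 (restr N g (mulC a b) b').1) ∨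
      (∃ a' b', mulC a b = mulC a' b' ∧
        c = N.mul (restr N g (mulC a b) a').1 (restr N g (mulC a b) b').1) ∨
      (∃ (i : ℕ) (φ : Fm) (l m : List (ℕ × ℕ)), mulC a b = wN i φ.code (ce l) (ce m) ∧
        ¬ Sat N (update (fun j => (restr N g (mulC a b) (lk l j)).1) i c)
          (fun j => (restr N g (mulC a b) (lk m j)).2) φ) :=
      ⟨_, Or.inr (Or.inl ⟨a, b, rfl, rfl⟩)⟩
    rw [dif_pos hex]
    rcases hex.choose_spec with ⟨a', b', h, _⟩ | ⟨a', b', h, h'⟩ | ⟨i, φ, l, m, h, _⟩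
    · exact absurd h.symm (e5 _ _ _ _)
    · rw [h']
      obtain ⟨rfl, rfl⟩ := pr_inj (pr_inj h).2
      rw [hr ha, hr hb]
    · exact absurd h (e7 _ _ _ _ _ _)
  · intro k
    show (g k).2 ∈ _
    rw [hJ]
    unfold stepJ
    split_ifs with h
    · exact h.choose_spec.1
    · exact N.sets_nonempty.some_mem
  · intro i φ l m hw c
    by_contra hc
    have hn1 := hI (wN i φ.code (ce l) (ce m))
    unfold stepI at hn1
    rw [if_neg (e8 _ _ _ _), if_neg (e9 _ _ _ _)] at hn1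
    have h1 := hl l _ (lt_wN i φ.code (ce l) (ce m)).1
    have h2 := hl m _ (lt_wN i φ.code (ce l) (ce m)).2
    have hex : ∃ c : N.Num, (∃ a' b', wN i φ.code (ce l) (ce m) = addC a' b' ∧
        c = N.add (restr N g (wN i φ.code (ce l) (ce m)) a').1
          (restr N g (wN i φ.code (ce l) (ce m)) b').1) ∨
      (∃ a' b', wN i φ.code (ce l) (ce m) = mulC a' b' ∧
        c = N.mul (restr N g (wN i φ.code (ce l) (ce m)) a').1
          (restr N g (wN i φ.code (ce l) (ce m)) b').1) ∨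
      (∃ (i' : ℕ) (φ' : Fm) (l' m' : List (ℕ × ℕ)),
        wN i φ.code (ce l) (ce m) = wN i' φ'.code (ce l') (ce m') ∧
        ¬ Sat N (update (fun j => (restr N g (wN i φ.code (ce l) (ce m)) (lk l' j)).1) i' c)
          (fun j => (restr N g (wN i φ.code (ce l) (ce m)) (lk m' j)).2) φ') := by
      refine ⟨c, Or.inr (Or.inr ⟨i, φ, l, m, rfl, ?_⟩)⟩
      simp only [h1, h2]
      exact hc
    rw [dif_pos hex] at hn1
    rcases hex.choose_spec with ⟨a', b', h, _⟩ | ⟨a', b', h, _⟩ | ⟨i', φ', l', m', h, h'⟩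
    · exact absurd h.symm (e6 _ _ _ _ _ _)
    · exact absurd h.symm (e7 _ _ _ _ _ _)
    · obtain ⟨rfl, rfl, rfl, rfl⟩ := wN_inj h
      rw [← hn1] at h'
      simp only [h1, h2] at h'
      exact h' hw
  · intro i φ l m hw C hC
    by_contra hc
    have hn1 := hJ (wS i φ.code (ce l) (ce m))
    unfold stepJ at hn1
    have h1 := hl l _ (lt_wS i φ.code (ce l) (ce m)).1
    have h2 := hl m _ (lt_wS i φ.code (ce l) (ce m)).2
    have hex : ∃ C ∈ N.sets, ∃ (i' : ℕ) (φ' : Fm) (l' m' : List (ℕ × ℕ)),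
        wS i φ.code (ce l) (ce m) = wS i' φ'.code (ce l') (ce m') ∧
        ¬ Sat N (fun j => (restr N g (wS i φ.code (ce l) (ce m)) (lk l' j)).1)
          (update (fun j => (restr N g (wS i φ.code (ce l) (ce m)) (lk m' j)).2) i' C) φ' := by
      refine ⟨C, hC, i, φ, l, m, rfl, ?_⟩
      simp only [h1, h2]
      exact hc
    rw [dif_pos hex] at hn1
    obtain ⟨-, i', φ', l', m', h, h'⟩ := hex.choose_spec
    obtain ⟨rfl, rfl, rfl, rfl⟩ := wS_inj h
    rw [← hn1] at h'
    simp only [h1, h2] at h'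
    exact h' hw

/-- the Henkin set of an interpretation -/
def hset (A : Interp N) (n : ℕ) : Prop :=
  (∃ a b, n = hE a b ∧ A.I a = A.I b) ∨ (∃ a b, n = hL a b ∧ N.lt (A.I a) (A.I b)) ∨
  (∃ a k, n = hM a k ∧ A.I a ∈ A.J k) ∨
  ∃ (φ : Fm) (l m : List (ℕ × ℕ)), n = hF φ.code (ce l) (ce m) ∧
    Sat N (fun j => A.I (lk l j)) (fun j => A.J (lk m j)) φ

variable {N}

theorem hset_E (A : Interp N) (a b : ℕ) : hset N A (hE a b) ↔ A.I a = A.I b := by
  constructor
  · rintro (⟨a', b', h, h'⟩ | ⟨a', b', h, _⟩ | ⟨a', b', h, _⟩ | ⟨φ, l, m, h, _⟩)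
    · obtain ⟨rfl, rfl⟩ := pr_inj (pr_inj h).2
      exact h'
    all_goals exact absurd (pr_inj h).1 (by norm_num)
  · exact fun h => Or.inl ⟨a, b, rfl, h⟩

theorem hset_L (A : Interp N) (a b : ℕ) : hset N A (hL a b) ↔ N.lt (A.I a) (A.I b) := by
  constructor
  · rintro (⟨a', b', h, _⟩ | ⟨a', b', h, h'⟩ | ⟨a', b', h, _⟩ | ⟨φ, l, m, h, _⟩)
    · exact absurd (pr_inj h).1 (by norm_num)
    · obtain ⟨rfl, rfl⟩ := pr_inj (pr_inj h).2
      exact h'
    all_goals exact absurd (pr_inj h).1 (by norm_num)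
  · exact fun h => Or.inr (Or.inl ⟨a, b, rfl, h⟩)

theorem hset_M (A : Interp N) (a k : ℕ) : hset N A (hM a k) ↔ A.I a ∈ A.J k := by
  constructor
  · rintro (⟨a', b', h, _⟩ | ⟨a', b', h, _⟩ | ⟨a', b', h, h'⟩ | ⟨φ, l, m, h, _⟩)
    · exact absurd (pr_inj h).1 (by norm_num)
    · exact absurd (pr_inj h).1 (by norm_num)
    · obtain ⟨rfl, rfl⟩ := pr_inj (pr_inj h).2
      exact h'
    · exact absurd (pr_inj h).1 (by norm_num)
  · exact fun h => Or.inr (Or.inr (Or.inl ⟨a, k, rfl, h⟩))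

theorem hset_F (A : Interp N) (φ : Fm) (l m : List (ℕ × ℕ)) :
    hset N A (hF φ.code (ce l) (ce m)) ↔
      Sat N (fun j => A.I (lk l j)) (fun j => A.J (lk m j)) φ := by
  constructor
  · rintro (⟨a', b', h, _⟩ | ⟨a', b', h, _⟩ | ⟨a', b', h, _⟩ | ⟨φ, l, m, h, h'⟩)
    · exact absurd (pr_inj h).1 (by norm_num)
    · exact absurd (pr_inj h).1 (by norm_num)
    · exact absurd (pr_inj h).1 (by norm_num)
    · have h1 := pr_inj (pr_inj h).2
      have h2 := pr_inj h1.2
      rw [Fm.code_inj _ _ h1.1, ce_inj _ _ h2.1, ce_inj _ _ h2.2]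
      exact h'
  · exact fun h => Or.inr (Or.inr (Or.inr ⟨φ, l, m, rfl, h⟩))

theorem interp_val (A : Interp N) (ρ : ℕ → ℕ) (t : Tm) :
    t.val N (fun j => A.I (ρ j)) = A.I (evC ρ t) := by
  induction t with
  | var i => rfl
  | zero => exact A.zero.symm
  | one => exact A.one.symm
  | add s t hs ht => simp only [Tm.val, hs, ht, evC, A.add]
  | mul s t hs ht => simp only [Tm.val, hs, ht, evC, A.mul]

theorem hset_good (A : Interp N) {T : Set Fm} {φ : Fm} (hT : ∀ ψ ∈ T, N.Holds ψ) (hφ : φ.IsSentence) (hn : ¬ N.Holds φ) :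
    Good (fun _ => True) (fun y => ∃ ψ ∈ T, ψ.code = y) φ.code (hset N A) where
  refl a _ := (hset_E A a a).2 rfl
  symm a b _ _ h := (hset_E A b a).2 ((hset_E A a b).1 h).symm
  trans a b c _ _ _ h h' := (hset_E A a c).2 (((hset_E A a b).1 h).trans ((hset_E A b c).1 h'))
  cadd a a' b b' _ _ _ h h' := by
    rw [hset_E] at *
    rw [A.add, A.add, h, h']
  cmul a a' b b' _ _ _ h h' := by
    rw [hset_E] at *
    rw [A.mul, A.mul, h, h']
  clt a a' b b' _ _ _ _ h h' h'' := by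
    rw [hset_E] at h h'
    rw [hset_L] at *
    rw [← h, ← h']; exact h''
  cmem a a' k _ _ _ h h' := by
    rw [hset_E] at h
    rw [hset_M] at *
    rw [← h]; exact h'
  feq := by
    rintro _ _ _ _ _ _ ⟨s, l, rfl, rfl, rfl⟩ ⟨t, l', rfl, hl, rfl⟩ ⟨m, rfl⟩ _ _
    rw [ce_inj _ _ hl, hset_E]
    refine (hset_F A (.eq s t) l m).trans ?_
    simp only [Sat, interp_val]
  flt := by
    rintro _ _ _ _ _ _ ⟨s, l, rfl, rfl, rfl⟩ ⟨t, l', rfl, hl, rfl⟩ ⟨m, rfl⟩ _ _
    rw [ce_inj _ _ hl, hset_L]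
    refine (hset_F A (.lt s t) l m).trans ?_
    simp only [Sat, interp_val]
  fmem := by
    rintro _ i _ _ _ _ ⟨s, l, rfl, rfl, rfl⟩ ⟨m, rfl, rfl⟩ _ _
    rw [hset_M]
    refine (hset_F A (.mem s i) l m).trans ?_
    simp only [Sat, interp_val]
  fneg := by
    rintro _ _ _ ⟨φ, rfl⟩ ⟨l, rfl⟩ ⟨m, rfl⟩ _ _
    refine (hset_F A (.neg φ) l m).trans ?_
    rw [hset_F]; exact Iff.rfl
  fand := by
    rintro _ _ _ _ ⟨φ, rfl⟩ ⟨ψ, rfl⟩ ⟨l, rfl⟩ ⟨m, rfl⟩ _ _ _
    refine (hset_F A (.and φ ψ) l m).trans ?_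
    rw [hset_F, hset_F]; exact Iff.rfl
  fall := by
    rintro i _ k _ _ ⟨φ, rfl⟩ ⟨l, rfl⟩ ⟨m, rfl⟩ _ _ h
    have h1 := (hset_F A (.all i φ) l m).1 h
    refine (hset_F A φ ((i, k) :: l) m).2 ?_
    have h2 := h1 (A.I k)
    have h3 : update (fun j => A.I (lk l j)) i (A.I k) = fun j => A.I (lk ((i, k) :: l) j) := by
      rw [lk_cons]
      funext j
      by_cases hj : j = i
      · subst hj; simp
      · simp [hj]
    rw [← h3]; exact h2
  fallw := by
    rintro i _ _ _ ⟨φ, rfl⟩ ⟨l, rfl⟩ ⟨m, rfl⟩ _ _ h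
    have h1 := (hset_F A φ ((i, wN i φ.code (ce l) (ce m)) :: l) m).1 h
    refine (hset_F A (.all i φ) l m).2 (A.witN i φ l m ?_)
    have h3 : update (fun j => A.I (lk l j)) i (A.I (wN i φ.code (ce l) (ce m))) =
        fun j => A.I (lk ((i, wN i φ.code (ce l) (ce m)) :: l) j) := by
      rw [lk_cons]
      funext j
      by_cases hj : j = i
      · subst hj; simp
      · simp [hj]
    rw [h3]; exact h1
  fallS := by
    rintro i _ k _ _ ⟨φ, rfl⟩ ⟨l, rfl⟩ ⟨m, rfl⟩ _ _ h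
    have h1 := (hset_F A (.allS i φ) l m).1 h
    refine (hset_F A φ l ((i, k) :: m)).2 ?_
    have h2 := h1 (A.J k) (A.sets k)
    have h3 : update (fun j => A.J (lk m j)) i (A.J k) = fun j => A.J (lk ((i, k) :: m) j) := by
      rw [lk_cons]
      funext j
      by_cases hj : j = i
      · subst hj; simp
      · simp [hj]
    rw [← h3]; exact h2
  fallSw := by
    rintro i _ _ _ ⟨φ, rfl⟩ ⟨l, rfl⟩ ⟨m, rfl⟩ _ _ h
    have h1 := (hset_F A φ l ((i, wS i φ.code (ce l) (ce m)) :: m)).1 h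
    refine (hset_F A (.allS i φ) l m).2 (A.witS i φ l m ?_)
    have h3 : update (fun j => A.J (lk m j)) i (A.J (wS i φ.code (ce l) (ce m))) =
        fun j => A.J (lk ((i, wS i φ.code (ce l) (ce m)) :: m) j) := by
      rw [lk_cons]
      funext j
      by_cases hj : j = i
      · subst hj; simp
      · simp [hj]
    rw [h3]; exact h1
  ax := by
    rintro _ ⟨ψ, hψ, rfl⟩ _
    exact (hset_F A ψ [] []).2 (hT ψ hψ _ _ fun j => A.sets _)
  goal := by
    intro _ h
    apply hn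
    have h1 := (hset_F A φ [] []).1 h
    intro v V _
    refine (Sat_congr N φ v _ V _ (fun i hi => ?_) (fun i hi => ?_)).2 h1
    · rw [hφ.1] at hi; exact hi.elim
    · rw [hφ.2] at hi; exact hi.elim

end

end Q204.RF
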