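import Pool.Agent.Q204.RF.Truth

set_option autoImplicit false
set_option synthInstance.maxSize 8000

/-!
Henkin sets: a propositional description of the structures for `L_2`.
-/

namespace Q204.RF

open Pool.Agent.H986R3.SOA Function

/-! ### values of terms -/

/-- the constant denoted by a term in an environment -/
def evC (ρ : ℕ → ℕ) : Tm → ℕ
  | .var i => ρ i
  | .zero => pr 1 0
  | .one => pr 2 0
  | .add s t => addC (evC ρ s) (evC ρ t)
  | .mul s t => mulC (evC ρ s) (evC ρ t)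

def TV (s e a : ℕ) : Prop := ∃ (t : Tm) (l : List (ℕ × ℕ)), t.code = s ∧ ce l = e ∧ evC (lk l) t = a

def PTV (n : ℕ) : Prop := ∃ s e a, n = pr (pr s e) a ∧ TV s e a

def GTV (Q : ℕ → Prop) (n : ℕ) : Prop :=
  ∃ s e a, n = pr (pr s e) a ∧
    ((∃ i k e', s = varC i ∧ e = consC i k e' ∧ IsEnv e' ∧ a = k) ∨
    (∃ i j k e', s = varC j ∧ e = consC i k e' ∧ j ≠ i ∧ Q (pr (pr s e') a)) ∨
    (∃ j, s = varC j ∧ e = 0 ∧ a = 0) ∨
    (s = pr 1 0 ∧ IsEnv e ∧ a = pr 1 0) ∨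
    (s = pr 2 0 ∧ IsEnv e ∧ a = pr 2 0) ∨
    (∃ s1 s2 a1 a2, s = addC s1 s2 ∧ a = addC a1 a2 ∧ Q (pr (pr s1 e) a1) ∧ Q (pr (pr s2 e) a2)) ∨
    ∃ s1 s2 a1 a2, s = mulC s1 s2 ∧ a = mulC a1 a2 ∧ Q (pr (pr s1 e) a1) ∧ Q (pr (pr s2 e) a2))

theorem PTV_pr (s e a : ℕ) : PTV (pr (pr s e) a) ↔ TV s e a := by
  constructor
  · rintro ⟨s', e', a', h, h'⟩
    obtain ⟨h1, rfl⟩ := pr_inj h
    obtain ⟨rfl, rfl⟩ := pr_inj h1
    exact h'
  · intro h
    exact ⟨s, e, a, rfl, h⟩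

theorem GTV_iff (n : ℕ) : PTV n ↔ GTV PTV n := by
  unfold GTV
  simp only [PTV_pr]
  constructor
  · rintro ⟨s, e, a, rfl, t, l, rfl, rfl, rfl⟩
    refine ⟨_, _, _, rfl, ?_⟩
    cases t with
    | var j =>
      cases l with
      | nil => exact Or.inr (Or.inr (Or.inl ⟨j, rfl, rfl, rfl⟩))
      | cons q l =>
        obtain ⟨i, k⟩ := q
        by_cases h : j = i
        · subst h
          exact Or.inl ⟨j, k, ce l, rfl, rfl, ⟨l, rfl⟩, by simp [evC, lk]⟩
        · exact Or.inr (Or.inl ⟨i, j, k, ce l, rfl, rfl, h, .var j, l, rfl, rfl, by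
            simp [evC, lk, h]⟩)
    | zero => exact Or.inr (Or.inr (Or.inr (Or.inl ⟨rfl, ⟨l, rfl⟩, rfl⟩)))
    | one => exact Or.inr (Or.inr (Or.inr (Or.inr (Or.inl ⟨rfl, ⟨l, rfl⟩, rfl⟩))))
    | add s t =>
      exact Or.inr (Or.inr (Or.inr (Or.inr (Or.inr (Or.inl ⟨_, _, _, _, rfl, rfl,
        ⟨s, l, rfl, rfl, rfl⟩, ⟨t, l, rfl, rfl, rfl⟩⟩)))))
    | mul s t =>
      exact Or.inr (Or.inr (Or.inr (Or.inr (Or.inr (Or.inr ⟨_, _, _, _, rfl, rfl,
        ⟨s, l, rfl, rfl, rfl⟩, ⟨t, l, rfl, rfl, rfl⟩⟩)))))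
  · rintro ⟨s, e, a, rfl, h⟩
    refine ⟨s, e, a, rfl, ?_⟩
    rcases h with ⟨i, k, _, rfl, rfl, ⟨l, rfl⟩, rfl⟩ |
      ⟨i, j, k, _, rfl, rfl, h, t, l, ht, rfl, rfl⟩ |
      ⟨j, rfl, rfl, rfl⟩ | ⟨rfl, ⟨l, rfl⟩, rfl⟩ | ⟨rfl, ⟨l, rfl⟩, rfl⟩ |
      ⟨_, _, _, _, rfl, rfl, ⟨s, l, rfl, rfl, rfl⟩, ⟨t, l', rfl, hl, rfl⟩⟩ |
      ⟨_, _, _, _, rfl, rfl, ⟨s, l, rfl, rfl, rfl⟩, ⟨t, l', rfl, hl, rfl⟩⟩
    · exact ⟨.var i, (i, a) :: l, rfl, rfl, by simp [evC, lk]⟩
    · have : t = .var j := Tm.code_inj _ _ ht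
      subst this
      exact ⟨.var j, (i, k) :: l, rfl, rfl, by simp [evC, lk, h]⟩
    · exact ⟨.var j, [], rfl, rfl, rfl⟩
    · exact ⟨.zero, l, rfl, rfl, rfl⟩
    · exact ⟨.one, l, rfl, rfl, rfl⟩
    · rw [ce_inj _ _ hl]
      exact ⟨.add s t, l, rfl, rfl, rfl⟩
    · rw [ce_inj _ _ hl]
      exact ⟨.mul s t, l, rfl, rfl, rfl⟩

theorem pr_lt_pr_right (i : ℕ) {a a' : ℕ} (h : a < a') : pr i a < pr i a' := by
  unfold pr
  nlinarith

theorem pr_lt_pr {a a' b b' : ℕ} (h : a < a') (h' : b < b') : pr a b < pr a' b' :=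
  (pr_lt_pr_left h b).trans (pr_lt_pr_right a' h')

theorem GTV_loc (Q Q' : ℕ → Prop) (n : ℕ) (h : ∀ m < n, (Q m ↔ Q' m)) : GTV Q n ↔ GTV Q' n := by
  unfold GTV
  refine exists_congr fun s => exists_congr fun e => exists_congr fun a =>
    and_congr_right fun hn => ?_
  subst hn
  refine or_congr Iff.rfl (or_congr ?_ (or_congr Iff.rfl (or_congr Iff.rfl (or_congr Iff.rfl
    (or_congr ?_ ?_)))))
  · refine exists_congr fun i => exists_congr fun j => exists_congr fun k => exists_congr fun e' =>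
      and_congr_right fun hs => and_congr_right fun he => and_congr_right fun _ => ?_
    subst hs; subst he
    exact h _ (pr_lt_pr_left (pr_lt_pr_right _ (lt_consC _ _ _)) _)
  all_goals
    refine exists_congr fun s1 => exists_congr fun s2 => exists_congr fun a1 =>
      exists_congr fun a2 => and_congr_right fun hs => and_congr_right fun he => ?_
    subst hs; subst he
    refine and_congr ?_ ?_
    · exact h _ (pr_lt_pr (pr_lt_pr_left (lt_pr_pr_left (by norm_num) _ _) _)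
        (lt_pr_pr_left (by norm_num) _ _))
    · exact h _ (pr_lt_pr (pr_lt_pr_left (lt_pr_pr_right (by norm_num) _ _) _)
        (lt_pr_pr_right (by norm_num) _ _))

theorem Def.PTV0 : Def (fun v _ => Q204.RF.PTV (v 0)) := by
  refine Def.recursion GTV GTV_loc GTV_iff ?_
  unfold GTV
  infer_instance

instance Def.TV (f g h : (ℕ → ℕ) → ℕ) [DTm f] [DTm g] [DTm h] :
    Def (fun v _ => Q204.RF.TV (f v) (g v) (h v)) :=
  (Def.comp1 (P := Q204.RF.PTV) Def.PTV0 (fun v => pr (pr (f v) (g v)) (h v))).congr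
    fun _ _ => (PTV_pr _ _ _).symm

/-! ### values of set variables -/

def LK (i f k : ℕ) : Prop := ∃ l : List (ℕ × ℕ), ce l = f ∧ lk l i = k

def PLK (n : ℕ) : Prop := ∃ i f k, n = pr (pr i f) k ∧ LK i f k

def GLK (Q : ℕ → Prop) (n : ℕ) : Prop :=
  ∃ i f k, n = pr (pr i f) k ∧
    ((∃ f', f = consC i k f' ∧ IsEnv f') ∨
    (∃ i' k' f', f = consC i' k' f' ∧ i ≠ i' ∧ Q (pr (pr i f') k)) ∨
    (f = 0 ∧ k = 0))

theorem PLK_pr (s e a : ℕ) : PLK (pr (pr s e) a) ↔ LK s e a := by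
  constructor
  · rintro ⟨s', e', a', h, h'⟩
    obtain ⟨h1, rfl⟩ := pr_inj h
    obtain ⟨rfl, rfl⟩ := pr_inj h1
    exact h'
  · intro h
    exact ⟨s, e, a, rfl, h⟩

theorem GLK_iff (n : ℕ) : PLK n ↔ GLK PLK n := by
  unfold GLK
  simp only [PLK_pr]
  constructor
  · rintro ⟨i, f, k, rfl, l, rfl, rfl⟩
    refine ⟨_, _, _, rfl, ?_⟩
    cases l with
    | nil => exact Or.inr (Or.inr ⟨rfl, rfl⟩)
    | cons q l =>
      obtain ⟨j, k⟩ := q
      by_cases h : i = j
      · subst h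
        refine Or.inl ⟨ce l, ?_, ⟨l, rfl⟩⟩
        simp [lk, ce]
      · exact Or.inr (Or.inl ⟨j, k, ce l, rfl, h, l, rfl, by simp [lk, h]⟩)
  · rintro ⟨i, f, k, rfl, h⟩
    refine ⟨i, f, k, rfl, ?_⟩
    rcases h with ⟨_, rfl, ⟨l, rfl⟩⟩ | ⟨j, k', _, rfl, h, l, rfl, rfl⟩ | ⟨rfl, rfl⟩
    · exact ⟨(i, k) :: l, rfl, by simp [lk]⟩
    · exact ⟨(j, k') :: l, rfl, by simp [lk, h]⟩
    · exact ⟨[], rfl, rfl⟩

theorem GLK_loc (Q Q' : ℕ → Prop) (n : ℕ) (h : ∀ m < n, (Q m ↔ Q' m)) : GLK Q n ↔ GLK Q' n := by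
  unfold GLK
  refine exists_congr fun s => exists_congr fun e => exists_congr fun a =>
    and_congr_right fun hn => ?_
  subst hn
  refine or_congr Iff.rfl (or_congr ?_ Iff.rfl)
  refine exists_congr fun i => exists_congr fun j => exists_congr fun k =>
      and_congr_right fun hs => and_congr_right fun he => ?_
  subst hs
  exact h _ (pr_lt_pr_left (pr_lt_pr_right _ (lt_consC _ _ _)) _)

theorem Def.PLK0 : Def (fun v _ => Q204.RF.PLK (v 0)) := by
  refine Def.recursion GLK GLK_loc GLK_iff ?_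
  unfold GLK
  infer_instance

instance Def.LK (f g h : (ℕ → ℕ) → ℕ) [DTm f] [DTm g] [DTm h] :
    Def (fun v _ => Q204.RF.LK (f v) (g v) (h v)) :=
  (Def.comp1 (P := Q204.RF.PLK) Def.PLK0 (fun v => pr (pr (f v) (g v)) (h v))).congr
    fun _ _ => (PLK_pr _ _ _).symm

/-! ### Henkin sets -/

def hE (a b : ℕ) : ℕ := pr 0 (pr a b)
def hL (a b : ℕ) : ℕ := pr 1 (pr a b)
def hM (a k : ℕ) : ℕ := pr 2 (pr a k)
def hF (x e f : ℕ) : ℕ := pr 3 (pr x (pr e f))

section
variable (f g h : (ℕ → ℕ) → ℕ) [DTm f] [DTm g] [DTm h]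
instance : DTm (fun v => hE (f v) (g v)) := by unfold hE; infer_instance
instance : DTm (fun v => hL (f v) (g v)) := by unfold hL; infer_instance
instance : DTm (fun v => hM (f v) (g v)) := by unfold hM; infer_instance
instance : DTm (fun v => hF (f v) (g v) (h v)) := by unfold hF; infer_instance
end

/-- the witness for a number quantifier -/
def wN (i x e f : ℕ) : ℕ := varC (pr (allC i x) (pr e f))
/-- the witness for a set quantifier -/
def wS (i x e f : ℕ) : ℕ := pr (allSC i x) (pr e f)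

instance (f g h k : (ℕ → ℕ) → ℕ) [DTm f] [DTm g] [DTm h] [DTm k] :
    DTm (fun v => wN (f v) (g v) (h v) (k v)) := by unfold wN; infer_instance
instance (f g h k : (ℕ → ℕ) → ℕ) [DTm f] [DTm g] [DTm h] [DTm k] :
    DTm (fun v => wS (f v) (g v) (h v) (k v)) := by unfold wS; infer_instance

/-- The set `H` of atoms satisfies all clauses whose atoms are in `g`. -/
structure Good (g Ax : ℕ → Prop) (x0 : ℕ) (H : ℕ → Prop) : Prop where
  refl : ∀ a, g (hE a a) → H (hE a a)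
  symm : ∀ a b, g (hE a b) → g (hE b a) → H (hE a b) → H (hE b a)
  trans : ∀ a b c, g (hE a b) → g (hE b c) → g (hE a c) → H (hE a b) → H (hE b c) → H (hE a c)
  cadd : ∀ a a' b b', g (hE a a') → g (hE b b') → g (hE (addC a b) (addC a' b')) →
    H (hE a a') → H (hE b b') → H (hE (addC a b) (addC a' b'))
  cmul : ∀ a a' b b', g (hE a a') → g (hE b b') → g (hE (mulC a b) (mulC a' b')) →
    H (hE a a') → H (hE b b') → H (hE (mulC a b) (mulC a' b'))
  clt : ∀ a a' b b', g (hE a a') → g (hE b b') → g (hL a b) → g (hL a' b') →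
    H (hE a a') → H (hE b b') → H (hL a b) → H (hL a' b')
  cmem : ∀ a a' k, g (hE a a') → g (hM a k) → g (hM a' k) → H (hE a a') → H (hM a k) → H (hM a' k)
  feq : ∀ s t e f a b, TV s e a → TV t e b → IsEnv f → g (hF (pr 0 (pr s t)) e f) → g (hE a b) →
    (H (hF (pr 0 (pr s t)) e f) ↔ H (hE a b))
  flt : ∀ s t e f a b, TV s e a → TV t e b → IsEnv f → g (hF (pr 1 (pr s t)) e f) → g (hL a b) →
    (H (hF (pr 1 (pr s t)) e f) ↔ H (hL a b))
  fmem : ∀ s i e f a k, TV s e a → LK i f k → g (hF (memC s i) e f) → g (hM a k) →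
    (H (hF (memC s i) e f) ↔ H (hM a k))
  fneg : ∀ x e f, IsFm x → IsEnv e → IsEnv f → g (hF (negC x) e f) → g (hF x e f) →
    (H (hF (negC x) e f) ↔ ¬ H (hF x e f))
  fand : ∀ x y e f, IsFm x → IsFm y → IsEnv e → IsEnv f → g (hF (andC x y) e f) →
    g (hF x e f) → g (hF y e f) → (H (hF (andC x y) e f) ↔ H (hF x e f) ∧ H (hF y e f))
  fall : ∀ i x k e f, IsFm x → IsEnv e → IsEnv f → g (hF (allC i x) e f) →
    g (hF x (consC i k e) f) → H (hF (allC i x) e f) → H (hF x (consC i k e) f)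
  fallw : ∀ i x e f, IsFm x → IsEnv e → IsEnv f → g (hF (allC i x) e f) →
    g (hF x (consC i (wN i x e f) e) f) → H (hF x (consC i (wN i x e f) e) f) →
      H (hF (allC i x) e f)
  fallS : ∀ i x k e f, IsFm x → IsEnv e → IsEnv f → g (hF (allSC i x) e f) →
    g (hF x e (consC i k f)) → H (hF (allSC i x) e f) → H (hF x e (consC i k f))
  fallSw : ∀ i x e f, IsFm x → IsEnv e → IsEnv f → g (hF (allSC i x) e f) →
    g (hF x e (consC i (wS i x e f) f)) → H (hF x e (consC i (wS i x e f) f)) →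
      H (hF (allSC i x) e f)
  ax : ∀ y, Ax y → g (hF y 0 0) → H (hF y 0 0)
  goal : g (hF x0 0 0) → ¬ H (hF x0 0 0)

section limit
open Filter

theorem Good.lim {ι : Type} (U : Ultrafilter ι) {g : ι → ℕ → Prop} {Ax : ι → ℕ → Prop}
    {Ax' : ℕ → Prop} {x0 : ℕ} {H : ι → ℕ → Prop} (hg : ∀ n, ∀ᶠ i in U, g i n)
    (hA : ∀ y, Ax' y → ∀ᶠ i in U, Ax i y) (hG : ∀ i, Good (g i) (Ax i) x0 (H i)) :
    Good (fun _ => True) Ax' x0 (fun n => ∀ᶠ i in U, H i n) where
  refl a _ := by filter_upwards [hg (hE a a)] with i h using (hG i).refl a h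
  symm a b _ _ h := by
    filter_upwards [hg (hE a b), hg (hE b a), h] with i h1 h2 h3 using (hG i).symm a b h1 h2 h3
  trans a b c _ _ _ h h' := by
    filter_upwards [hg (hE a b), hg (hE b c), hg (hE a c), h, h'] with i h1 h2 h3 h4 h5
      using (hG i).trans a b c h1 h2 h3 h4 h5
  cadd a a' b b' _ _ _ h h' := by
    filter_upwards [hg (hE a a'), hg (hE b b'), hg (hE (addC a b) (addC a' b')), h, h']
      with i h1 h2 h3 h4 h5 using (hG i).cadd a a' b b' h1 h2 h3 h4 h5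
  cmul a a' b b' _ _ _ h h' := by
    filter_upwards [hg (hE a a'), hg (hE b b'), hg (hE (mulC a b) (mulC a' b')), h, h']
      with i h1 h2 h3 h4 h5 using (hG i).cmul a a' b b' h1 h2 h3 h4 h5
  clt a a' b b' _ _ _ _ h h' h'' := by
    filter_upwards [hg (hE a a'), hg (hE b b'), hg (hL a b), hg (hL a' b'), h, h', h'']
      with i h1 h2 h3 h4 h5 h6 h7 using (hG i).clt a a' b b' h1 h2 h3 h4 h5 h6 h7
  cmem a a' k _ _ _ h h' := by
    filter_upwards [hg (hE a a'), hg (hM a k), hg (hM a' k), h, h']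
      with i h1 h2 h3 h4 h5 using (hG i).cmem a a' k h1 h2 h3 h4 h5
  feq s t e f a b h h' h'' _ _ := by
    have key : ∀ᶠ i in U, (H i (hF (pr 0 (pr s t)) e f) ↔ H i (hE a b)) := by
      filter_upwards [hg (hF (pr 0 (pr s t)) e f), hg (hE a b)] with i h1 h2
        using (hG i).feq s t e f a b h h' h'' h1 h2
    exact eventually_congr key
  flt s t e f a b h h' h'' _ _ := by
    have key : ∀ᶠ i in U, (H i (hF (pr 1 (pr s t)) e f) ↔ H i (hL a b)) := by
      filter_upwards [hg (hF (pr 1 (pr s t)) e f), hg (hL a b)] with i h1 h2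
        using (hG i).flt s t e f a b h h' h'' h1 h2
    exact eventually_congr key
  fmem s j e f a k h h' _ _ := by
    have key : ∀ᶠ i in U, (H i (hF (memC s j) e f) ↔ H i (hM a k)) := by
      filter_upwards [hg (hF (memC s j) e f), hg (hM a k)] with i h1 h2
        using (hG i).fmem s j e f a k h h' h1 h2
    exact eventually_congr key
  fneg x e f h h' h'' _ _ := by
    have key : ∀ᶠ i in U, (H i (hF (negC x) e f) ↔ ¬ H i (hF x e f)) := by
      filter_upwards [hg (hF (negC x) e f), hg (hF x e f)] with i h1 h2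
        using (hG i).fneg x e f h h' h'' h1 h2
    exact (eventually_congr key).trans Ultrafilter.eventually_not
  fand x y e f h h' h'' h''' _ _ _ := by
    have key : ∀ᶠ i in U, (H i (hF (andC x y) e f) ↔ H i (hF x e f) ∧ H i (hF y e f)) := by
      filter_upwards [hg (hF (andC x y) e f), hg (hF x e f), hg (hF y e f)] with i h1 h2 h3
        using (hG i).fand x y e f h h' h'' h''' h1 h2 h3
    exact (eventually_congr key).trans eventually_and
  fall j x k e f h h' h'' _ _ h3 := by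
    filter_upwards [hg (hF (allC j x) e f), hg (hF x (consC j k e) f), h3] with i h4 h5 h6
      using (hG i).fall j x k e f h h' h'' h4 h5 h6
  fallw j x e f h h' h'' _ _ h3 := by
    filter_upwards [hg (hF (allC j x) e f), hg (hF x (consC j (wN j x e f) e) f), h3]
      with i h4 h5 h6 using (hG i).fallw j x e f h h' h'' h4 h5 h6
  fallS j x k e f h h' h'' _ _ h3 := by
    filter_upwards [hg (hF (allSC j x) e f), hg (hF x e (consC j k f)), h3] with i h4 h5 h6
      using (hG i).fallS j x k e f h h' h'' h4 h5 h6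
  fallSw j x e f h h' h'' _ _ h3 := by
    filter_upwards [hg (hF (allSC j x) e f), hg (hF x e (consC j (wS j x e f) f)), h3]
      with i h4 h5 h6 using (hG i).fallSw j x e f h h' h'' h4 h5 h6
  ax y h _ := by
    filter_upwards [hg (hF y 0 0), hA y h] with i h1 h2 using (hG i).ax y h2 h1
  goal _ h := by
    have : ∀ᶠ i in (U : Filter ι), False := by
      filter_upwards [hg (hF x0 0 0), h] with i h1 h2 using (hG i).goal h1 h2
    simp at this
    exact U.neBot.ne this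

end limit

end Q204.RF
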