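import Pool.Agent.Q204.RF.Prov
import Pool.Agent.H986R3.SOAGamma

set_option autoImplicit false
set_option synthInstance.maxSize 8000

/-!
`Pi^1_1`-definable theories proving their own `Pi^1_1`-soundness.
-/

namespace Q204.RF

open Pool.Agent.H986R3.SOA Function

/-! ### the diagonal lemma -/

def NC (n c : ℕ) : Prop := (numeral n).code = c

def PNC (k : ℕ) : Prop := ∃ n c, k = pr n c ∧ NC n c

def GNC (Q : ℕ → Prop) (k : ℕ) : Prop :=
  ∃ n c, k = pr n c ∧ ((n = 0 ∧ c = pr 1 0) ∨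
    ∃ m d, n = m + 1 ∧ c = addC d (pr 2 0) ∧ Q (pr m d))

theorem PNC_pr (n c : ℕ) : PNC (pr n c) ↔ NC n c := by
  constructor
  · rintro ⟨n', c', h, h'⟩
    obtain ⟨rfl, rfl⟩ := pr_inj h
    exact h'
  · exact fun h => ⟨n, c, rfl, h⟩

theorem GNC_iff (k : ℕ) : PNC k ↔ GNC PNC k := by
  unfold GNC
  simp only [PNC_pr]
  constructor
  · rintro ⟨n, c, rfl, rfl⟩
    refine ⟨_, _, rfl, ?_⟩
    cases n with
    | zero => exact Or.inl ⟨rfl, rfl⟩
    | succ n => exact Or.inr ⟨n, _, rfl, rfl, rfl⟩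
  · rintro ⟨n, c, rfl, h⟩
    refine ⟨n, c, rfl, ?_⟩
    rcases h with ⟨rfl, rfl⟩ | ⟨m, d, rfl, rfl, rfl⟩
    · rfl
    · rfl

theorem GNC_loc (Q Q' : ℕ → Prop) (n : ℕ) (h : ∀ m < n, (Q m ↔ Q' m)) : GNC Q n ↔ GNC Q' n := by
  unfold GNC
  refine exists_congr fun a => exists_congr fun b => and_congr_right fun hs => ?_
  subst hs
  refine or_congr Iff.rfl ?_
  refine exists_congr fun m => exists_congr fun d => and_congr_right fun hm =>
    and_congr_right fun hd => ?_
  subst hm; subst hd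
  exact h _ (pr_lt_pr (Nat.lt_succ_self _) (lt_pr_pr_left (by norm_num) _ _))

instance Def.NC (f g : (ℕ → ℕ) → ℕ) [DTm f] [DTm g] :
    Def (fun v _ => Q204.RF.NC (f v) (g v)) := by
  have h0 : Def (fun v _ => Q204.RF.PNC (v 0)) := by
    refine Def.recursion GNC GNC_loc GNC_iff ?_
    unfold GNC
    infer_instance
  exact (Def.comp1 (P := Q204.RF.PNC) h0 (fun v => pr (f v) (g v))).congr
    fun _ _ => (PNC_pr _ _).symm

theorem gam_dtm (f g : (ℕ → ℕ) → ℕ) [DTm f] [DTm g] : DTm (fun v => gam 0 (f v) (g v)) := by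
  unfold gam
  infer_instance

theorem numeral_fv' (n : ℕ) : (numeral n).fv = ∅ := by
  induction n with
  | zero => rfl
  | succ n ih => simp [numeral, Tm.fv, ih]

/-- The diagonal lemma for the negations of `Sigma^1_1` properties. -/
theorem diagonal (R : ℕ → Set ℕ → Prop) (hR : Def (fun v Z => R (v 0) Z)) :
    ∃ θ : Fm, θ.Arithmetical ∧ (Fm.allS 0 θ).IsSentence ∧
      (std.Holds (.allS 0 θ) ↔ ∀ Z, ¬ R (Fm.allS 0 θ).code Z) := by
  have h1 : Def (fun v Z => ∀ x, x = v 3 → ∀ y, NC x y → ∀ z, z = gam 0 y x → ¬ R z Z) := by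
    have := gam_dtm (fun v => v 1) (fun v => v 2)
    have a0 : Def (fun v Z => v 0 = gam 0 (v 1) (v 2) → ¬ R (v 0) Z) := inferInstance
    have a1 : Def (fun v Z => ∀ z, z = gam 0 (v 0) (v 1) → ¬ R z Z) :=
      @Def.all (fun v Z z => z = gam 0 (v 0) (v 1) → ¬ R z Z) a0
    have a2 : Def (fun v Z => NC (v 1) (v 0) → ∀ z, z = gam 0 (v 0) (v 1) → ¬ R z Z) :=
      Def.imp _ _
    have a3 : Def (fun v Z => ∀ y, NC (v 0) y → ∀ z, z = gam 0 y (v 0) → ¬ R z Z) :=
      @Def.all (fun v Z y => NC (v 0) y → ∀ z, z = gam 0 y (v 0) → ¬ R z Z) a2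
    have a4 : Def (fun v Z => v 0 = v 4 → ∀ y, NC (v 0) y → ∀ z, z = gam 0 y (v 0) → ¬ R z Z) :=
      Def.imp _ _
    exact @Def.all (fun v Z x => x = v 3 → ∀ y, NC x y → ∀ z, z = gam 0 y x → ¬ R z Z) a4
  obtain ⟨H, b1, b2, b3, b4⟩ := h1.formula true {3} (by
    intro v v' Z h
    rw [h 3 (by simp)])
  refine ⟨.all 3 (.imp (.eq (.var 3) (numeral H.code)) H), ?_, ?_, ?_⟩
  · exact ⟨trivial, b1⟩
  · refine ⟨?_, ?_⟩
    · show ((({3} : Set ℕ) ∪ (numeral H.code).fv) ∪ H.fvN) \ {3} = ∅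
      rw [numeral_fv']
      refine Set.sdiff_eq_empty.2 ?_
      refine Set.union_subset ?_ ?_
      · simp
      · simpa using b2
    · show ((∅ : Set ℕ) ∪ H.fvS) \ {0} = ∅
      refine Set.sdiff_eq_empty.2 ?_
      refine Set.union_subset (Set.empty_subset _) ?_
      simpa using b3
  · have hcode : (Fm.allS 0 (.all 3 (.imp (.eq (.var 3) (numeral H.code)) H))).code =
        gam 0 (numeral H.code).code H.code := code_Gam 0 H.code H
    have key : ∀ (v : ℕ → ℕ) (V : ℕ → Set ℕ),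
        evF v V (.allS 0 (.all 3 (.imp (.eq (.var 3) (numeral H.code)) H))) ↔
          ∀ Z, ¬ R (gam 0 (numeral H.code).code H.code) Z := by
      intro v V
      show (∀ A : Set ℕ, ∀ a : ℕ, evF (update v 3 a) (update V 0 A)
        (.imp (.eq (.var 3) (numeral H.code)) H)) ↔ _
      refine forall_congr' fun Z => ?_
      have e1 : ∀ a : ℕ, evF (update v 3 a) (update V 0 Z)
          (.imp (.eq (.var 3) (numeral H.code)) H) ↔ (a = H.code →
            evF (update v 3 a) (update V 0 Z) H) := by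
        intro a
        show (¬ ((evT (update v 3 a) (.var 3) = evT (update v 3 a) (numeral H.code)) ∧
          ¬ evF (update v 3 a) (update V 0 Z) H)) ↔ _
        rw [evT_numeral]
        have : evT (update v 3 a) (.var 3) = a := by simp [evT]
        rw [this]
        tauto
      simp only [e1, forall_eq, b4, if_true, update_self]
      unfold NC
      simp
    rw [hcode]
    constructor
    · intro h
      have h2 := h (fun _ => (0 : ℕ)) (fun _ => (∅ : Set ℕ)) (fun _ => trivial)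
      exact (key _ _).1 ((evF_std _ _ _).1 h2)
    · intro h v V _
      exact (evF_std _ _ _).2 ((key _ _).2 h)

/-! ### the theory `Sigma^1_1-AC_0` is true -/

theorem evF_imp (v : ℕ → ℕ) (V : ℕ → Set ℕ) (φ ψ : Fm) :
    evF v V (φ.imp ψ) ↔ (evF v V φ → evF v V ψ) := by
  simp only [Fm.imp, evF]; tauto

theorem evF_exS (v : ℕ → ℕ) (V : ℕ → Set ℕ) (i : ℕ) (φ : Fm) :
    evF v V (φ.exS i) ↔ ∃ A : Set ℕ, evF v (update V i A) φ := by
  show (¬ ∀ A : Set ℕ, ¬ evF v (update V i A) φ) ↔ _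
  push Not
  rfl

theorem evF_iff' (v : ℕ → ℕ) (V : ℕ → Set ℕ) (φ ψ : Fm) :
    evF v V (φ.iff ψ) ↔ (evF v V φ ↔ evF v V ψ) := by
  simp only [Fm.iff, evF, evF_imp]; tauto

theorem holds_of_evF {φ : Fm} (h : ∀ (v : ℕ → ℕ) (V : ℕ → Set ℕ), evF v V φ) : std.Holds φ :=
  fun v V _ => (evF_std φ v V).2 (h v V)

theorem evF_of_holds {φ : Fm} (h : std.Holds φ) (v : ℕ → ℕ) (V : ℕ → Set ℕ) : evF v V φ :=
  (evF_std φ v V).1 (h v V fun _ => trivial)

theorem std_aca (φ : Fm) (h : ACA0 φ) : std.Holds φ := by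
  apply holds_of_evF
  intro v V
  cases h with
  | succ_ne_zero =>
    show ¬ (v 0 + 1 = 0)
    omega
  | succ_inj =>
    show ¬ ((v 0 + 1 = v 1 + 1) ∧ ¬ (v 0 = v 1))
    omega
  | add_zero =>
    show v 0 + 0 = v 0
    omega
  | add_succ =>
    show v 0 + (v 1 + 1) = v 0 + v 1 + 1
    omega
  | mul_zero =>
    show v 0 * 0 = 0
    omega
  | mul_succ =>
    show v 0 * (v 1 + 1) = v 0 * v 1 + v 0
    ring
  | not_lt_zero =>
    show ¬ (v 0 < 0)
    omega
  | lt_succ =>
    show ¬ ((v 0 < v 1 + 1) ∧ ¬ ¬ (¬ (v 0 < v 1) ∧ ¬ (v 0 = v 1))) ∧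
      ¬ (¬ (¬ (v 0 < v 1) ∧ ¬ (v 0 = v 1)) ∧ ¬ (v 0 < v 1 + 1))
    omega
  | induction =>
    show ¬ ((0 ∈ V 0 ∧ ∀ a : ℕ, ¬ ((update v 0 a) 0 ∈ V 0 ∧ ¬ ((update v 0 a) 0 + 1 ∈ V 0))) ∧
      ¬ ∀ a : ℕ, (update v 0 a) 0 ∈ V 0)
    simp only [update_self]
    rintro ⟨⟨h0, h1⟩, h2⟩
    apply h2
    intro a
    induction a with
    | zero => exact h0
    | succ a ih =>
      by_contra hc
      exact h1 a ⟨ih, hc⟩
  | comprehension φ i j h1 h2 =>
    have hex : ∃ A : Set ℕ, evF v (update V j A) (.all i (.iff (.mem (.var i) j) φ)) := by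
      refine ⟨{a | evF (update v i a) V φ}, fun a => ?_⟩
      rw [evF_iff']
      have h3 : evF (update v i a) (update V j {a | evF (update v i a) V φ}) φ ↔
          evF (update v i a) V φ := by
        refine evF_congr φ _ _ _ _ (fun _ _ => rfl) (fun k hk => ?_)
        rw [update_of_ne]
        rintro rfl
        exact h2 hk
      rw [h3]
      simp [evF, evT]
    intro hall
    obtain ⟨A, hA⟩ := hex
    exact hall A hA

theorem std_sigmaAC (φ : Fm) (h : SigmaAC φ) : std.Holds φ := by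
  cases h with
  | aca φ h => exact std_aca φ h
  | choice φ n m X Z h1 h2 h3 h4 =>
    apply holds_of_evF
    intro v V
    rw [evF_imp]
    intro hall
    have h5 : ∀ a : ℕ, ∃ A : Set ℕ, evF (update v n a) (update V X A) φ := fun a =>
      (evF_exS _ _ _ _).1 (hall a)
    choose A hA using h5
    rw [evF_exS]
    refine ⟨{z | ∃ a b, z = pr a b ∧ b ∈ A a}, fun a => ?_⟩
    rw [evF_exS]
    refine ⟨A a, ?_, ?_⟩
    · intro b
      rw [evF_iff']
      simp only [evF]
      rw [update_self, update_of_ne h3, update_self]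
      have e1 : evT (update (update v n a) m b) (.var m) = b := by simp [evT]
      have e2 : evT (update (update v n a) m b) (pairTm (.var n) (.var m)) = pr a b := by
        simp [evT, pairTm, pr, update_of_ne (Ne.symm h2)]
      rw [e1, e2]
      constructor
      · intro hb; exact ⟨a, b, rfl, hb⟩
      · rintro ⟨a', b', hab, hb⟩
        obtain ⟨rfl, rfl⟩ := pr_inj hab
        exact hb
    · refine (evF_congr φ _ _ _ _ (fun _ _ => rfl) (fun k hk => ?_)).1 (hA a)
      by_cases hkX : k = X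
      · subst hkX; simp
      · have hkZ : k ≠ Z := by rintro rfl; exact h4 hk
        rw [update_of_ne hkX, update_of_ne hkX, update_of_ne hkZ]

theorem holds_all (M : Model) (i : ℕ) (φ : Fm) (h : M.Holds φ) : M.Holds (.all i φ) :=
  fun _ _ hV _ => h _ _ hV

theorem holds_allS (M : Model) (i : ℕ) (φ : Fm) (h : M.Holds φ) : M.Holds (.allS i φ) := by
  intro v V hV A hA
  refine h _ _ fun j => ?_
  by_cases hj : j = i
  · subst hj; rw [update_self]; exact hA
  · rw [update_of_ne hj]; exact hV j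

theorem holds_gen (M : Model) {φ ψ : Fm} (h : Gen φ ψ) (hφ : M.Holds φ) : M.Holds ψ := by
  induction h with
  | refl => exact hφ
  | all i ψ _ ih => exact holds_all M i ψ ih
  | allS i ψ _ ih => exact holds_allS M i ψ ih

theorem std_sigmaAC0 (φ : Fm) (h : φ ∈ SigmaAC0) : std.Holds φ := by
  obtain ⟨_, ψ, h1, h2⟩ := h
  exact holds_gen std h2 (std_sigmaAC ψ h1)

end Q204.RF
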