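import Pool.Agent.Q204.RF.HModel

set_option autoImplicit false
set_option synthInstance.maxSize 20000

/-!
An arithmetical proof predicate that is correct in the standard model.
-/

namespace Q204.RF

open Pool.Agent.H986R3.SOA Function

/-- The clauses as one conjunction. -/
def GoodC (g Ax : ℕ → Prop) (x0 : ℕ) (H : ℕ → Prop) : Prop :=
  ((∀ a, g (hE a a) → H (hE a a)) ∧
  (∀ a b, g (hE a b) → g (hE b a) → H (hE a b) → H (hE b a)) ∧
  (∀ a b c, g (hE a b) → g (hE b c) → g (hE a c) → H (hE a b) → H (hE b c) → H (hE a c)) ∧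
  (∀ a a' b b', g (hE a a') → g (hE b b') → g (hE (addC a b) (addC a' b')) →
    H (hE a a') → H (hE b b') → H (hE (addC a b) (addC a' b'))) ∧
  (∀ a a' b b', g (hE a a') → g (hE b b') → g (hE (mulC a b) (mulC a' b')) →
    H (hE a a') → H (hE b b') → H (hE (mulC a b) (mulC a' b'))) ∧
  (∀ a a' b b', g (hE a a') → g (hE b b') → g (hL a b) → g (hL a' b') →
    H (hE a a') → H (hE b b') → H (hL a b) → H (hL a' b')) ∧
  (∀ a a' k, g (hE a a') → g (hM a k) → g (hM a' k) → H (hE a a') → H (hM a k) → H (hM a' k))) ∧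
  ((∀ s t e f a b, TV s e a → TV t e b → IsEnv f → g (hF (pr 0 (pr s t)) e f) → g (hE a b) →
    (H (hF (pr 0 (pr s t)) e f) ↔ H (hE a b))) ∧
  (∀ s t e f a b, TV s e a → TV t e b → IsEnv f → g (hF (pr 1 (pr s t)) e f) → g (hL a b) →
    (H (hF (pr 1 (pr s t)) e f) ↔ H (hL a b))) ∧
  (∀ s i e f a k, TV s e a → LK i f k → g (hF (memC s i) e f) → g (hM a k) →
    (H (hF (memC s i) e f) ↔ H (hM a k))) ∧
  (∀ x e f, IsFm x → IsEnv e → IsEnv f → g (hF (negC x) e f) → g (hF x e f) →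
    (H (hF (negC x) e f) ↔ ¬ H (hF x e f))) ∧
  (∀ x y e f, IsFm x → IsFm y → IsEnv e → IsEnv f → g (hF (andC x y) e f) →
    g (hF x e f) → g (hF y e f) → (H (hF (andC x y) e f) ↔ H (hF x e f) ∧ H (hF y e f)))) ∧
  ((∀ i x k e f, IsFm x → IsEnv e → IsEnv f → g (hF (allC i x) e f) →
    g (hF x (consC i k e) f) → H (hF (allC i x) e f) → H (hF x (consC i k e) f)) ∧
  (∀ i x e f, IsFm x → IsEnv e → IsEnv f → g (hF (allC i x) e f) →
    g (hF x (consC i (wN i x e f) e) f) → H (hF x (consC i (wN i x e f) e) f) →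
      H (hF (allC i x) e f)) ∧
  (∀ i x k e f, IsFm x → IsEnv e → IsEnv f → g (hF (allSC i x) e f) →
    g (hF x e (consC i k f)) → H (hF (allSC i x) e f) → H (hF x e (consC i k f))) ∧
  (∀ i x e f, IsFm x → IsEnv e → IsEnv f → g (hF (allSC i x) e f) →
    g (hF x e (consC i (wS i x e f) f)) → H (hF x e (consC i (wS i x e f) f)) →
      H (hF (allSC i x) e f)) ∧
  (∀ y, Ax y → g (hF y 0 0) → H (hF y 0 0)) ∧
  (g (hF x0 0 0) → ¬ H (hF x0 0 0)))

theorem good_iff (g Ax : ℕ → Prop) (x0 : ℕ) (H : ℕ → Prop) :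
    Good g Ax x0 H ↔ GoodC g Ax x0 H :=
  ⟨fun h => ⟨⟨h.refl, h.symm, h.trans, h.cadd, h.cmul, h.clt, h.cmem⟩,
    ⟨h.feq, h.flt, h.fmem, h.fneg, h.fand⟩,
    ⟨h.fall, h.fallw, h.fallS, h.fallSw, h.ax, h.goal⟩⟩,
   fun ⟨⟨h1, h2, h3, h4, h5, h6, h7⟩, ⟨h8, h9, h10, h11, h12⟩, ⟨h13, h14, h15, h16, h17, h18⟩⟩ =>
    ⟨h1, h2, h3, h4, h5, h6, h7, h8, h9, h10, h11, h12, h13, h14, h15, h16, h17, h18⟩⟩

theorem Good.restrict {Ax Ax' : ℕ → Prop} {x0 : ℕ} {H H' : ℕ → Prop}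
    (hG : Good (fun _ => True) Ax x0 H) (g : ℕ → Prop) (hA : ∀ y, Ax' y → Ax y)
    (hH : ∀ n, g n → (H' n ↔ H n)) : Good g Ax' x0 H' where
  refl a h := (hH _ h).2 (hG.refl a trivial)
  symm a b h1 h2 h := (hH _ h2).2 (hG.symm a b trivial trivial ((hH _ h1).1 h))
  trans a b c h1 h2 h3 h h' := (hH _ h3).2 (hG.trans a b c trivial trivial trivial
    ((hH _ h1).1 h) ((hH _ h2).1 h'))
  cadd a a' b b' h1 h2 h3 h h' := (hH _ h3).2 (hG.cadd a a' b b' trivial trivial trivial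
    ((hH _ h1).1 h) ((hH _ h2).1 h'))
  cmul a a' b b' h1 h2 h3 h h' := (hH _ h3).2 (hG.cmul a a' b b' trivial trivial trivial
    ((hH _ h1).1 h) ((hH _ h2).1 h'))
  clt a a' b b' h1 h2 h3 h4 h h' h'' := (hH _ h4).2 (hG.clt a a' b b' trivial trivial trivial
    trivial ((hH _ h1).1 h) ((hH _ h2).1 h') ((hH _ h3).1 h''))
  cmem a a' k h1 h2 h3 h h' := (hH _ h3).2 (hG.cmem a a' k trivial trivial trivial
    ((hH _ h1).1 h) ((hH _ h2).1 h'))
  feq s t e f a b h h' h'' h1 h2 := by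
    rw [hH _ h1, hH _ h2]; exact hG.feq s t e f a b h h' h'' trivial trivial
  flt s t e f a b h h' h'' h1 h2 := by
    rw [hH _ h1, hH _ h2]; exact hG.flt s t e f a b h h' h'' trivial trivial
  fmem s i e f a k h h' h1 h2 := by
    rw [hH _ h1, hH _ h2]; exact hG.fmem s i e f a k h h' trivial trivial
  fneg x e f h h' h'' h1 h2 := by
    rw [hH _ h1, hH _ h2]; exact hG.fneg x e f h h' h'' trivial trivial
  fand x y e f h h' h'' h''' h1 h2 h3 := by
    rw [hH _ h1, hH _ h2, hH _ h3]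
    exact hG.fand x y e f h h' h'' h''' trivial trivial trivial
  fall i x k e f h h' h'' h1 h2 h3 := (hH _ h2).2
    (hG.fall i x k e f h h' h'' trivial trivial ((hH _ h1).1 h3))
  fallw i x e f h h' h'' h1 h2 h3 := (hH _ h1).2
    (hG.fallw i x e f h h' h'' trivial trivial ((hH _ h2).1 h3))
  fallS i x k e f h h' h'' h1 h2 h3 := (hH _ h2).2
    (hG.fallS i x k e f h h' h'' trivial trivial ((hH _ h1).1 h3))
  fallSw i x e f h h' h'' h1 h2 h3 := (hH _ h1).2
    (hG.fallSw i x e f h h' h'' trivial trivial ((hH _ h2).1 h3))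
  ax y h h1 := (hH _ h1).2 (hG.ax y (hA y h) trivial)
  goal h1 h := hG.goal trivial ((hH _ h1).1 h)

/-- the axiom `a` is in the finite set coded by `p` -/
def AxI (a p : ℕ) : Prop := ∃ n b c, p = pr n (pr b c) ∧ a < n ∧ Mem a b c

instance Def.AxI (f g : (ℕ → ℕ) → ℕ) [DTm f] [DTm g] :
    Def (fun v _ => Q204.RF.AxI (f v) (g v)) := by
  refine Def.comp2 (P := Q204.RF.AxI) ?_ f g
  unfold RF.AxI
  infer_instance

/-- `p` is a proof of `x` -/
def Prf (p x : ℕ) : Prop :=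
  ∃ N, ∀ b c, ¬ Good (fun n => n < N) (fun y => AxI y p) x (fun y => Mem y b c)

theorem exists_AxI (A : Set ℕ) (hA : A.Finite) : ∃ p, ∀ a, AxI a p ↔ a ∈ A := by
  obtain ⟨n, hn⟩ := hA.bddAbove
  obtain ⟨b, c, hbc⟩ := exists_code A n
  refine ⟨pr (n + 1) (pr b c), fun a => ⟨?_, fun ha => ?_⟩⟩
  · rintro ⟨n', b', c', h, h1, h2⟩
    obtain ⟨h3, h4⟩ := pr_inj h
    obtain ⟨h5, h6⟩ := pr_inj h4
    rw [← h5, ← h6] at h2
    exact (hbc a (by omega)).1 h2
  · have h1 : a ≤ n := hn ha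
    exact ⟨n + 1, b, c, rfl, by omega, (hbc a h1).2 ha⟩

theorem prf_correct (T : Set Fm) (hT : ∀ ψ ∈ T, ψ.IsSentence) (φ : Fm) (hφ : φ.IsSentence) :
    Proves T φ ↔ ∃ p, Prf p φ.code ∧ ∀ a, AxI a p → ∃ ψ ∈ T, ψ.code = a := by
  classical
  constructor
  · intro h
    by_contra hcon
    push Not at hcon
    -- every finite subset has a Henkin set
    have hfin : ∀ F : Finset T, ∃ H : ℕ → Prop,
        Good (fun _ => True) (fun y => ∃ ψ ∈ F, ψ.1.code = y) φ.code H := by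
      intro F
      let A : Set ℕ := (fun ψ : T => ψ.1.code) '' (F : Set T)
      obtain ⟨p, hp⟩ := exists_AxI A (F.finite_toSet.image _)
      have h1 : ¬ Prf p φ.code := by
        intro hprf
        obtain ⟨a, ha, ha'⟩ := hcon p hprf
        obtain ⟨ψ, _, hψ⟩ := (hp a).1 ha
        exact ha' ψ.1 ψ.2 hψ
      unfold Prf at h1
      push Not at h1
      choose b c hbc using h1
      refine ⟨_, Good.lim (Filter.hyperfilter ℕ) (g := fun N n => n < N)
        (Ax := fun _ y => AxI y p) (H := fun N y => Mem y (b N) (c N)) ?_ ?_ hbc⟩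
      · intro n
        exact (Filter.eventually_gt_atTop n).filter_mono Nat.hyperfilter_le_atTop
      · rintro y ⟨ψ, hψ, rfl⟩
        exact Filter.Eventually.of_forall fun _ => (hp _).2 ⟨ψ, hψ, rfl⟩
    choose H hH using hfin
    have hG := Good.lim (Ultrafilter.of (Filter.atTop : Filter (Finset T)))
      (Ax' := fun y => ∃ ψ ∈ T, ψ.code = y) (fun n => Filter.Eventually.of_forall fun _ => trivial)
      (by
        rintro y ⟨ψ, hψ, rfl⟩
        have h1 : ∀ᶠ F in (Filter.atTop : Filter (Finset T)), (⟨ψ, hψ⟩ : T) ∈ F := by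
          filter_upwards [Filter.eventually_ge_atTop {(⟨ψ, hψ⟩ : T)}] with F hF
          exact hF (Finset.mem_singleton_self _)
        have h2 := h1.filter_mono (Ultrafilter.of_le _)
        filter_upwards [h2] with F hF
        exact ⟨⟨ψ, hψ⟩, hF, rfl⟩) hH
    exact hG.not_proves hT hφ h
  · rintro ⟨p, ⟨N, hN⟩, hp⟩
    by_contra hcon
    unfold Proves at hcon
    push Not at hcon
    obtain ⟨M, hM, hn⟩ := hcon
    obtain ⟨A⟩ := exists_interp M
    have hG := hset_good A hM hφ hn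
    obtain ⟨b, c, hbc⟩ := exists_code {n | hset M A n} N
    refine hN b c (hG.restrict _ hp fun n hn => ?_)
    exact hbc n (le_of_lt hn)

theorem exists_prf : ∃ prf : Fm, prf.Arithmetical ∧ prf.FreeIn {1, 2} ∧
    ∀ (v : ℕ → ℕ) (V : ℕ → Set ℕ), evF v V prf ↔ Prf (v 1) (v 2) := by
  have hd : Def (fun v _ => Prf (v 1) (v 2)) := by
    unfold Prf
    simp only [good_iff]
    unfold GoodC
    infer_instance
  obtain ⟨φ, h1, h2, h3, h4⟩ := hd.formula false {1, 2} (by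
    intro v v' Z h
    rw [h 1 (by simp), h 2 (by simp)])
  refine ⟨φ, h1, ⟨by simpa using h2, ?_⟩, fun v V => ?_⟩
  · simpa using h3
  · rw [h4]

theorem exists_axIn : ∃ ax : Fm, ax.Arithmetical ∧ ax.FreeIn {0, 1} ∧
    ∀ (v : ℕ → ℕ) (V : ℕ → Set ℕ), evF v V ax ↔ AxI (v 0) (v 1) := by
  have hd : Def (fun v _ => AxI (v 0) (v 1)) := inferInstance
  obtain ⟨φ, h1, h2, h3, h4⟩ := hd.formula false {0, 1} (by
    intro v v' Z h
    rw [h 0 (by simp), h 1 (by simp)])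
  refine ⟨φ, h1, ⟨by simpa using h2, ?_⟩, fun v V => ?_⟩
  · simpa using h3
  · rw [h4]

/-- There is an arithmetization that is correct in the standard model. -/
theorem exists_arithmetization : Nonempty StdArithmetization := by
  obtain ⟨prf, p1, p2, p3⟩ := exists_prf
  obtain ⟨ax, a1, a2, a3⟩ := exists_axIn
  obtain ⟨ip, i1, i2, i3⟩ := exists_isPi
  obtain ⟨tr, t1, t2, t3⟩ := exists_tr
  refine ⟨⟨prf, ax, ip, tr, p1, p2, a1, a2, ?_, i1, i2, ?_, t1, t2, t3⟩⟩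
  · intro T hT φ hφ
    rw [prf_correct T hT φ hφ]
    refine exists_congr fun p => and_congr ?_ (forall_congr' fun a => imp_congr ?_ Iff.rfl)
    · exact ((evF_std prf (asg (A := ℕ) 0 p φ.code) (fun _ => (∅ : Set ℕ))).trans (p3 _ _)).symm
    · exact ((evF_std ax (asg (A := ℕ) a p 0) (fun _ => (∅ : Set ℕ))).trans (a3 _ _)).symm
  · intro n
    exact (evF_std _ _ _).trans (i3 _ _)

end Q204.RF
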