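import Pool.Agent.Q204.RF.Def
import Pool.Agent.H986R3.SOAFinal

set_option autoImplicit false

/-!
Coding of finite sets and definitions by course-of-values recursion.
-/

namespace Q204.RF

open Pool.Agent.H986R3.SOA Function

/-- membership in the finite set coded by `b, c` -/
def Mem (y b c : ℕ) : Prop := ∃ q, c = ((y + 1) * b + 1) * q

instance Def.Mem (f g h : (ℕ → ℕ) → ℕ) [DTm f] [DTm g] [DTm h] :
    Def (fun v _ => Q204.RF.Mem (f v) (g v) (h v)) := by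
  refine Def.comp3 (P := Q204.RF.Mem) ?_ f g h
  show Def (fun v _ => ∃ q, v 0 = ((v 2 + 1) * v 1 + 1) * q)
  infer_instance

theorem exists_code (A : Set ℕ) (N : ℕ) : ∃ b c, ∀ y ≤ N, (Mem y b c ↔ y ∈ A) := by
  classical
  let b := (N + 1).factorial
  have hb : 0 < b := Nat.factorial_pos _
  have hcop : ∀ y ≤ N, ∀ y' ≤ N, y ≠ y' → Nat.Coprime ((y + 1) * b + 1) ((y' + 1) * b + 1) := by
    have key : ∀ y y', y < y' → y' ≤ N → Nat.Coprime ((y + 1) * b + 1) ((y' + 1) * b + 1) := by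
      intro y y' h1 h2
      refine Nat.coprime_mul_succ ?_
      exact Nat.dvd_factorial (by omega) (by omega)
    intro y hy y' hy' hne
    rcases lt_or_gt_of_ne hne with h | h
    · exact key y y' h hy'
    · exact (key y' y h hy).symm
  let c := ∏ y ∈ (Finset.range (N + 1)).filter (· ∈ A), ((y + 1) * b + 1)
  refine ⟨b, c, fun y hy => ⟨?_, ?_⟩⟩
  · rintro ⟨q, hq⟩
    by_contra hA
    have h1 : Nat.Coprime ((y + 1) * b + 1) c := by
      apply Nat.Coprime.prod_right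
      intro z hz
      rw [Finset.mem_filter, Finset.mem_range] at hz
      refine hcop y hy z (by omega) ?_
      rintro rfl
      exact hA hz.2
    have h2 : ((y + 1) * b + 1) ∣ c := ⟨q, hq⟩
    have h3 := Nat.Coprime.eq_one_of_dvd h1 h2
    have : 0 < (y + 1) * b := Nat.mul_pos (Nat.succ_pos _) hb
    omega
  · intro hA
    have : ((y + 1) * b + 1) ∣ c := Finset.dvd_prod_of_mem (fun y => (y + 1) * b + 1)
      (Finset.mem_filter.2 ⟨Finset.mem_range.2 (by omega), hA⟩)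
    obtain ⟨q, hq⟩ := this
    exact ⟨q, hq⟩

/-- Course-of-values recursion. -/
theorem Def.recursion {P : ℕ → Prop} (G : (ℕ → Prop) → ℕ → Prop)
    (hloc : ∀ (Q Q' : ℕ → Prop) (n : ℕ), (∀ m < n, (Q m ↔ Q' m)) → (G Q n ↔ G Q' n))
    (hP : ∀ n, P n ↔ G P n)
    (hdef : Def (fun v _ => G (fun y => Q204.RF.Mem y (v 2) (v 1)) (v 0))) :
    Def (fun v _ => P (v 0)) := by
  have hdef' : Def (fun v _ => G (fun y => Q204.RF.Mem y (v 2) (v 1)) (v 0)) := hdef
  have h0 : Def (fun v (_ : Set ℕ) => ∀ y, y ≤ v 2 →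
      (Q204.RF.Mem y (v 1) (v 0) ↔ G (fun z => Q204.RF.Mem z (v 1) (v 0)) y)) := by
    have h1 : Def (fun v (_ : Set ℕ) => v 0 ≤ v 3 →
      (Q204.RF.Mem (v 0) (v 2) (v 1) ↔ G (fun z => Q204.RF.Mem z (v 2) (v 1)) (v 0))) :=
        inferInstance
    exact @Def.all (fun v _ y => y ≤ v 2 →
      (Q204.RF.Mem y (v 1) (v 0) ↔ G (fun z => Q204.RF.Mem z (v 1) (v 0)) y)) h1
  have h1 : Def (fun v (_ : Set ℕ) => (∀ y, y ≤ v 2 →
      (Q204.RF.Mem y (v 1) (v 0) ↔ G (fun z => Q204.RF.Mem z (v 1) (v 0)) y)) ∧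
      Q204.RF.Mem (v 2) (v 1) (v 0)) := inferInstance
  have h2 : Def (fun v (_ : Set ℕ) => ∃ c, (∀ y, y ≤ v 1 →
      (Q204.RF.Mem y (v 0) c ↔ G (fun z => Q204.RF.Mem z (v 0) c) y)) ∧
      Q204.RF.Mem (v 1) (v 0) c) :=
    @Def.ex (fun v _ c => (∀ y, y ≤ v 1 →
      (Q204.RF.Mem y (v 0) c ↔ G (fun z => Q204.RF.Mem z (v 0) c) y)) ∧
      Q204.RF.Mem (v 1) (v 0) c) h1
  have h3 : Def (fun v (_ : Set ℕ) => ∃ b c, (∀ y, y ≤ v 0 →
      (Q204.RF.Mem y b c ↔ G (fun z => Q204.RF.Mem z b c) y)) ∧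
      Q204.RF.Mem (v 0) b c) :=
    @Def.ex (fun v _ b => ∃ c, (∀ y, y ≤ v 0 →
      (Q204.RF.Mem y b c ↔ G (fun z => Q204.RF.Mem z b c) y)) ∧
      Q204.RF.Mem (v 0) b c) h2
  refine h3.congr fun v _ => ?_
  constructor
  · intro h
    obtain ⟨b, c, hbc⟩ := exists_code {n | P n} (v 0)
    refine ⟨b, c, fun y hy => ?_, (hbc _ le_rfl).2 h⟩
    rw [hbc y hy]
    show P y ↔ _
    rw [hP y]
    exact hloc _ _ _ fun m hm => (hbc m (by omega)).symm
  · rintro ⟨b, c, h1, h2⟩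
    have key : ∀ y, y ≤ v 0 → (Q204.RF.Mem y b c ↔ P y) := by
      intro y
      induction y using Nat.strong_induction_on with
      | _ y ih =>
        intro hy
        rw [h1 y hy, hP y]
        exact hloc _ _ _ fun m hm => ih m hm (by omega)
    exact (key _ le_rfl).1 h2

end Q204.RF
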