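import Pool.Agent.Q204.RF.Env

set_option autoImplicit false
set_option synthInstance.maxSize 8000

/-!
A `Pi^1_1` truth definition for `Pi^1_1` sentences that is correct in the standard model.
-/

namespace Q204.RF

open Pool.Agent.H986R3.SOA Function

/-- atom: the term `s` has the value `a` in the environment `e` -/
def zT (s e a : ℕ) : ℕ := pr 0 (pr (pr s e) a)
/-- atom: the formula `x` holds in the environment `e` -/
def zF (x e : ℕ) : ℕ := pr 1 (pr x e)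
/-- atom: membership in the parameter -/
def zA (a : ℕ) : ℕ := pr 2 a

instance (f g h : (ℕ → ℕ) → ℕ) [DTm f] [DTm g] [DTm h] :
    DTm (fun v => zT (f v) (g v) (h v)) := by unfold zT; infer_instance
instance (f g : (ℕ → ℕ) → ℕ) [DTm f] [DTm g] : DTm (fun v => zF (f v) (g v)) := by
  unfold zF; infer_instance
instance (f : (ℕ → ℕ) → ℕ) [DTm f] : DTm (fun v => zA (f v)) := by
  unfold zA; infer_instance

/-- term clauses of a satisfaction class -/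
def SatT (Z : Set ℕ) : Prop :=
  (∀ i k e a, IsEnv e → (zT (varC i) (consC i k e) a ∈ Z ↔ a = k)) ∧
  (∀ i j k e a, IsEnv e → j ≠ i → (zT (varC j) (consC i k e) a ∈ Z ↔ zT (varC j) e a ∈ Z)) ∧
  (∀ j a, zT (varC j) 0 a ∈ Z ↔ a = 0) ∧
  (∀ e a, IsEnv e → (zT (pr 1 0) e a ∈ Z ↔ a = 0)) ∧
  (∀ e a, IsEnv e → (zT (pr 2 0) e a ∈ Z ↔ a = 1)) ∧
  (∀ s t e a, IsTm s → IsTm t → IsEnv e → (zT (addC s t) e a ∈ Z ↔
    ∃ b c, zT s e b ∈ Z ∧ zT t e c ∈ Z ∧ a = b + c)) ∧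
  (∀ s t e a, IsTm s → IsTm t → IsEnv e → (zT (mulC s t) e a ∈ Z ↔
    ∃ b c, zT s e b ∈ Z ∧ zT t e c ∈ Z ∧ a = b * c))

/-- formula clauses of a satisfaction class -/
def SatF (Z : Set ℕ) : Prop :=
  (∀ s t e, IsTm s → IsTm t → IsEnv e → (zF (pr 0 (pr s t)) e ∈ Z ↔
    ∃ a, zT s e a ∈ Z ∧ zT t e a ∈ Z)) ∧
  (∀ s t e, IsTm s → IsTm t → IsEnv e → (zF (pr 1 (pr s t)) e ∈ Z ↔
    ∃ a b, zT s e a ∈ Z ∧ zT t e b ∈ Z ∧ a < b)) ∧
  (∀ s i e, IsTm s → IsEnv e → (zF (memC s i) e ∈ Z ↔ ∃ a, zT s e a ∈ Z ∧ zA a ∈ Z)) ∧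
  (∀ x e, IsAr x → IsEnv e → (zF (negC x) e ∈ Z ↔ ¬ zF x e ∈ Z)) ∧
  (∀ x y e, IsAr x → IsAr y → IsEnv e → (zF (andC x y) e ∈ Z ↔ zF x e ∈ Z ∧ zF y e ∈ Z)) ∧
  (∀ i x e, IsAr x → IsEnv e → (zF (allC i x) e ∈ Z ↔ ∀ k, zF x (consC i k e) ∈ Z))

theorem SatT.term {Z : Set ℕ} (h : SatT Z) (t : Tm) (l : List (ℕ × ℕ)) (a : ℕ) :
    zT t.code (ce l) a ∈ Z ↔ a = evT (lk l) t := by
  obtain ⟨h1, h2, h3, h4, h5, h6, h7⟩ := h
  induction t generalizing a with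
  | var j =>
    induction l with
    | nil => exact h3 j a
    | cons q l ih =>
      obtain ⟨i, k⟩ := q
      by_cases hj : j = i
      · subst hj
        rw [show evT (lk ((j, k) :: l)) (.var j) = k by simp [evT, lk]]
        exact h1 j k (ce l) a ⟨l, rfl⟩
      · rw [show evT (lk ((i, k) :: l)) (.var j) = evT (lk l) (.var j) by simp [evT, lk, hj]]
        exact (h2 i j k (ce l) a ⟨l, rfl⟩ hj).trans ih
  | zero => exact h4 _ _ ⟨l, rfl⟩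
  | one => exact h5 _ _ ⟨l, rfl⟩
  | add s t hs ht =>
    refine (h6 s.code t.code (ce l) a ⟨s, rfl⟩ ⟨t, rfl⟩ ⟨l, rfl⟩).trans ?_
    simp only [hs, ht, evT]
    constructor
    · rintro ⟨b, c, rfl, rfl, h⟩; exact h
    · intro h; exact ⟨_, _, rfl, rfl, h⟩
  | mul s t hs ht =>
    refine (h7 s.code t.code (ce l) a ⟨s, rfl⟩ ⟨t, rfl⟩ ⟨l, rfl⟩).trans ?_
    simp only [hs, ht, evT]
    constructor
    · rintro ⟨b, c, rfl, rfl, h⟩; exact h
    · intro h; exact ⟨_, _, rfl, rfl, h⟩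

theorem SatF.formula {Z : Set ℕ} (h : SatT Z) (h' : SatF Z) (φ : Fm) (hφ : φ.Arithmetical) :
    ∀ l : List (ℕ × ℕ), zF φ.code (ce l) ∈ Z ↔ evF (lk l) (fun _ => {a | zA a ∈ Z}) φ := by
  obtain ⟨h1, h2, h3, h4, h5, h6⟩ := h'
  induction φ with
  | eq s t =>
    intro l
    refine (h1 s.code t.code (ce l) ⟨s, rfl⟩ ⟨t, rfl⟩ ⟨l, rfl⟩).trans ?_
    simp only [h.term, evF]
    constructor
    · rintro ⟨a, rfl, h⟩; exact h
    · intro h; exact ⟨_, rfl, h⟩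
  | lt s t =>
    intro l
    refine (h2 s.code t.code (ce l) ⟨s, rfl⟩ ⟨t, rfl⟩ ⟨l, rfl⟩).trans ?_
    simp only [h.term, evF]
    constructor
    · rintro ⟨a, b, rfl, rfl, h⟩; exact h
    · intro h; exact ⟨_, _, rfl, rfl, h⟩
  | mem t i =>
    intro l
    refine (h3 t.code i (ce l) ⟨t, rfl⟩ ⟨l, rfl⟩).trans ?_
    simp only [h.term, evF]
    constructor
    · rintro ⟨a, rfl, h⟩; exact h
    · intro h; exact ⟨_, rfl, h⟩
  | neg φ ih =>
    intro l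
    refine (h4 φ.code (ce l) ⟨φ, hφ, rfl⟩ ⟨l, rfl⟩).trans ?_
    rw [ih hφ]
    exact Iff.rfl
  | and φ ψ ih1 ih2 =>
    intro l
    refine (h5 φ.code ψ.code (ce l) ⟨φ, hφ.1, rfl⟩ ⟨ψ, hφ.2, rfl⟩ ⟨l, rfl⟩).trans ?_
    rw [ih1 hφ.1, ih2 hφ.2]
    exact Iff.rfl
  | all i φ ih =>
    intro l
    refine (h6 i φ.code (ce l) ⟨φ, hφ, rfl⟩ ⟨l, rfl⟩).trans ?_
    simp only [evF]
    refine forall_congr' fun k => ?_
    rw [← lk_cons]
    exact ih hφ ((i, k) :: l)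
  | allS i φ ih => exact hφ.elim

/-- the satisfaction class for the parameter `A` -/
def canon (A : Set ℕ) : Set ℕ :=
  {n | (∃ (t : Tm) (l : List (ℕ × ℕ)), n = zT t.code (ce l) (evT (lk l) t)) ∨
    (∃ (φ : Fm) (l : List (ℕ × ℕ)), evF (lk l) (fun _ => A) φ ∧ n = zF φ.code (ce l)) ∨
    ∃ a ∈ A, n = zA a}

theorem canon_T (A : Set ℕ) (t : Tm) (l : List (ℕ × ℕ)) (a : ℕ) :
    zT t.code (ce l) a ∈ canon A ↔ a = evT (lk l) t := by
  constructor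
  · rintro (⟨t', l', h⟩ | ⟨φ, l', _, h⟩ | ⟨b, _, h⟩)
    · unfold zT at h
      have h1 := pr_inj (pr_inj h).2
      have h2 := pr_inj h1.1
      rw [Tm.code_inj _ _ h2.1, ce_inj _ _ h2.2]
      exact h1.2
    · exact absurd (pr_inj h).1 (by norm_num)
    · exact absurd (pr_inj h).1 (by norm_num)
  · rintro rfl
    exact Or.inl ⟨t, l, rfl⟩

theorem canon_F (A : Set ℕ) (φ : Fm) (l : List (ℕ × ℕ)) :
    zF φ.code (ce l) ∈ canon A ↔ evF (lk l) (fun _ => A) φ := by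
  constructor
  · rintro (⟨t', l', h⟩ | ⟨ψ, l', h', h⟩ | ⟨b, _, h⟩)
    · exact absurd (pr_inj h).1 (by norm_num)
    · unfold zF at h
      have h1 := pr_inj (pr_inj h).2
      rw [Fm.code_inj _ _ h1.1, ce_inj _ _ h1.2]
      exact h'
    · exact absurd (pr_inj h).1 (by norm_num)
  · intro h
    exact Or.inr (Or.inl ⟨φ, l, h, rfl⟩)

theorem canon_A (A : Set ℕ) (a : ℕ) : zA a ∈ canon A ↔ a ∈ A := by
  constructor
  · rintro (⟨t', l', h⟩ | ⟨ψ, l', h', h⟩ | ⟨b, hb, h⟩)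
    · exact absurd (pr_inj h).1 (by norm_num)
    · exact absurd (pr_inj h).1 (by norm_num)
    · rw [(pr_inj h).2]; exact hb
  · intro h
    exact Or.inr (Or.inr ⟨a, h, rfl⟩)

theorem canon_SatT (A : Set ℕ) : SatT (canon A) := by
  refine ⟨?_, ?_, ?_, ?_, ?_, ?_, ?_⟩
  · rintro i k _ a ⟨l, rfl⟩
    refine (canon_T A (.var i) ((i, k) :: l) a).trans ?_
    simp [evT, lk]
  · rintro i j k _ a ⟨l, rfl⟩ hj
    refine (canon_T A (.var j) ((i, k) :: l) a).trans (Iff.trans ?_ (canon_T A (.var j) l a).symm)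
    simp [evT, lk, hj]
  · intro j a
    exact canon_T A (.var j) [] a
  · rintro _ a ⟨l, rfl⟩
    exact canon_T A .zero l a
  · rintro _ a ⟨l, rfl⟩
    exact canon_T A .one l a
  · rintro _ _ _ a ⟨s, rfl⟩ ⟨t, rfl⟩ ⟨l, rfl⟩
    refine (canon_T A (.add s t) l a).trans ?_
    simp only [canon_T, evT]
    constructor
    · intro h; exact ⟨_, _, rfl, rfl, h⟩
    · rintro ⟨b, c, rfl, rfl, h⟩; exact h
  · rintro _ _ _ a ⟨s, rfl⟩ ⟨t, rfl⟩ ⟨l, rfl⟩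
    refine (canon_T A (.mul s t) l a).trans ?_
    simp only [canon_T, evT]
    constructor
    · intro h; exact ⟨_, _, rfl, rfl, h⟩
    · rintro ⟨b, c, rfl, rfl, h⟩; exact h

theorem canon_SatF (A : Set ℕ) : SatF (canon A) := by
  refine ⟨?_, ?_, ?_, ?_, ?_, ?_⟩
  · rintro _ _ _ ⟨s, rfl⟩ ⟨t, rfl⟩ ⟨l, rfl⟩
    refine (canon_F A (.eq s t) l).trans ?_
    simp only [canon_T, evF]
    constructor
    · intro h; exact ⟨_, rfl, h⟩
    · rintro ⟨a, rfl, h⟩; exact h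
  · rintro _ _ _ ⟨s, rfl⟩ ⟨t, rfl⟩ ⟨l, rfl⟩
    refine (canon_F A (.lt s t) l).trans ?_
    simp only [canon_T, evF]
    constructor
    · intro h; exact ⟨_, _, rfl, rfl, h⟩
    · rintro ⟨a, b, rfl, rfl, h⟩; exact h
  · rintro _ i _ ⟨t, rfl⟩ ⟨l, rfl⟩
    refine (canon_F A (.mem t i) l).trans ?_
    simp only [canon_T, canon_A, evF]
    constructor
    · intro h; exact ⟨_, rfl, h⟩
    · rintro ⟨a, rfl, h⟩; exact h
  · rintro _ _ ⟨φ, _, rfl⟩ ⟨l, rfl⟩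
    refine (canon_F A (.neg φ) l).trans ?_
    rw [canon_F]; exact Iff.rfl
  · rintro _ _ _ ⟨φ, _, rfl⟩ ⟨ψ, _, rfl⟩ ⟨l, rfl⟩
    refine (canon_F A (.and φ ψ) l).trans ?_
    rw [canon_F, canon_F]; exact Iff.rfl
  · rintro i _ _ ⟨φ, _, rfl⟩ ⟨l, rfl⟩
    refine (canon_F A (.all i φ) l).trans ?_
    simp only [evF]
    refine forall_congr' fun k => ?_
    rw [← lk_cons]
    exact (canon_F A φ ((i, k) :: l)).symm

/-- the kernel of the truth definition -/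
def TrK (x : ℕ) (Z : Set ℕ) : Prop := SatT Z → SatF Z → ∀ i a, x = allSC i a → zF a 0 ∈ Z

theorem evF_congr (φ : Fm) (v v' : ℕ → ℕ) (V V' : ℕ → Set ℕ)
    (h : ∀ i ∈ φ.fvN, v i = v' i) (h' : ∀ i ∈ φ.fvS, V i = V' i) :
    evF v V φ ↔ evF v' V' φ := by
  rw [← evF_std, ← evF_std]
  exact Sat_congr std φ v v' V V' h h'

theorem TrK_iff (i : ℕ) (θ : Fm) (hθ : θ.Arithmetical) (hs : (Fm.allS i θ).IsSentence) :
    (∀ Z, TrK (Fm.allS i θ).code Z) ↔ std.Holds (.allS i θ) := by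
  have hN : θ.fvN = ∅ := hs.1
  have hS : ∀ j ∈ θ.fvS, j = i := by
    intro j hj
    by_contra hne
    have : j ∈ θ.fvS \ {i} := ⟨hj, hne⟩
    have h2 : θ.fvS \ {i} = ∅ := hs.2
    rw [h2] at this
    exact this
  have key : ∀ (A : Set ℕ) (v : ℕ → ℕ) (V : ℕ → Set ℕ),
      evF v (update V i A) θ ↔ evF (lk []) (fun _ => A) θ := by
    intro A v V
    refine evF_congr θ _ _ _ _ (fun j hj => ?_) (fun j hj => ?_)
    · rw [hN] at hj; exact hj.elim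
    · rw [hS j hj, update_self]
  constructor
  · intro h v V _
    refine (evF_std _ v V).2 fun A => ?_
    have h1 := h (canon A) (canon_SatT A) (canon_SatF A) i θ.code rfl
    have h2 := (canon_F A θ []).1 h1
    exact (key A v V).2 h2
  · rintro h Z hT hF j a ha
    obtain ⟨rfl, rfl⟩ := pr_inj (pr_inj ha).2
    have h1 := h (fun _ => (0 : ℕ)) (fun _ => (∅ : Set ℕ)) (fun _ => trivial)
    have h2 := (evF_std _ _ _).1 h1 {a | zA a ∈ Z}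
    have h3 := (key _ _ _).1 h2
    exact (SatF.formula hT hF θ hθ []).2 h3

/-- a `Pi^1_1` truth definition -/
theorem exists_tr : ∃ tr : Fm, tr.IsPi11 ∧ tr.FreeIn {2} ∧
    ∀ φ : Fm, φ.IsPi11Sentence → (SatN 0 0 φ.code tr ↔ std.Holds φ) := by
  have hd : Def (fun v Z => TrK (v 2) Z) := by
    unfold TrK SatT SatF
    infer_instance
  obtain ⟨θ, h1, h2, h3, h4⟩ := hd.formula true {2} (by
    intro v v' Z h
    rw [h 2 (by simp)])
  refine ⟨.allS 0 θ, ⟨0, θ, rfl, h1⟩, ⟨(by simpa using h2 : θ.fvN ⊆ {2}), ?_⟩, ?_⟩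
  · have h3' : θ.fvS ⊆ {0} := by simpa using h3
    exact Set.sdiff_eq_empty.2 h3'
  · rintro φ ⟨⟨i, ψ, rfl, hψ⟩, hs⟩
    rw [← TrK_iff i ψ hψ hs]
    unfold SatN
    refine (evF_std _ _ _).trans ?_
    show (∀ A : Set ℕ, evF _ (update _ 0 A) θ) ↔ _
    refine forall_congr' fun A => ?_
    rw [h4]
    simp only [update_self, if_true]
    exact Iff.rfl

end Q204.RF
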